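import Pool.Agent.CLU.St

/-!
Module CLU_APX (MP_a57197_co): |b - p| - |p| is close to a polynomial in b, conj b.
-/

set_option autoImplicit false

open Polynomial Polynomial.Bivariate ComplexConjugate

namespace Pool.Agent.CLU

namespace APX

/-- the function x(b) -/
noncomputable def xf (p : ℂ) (b : ℂ) : ℂ :=
  (b * conj b - b * conj p - conj b * p) / ((‖p‖ : ℂ)) ^ 2

/-- the same as a real number -/
noncomputable def xr (p : ℂ) (b : ℂ) : ℝ := (‖b‖ ^ 2 - 2 * (b * conj p).re) / ‖p‖ ^ 2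

theorem mon_mem {K s t : ℕ} (hs : s ≤ K) (ht : t ≤ K) :
    (fun z : ℂ => z ^ s * (conj z) ^ t) ∈ Bi K :=
  Submodule.subset_span ⟨s, t, hs, ht, rfl⟩

theorem xf_mem (p : ℂ) : xf p ∈ Bi 1 := by
  have h1 := mon_mem (K := 1) (s := 1) (t := 1) le_rfl le_rfl
  have h2 := mon_mem (K := 1) (s := 1) (t := 0) le_rfl (Nat.zero_le _)
  have h3 := mon_mem (K := 1) (s := 0) (t := 1) (Nat.zero_le _) le_rfl
  have e : xf p = ((((‖p‖ : ℂ)) ^ 2)⁻¹ : ℂ) • (fun z : ℂ => z ^ 1 * (conj z) ^ 1) +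
      (-(conj p) * (((‖p‖ : ℂ)) ^ 2)⁻¹ : ℂ) • (fun z : ℂ => z ^ 1 * (conj z) ^ 0) +
      (-p * (((‖p‖ : ℂ)) ^ 2)⁻¹ : ℂ) • (fun z : ℂ => z ^ 0 * (conj z) ^ 1) := by
    funext z
    simp only [Pi.add_apply, Pi.smul_apply, smul_eq_mul, xf]
    ring
  rw [e]
  exact add_mem (add_mem (Submodule.smul_mem _ _ h1) (Submodule.smul_mem _ _ h2))
    (Submodule.smul_mem _ _ h3)

theorem xf_eq (p b : ℂ) : xf p b = ((xr p b : ℝ) : ℂ) := by
  have h1 : b * conj p + conj b * p = ((2 * (b * conj p).re : ℝ) : ℂ) := by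
    have e : conj b * p = conj (b * conj p) := by
      rw [map_mul, Complex.conj_conj]
    rw [e, Complex.add_conj]
  have h2 : b * conj b = ((‖b‖ ^ 2 : ℝ) : ℂ) := by
    rw [Complex.mul_conj, Complex.normSq_eq_norm_sq]
  unfold xf xr
  have h3 : b * conj b - b * conj p - conj b * p = b * conj b - (b * conj p + conj b * p) := by
    ring
  rw [h3, h1, h2]
  push_cast
  ring

theorem norm_sub_eq {p : ℂ} (hp : 0 < ‖p‖) (b : ℂ) : ‖b - p‖ = ‖p‖ * √(1 + xr p b) := by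
  have h1 : ‖b - p‖ ^ 2 = ‖p‖ ^ 2 * (1 + xr p b) := by
    have h2 : ‖b - p‖ ^ 2 = ‖b‖ ^ 2 - 2 * (b * conj p).re + ‖p‖ ^ 2 := by
      rw [← Complex.normSq_eq_norm_sq, ← Complex.normSq_eq_norm_sq, ← Complex.normSq_eq_norm_sq,
        Complex.normSq_sub]
      ring
    unfold xr
    rw [h2]
    field_simp
    ring
  have h3 : ‖b - p‖ = √(‖b - p‖ ^ 2) := (Real.sqrt_sq (norm_nonneg _)).symm
  rw [h3, h1, Real.sqrt_mul (by positivity), Real.sqrt_sq hp.le]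

theorem abs_xr_le {p b : ℂ} {ρ : ℝ} (hρ : 0 < ρ) (hp : 12 * ρ ≤ ‖p‖) (hb : ‖b‖ ≤ ρ) :
    |xr p b| ≤ 3 * ρ / ‖p‖ := by
  have hp0 : 0 < ‖p‖ := by linarith
  unfold xr
  rw [abs_div, abs_of_pos (by positivity : (0 : ℝ) < ‖p‖ ^ 2), div_le_div_iff₀ (by positivity) hp0]
  have h1 : |(b * conj p).re| ≤ ρ * ‖p‖ := by
    refine (Complex.abs_re_le_norm _).trans ?_
    rw [norm_mul, Complex.norm_conj]
    exact mul_le_mul_of_nonneg_right hb (norm_nonneg _)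
  have h2 : ‖b‖ ^ 2 ≤ ρ * ‖p‖ := by
    have : ‖b‖ * ‖b‖ ≤ ρ * ‖p‖ := mul_le_mul hb (by linarith) (norm_nonneg _) hρ.le
    nlinarith
  have h3 : |‖b‖ ^ 2 - 2 * (b * conj p).re| ≤ 3 * ρ * ‖p‖ := by
    rw [abs_le] at h1 ⊢
    have h4 : 0 ≤ ‖b‖ ^ 2 := by positivity
    constructor
    · nlinarith [h1.1, h1.2]
    · nlinarith [h1.1, h1.2]
  calc |‖b‖ ^ 2 - 2 * (b * conj p).re| * ‖p‖ ≤ 3 * ρ * ‖p‖ * ‖p‖ :=
        mul_le_mul_of_nonneg_right h3 hp0.le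
    _ = 3 * ρ * ‖p‖ ^ 2 := by ring

end APX

open APX in
/-- **APX.** -/
theorem APX_thm (h1 : t_SQR) (h2 : t_BIM) : t_APX := by
  intro I ρ D p hρ hD hp
  obtain ⟨c, hc⟩ := h1 I
  obtain ⟨hmul, hmono, -⟩ := h2
  have hp12 : 12 * ρ ≤ ‖p‖ := hD.trans hp
  have hp0 : 0 < ‖p‖ := by linarith
  have hD0 : 0 < D := by linarith
  have hpow : ∀ i : ℕ, (xf p) ^ i ∈ Bi i := by
    intro i
    induction i with
    | zero =>
      rw [pow_zero]
      have := mon_mem (K := 0) (s := 0) (t := 0) le_rfl le_rfl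
      have e : (fun z : ℂ => z ^ 0 * (conj z) ^ 0) = 1 := by
        funext z; simp
      rwa [e] at this
    | succ i ih =>
      rw [pow_succ]
      exact hmul i 1 _ _ ih (xf_mem p)
  refine ⟨∑ i ∈ Finset.Icc 1 I, ((‖p‖ : ℂ) * (c i : ℂ)) • (xf p) ^ i, ?_, fun b hb => ?_⟩
  · refine Submodule.sum_mem _ fun i hi => Submodule.smul_mem _ _ ?_
    exact hmono i I (Finset.mem_Icc.1 hi).2 (hpow i)
  · have e : (∑ i ∈ Finset.Icc 1 I, ((‖p‖ : ℂ) * (c i : ℂ)) • (xf p) ^ i) b =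
        ((‖p‖ * ∑ i ∈ Finset.Icc 1 I, c i * xr p b ^ i : ℝ) : ℂ) := by
      rw [Finset.sum_apply]
      push_cast
      rw [Finset.mul_sum]
      refine Finset.sum_congr rfl fun i _ => ?_
      rw [Pi.smul_apply, Pi.pow_apply, smul_eq_mul, xf_eq]
      ring
    rw [e, ← Complex.ofReal_sub, Complex.norm_real, Real.norm_eq_abs, norm_sub_eq hp0 b]
    have e2 : ‖p‖ * √(1 + xr p b) - ‖p‖ - ‖p‖ * ∑ i ∈ Finset.Icc 1 I, c i * xr p b ^ i =
        ‖p‖ * (√(1 + xr p b) - 1 - ∑ i ∈ Finset.Icc 1 I, c i * xr p b ^ i) := by ring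
    rw [e2, abs_mul, abs_of_pos hp0]
    have hx := abs_xr_le hρ hp12 hb
    have hx4 : |xr p b| ≤ 1 / 4 := hx.trans (by rw [div_le_iff₀ hp0]; linarith)
    have h3 := hc (xr p b) hx4
    have h4 : (2 * |xr p b|) ^ (I + 1) ≤ (6 * ρ / ‖p‖) ^ (I + 1) := by
      refine pow_le_pow_left₀ (by positivity) ?_ _
      calc 2 * |xr p b| ≤ 2 * (3 * ρ / ‖p‖) := by linarith
        _ = 6 * ρ / ‖p‖ := by ring
    have h5 : (6 * ρ / ‖p‖) ^ I ≤ (6 * ρ / D) ^ I := by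
      refine pow_le_pow_left₀ (by positivity) ?_ _
      exact div_le_div_of_nonneg_left (by linarith) hD0 hp
    calc ‖p‖ * |√(1 + xr p b) - 1 - ∑ i ∈ Finset.Icc 1 I, c i * xr p b ^ i|
        ≤ ‖p‖ * (6 * ρ / ‖p‖) ^ (I + 1) := mul_le_mul_of_nonneg_left (h3.trans h4) hp0.le
      _ = 6 * ρ * (6 * ρ / ‖p‖) ^ I := by
        rw [pow_succ]
        field_simp
      _ ≤ 6 * ρ * (6 * ρ / D) ^ I := mul_le_mul_of_nonneg_left h5 (by linarith)

end Pool.Agent.CLU
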