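import Pool.Agent.CLU.StP

/-!
# A good set of bounded diameter has boundedly many points
-/

set_option autoImplicit false
set_option maxHeartbeats 4000000

namespace Pool.Agent.CLU

open Pool.Agent.RCX

theorem BDC_thm : t_BDC := by
  intro Δ
  obtain ⟨t, ht, hcov⟩ := Metric.totallyBounded_iff.1
    (isCompact_closedBall (0 : Pl) Δ).totallyBounded (1 / 2) (by norm_num)
  refine ⟨ht.toFinset.card, fun X hX hd => ?_⟩
  rcases X.eq_empty_or_nonempty with h | ⟨x0, hx0⟩
  · subst h; simp
  · have hmem : ∀ x ∈ X, ∃ y ∈ t, x - x0 ∈ Metric.ball y (1 / 2) := by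
      intro x hx
      have h1 : x - x0 ∈ Metric.closedBall (0 : Pl) Δ := by
        rw [mem_closedBall_zero_iff, ← dist_eq_norm]
        exact (Metric.dist_le_diam_of_mem X.finite_toSet.isBounded hx hx0).trans hd
      have h2 := hcov h1
      simpa using h2
    choose! f hf hf2 using hmem
    apply Finset.card_le_card_of_injOn f
    · intro x hx
      simpa using hf x hx
    · intro x hx y hy hxy
      by_contra hne
      have h1 := hf2 x hx
      have h2 := hf2 y hy
      rw [← hxy] at h2
      have h3 : dist (x - x0) (y - x0) < 1 := by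
        rw [Metric.mem_ball] at h1 h2
        have := dist_triangle_right (x - x0) (y - x0) (f x)
        linarith
      rw [dist_sub_right] at h3
      obtain ⟨n, hn⟩ := hX.2 x hx y hy
      have hpos : 0 < dist x y := dist_pos.2 hne
      rw [hn] at h3 hpos
      have h4 : (n : ℝ) < ((1 : ℤ) : ℝ) := by simpa using h3
      have h5 : ((0 : ℤ) : ℝ) < (n : ℝ) := by simpa using hpos
      have h6 := Int.cast_lt.1 h4
      have h7 := Int.cast_lt.1 h5
      omega

end Pool.Agent.CLU
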