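import Pool.Agent.CLU.St

/-!
# Bezout in bidegrees (module BEZ of project CLU)
-/

set_option autoImplicit false

open Polynomial Polynomial.Bivariate ComplexConjugate

namespace Pool.Agent.CLU.BEZ

/-- coefficients of the swapped polynomial -/
theorem coeff_swap (Q : ℂ[X][Y]) (i j : ℕ) :
    ((Bivariate.swap Q).coeff i).coeff j = (Q.coeff j).coeff i := by
  induction Q using Polynomial.induction_on' with
  | add p q hp hq => simp only [map_add, coeff_add, hp, hq]
  | monomial n a =>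
    induction a using Polynomial.induction_on' with
    | add p q hp hq => simp only [map_add, coeff_add, hp, hq]
    | monomial m r =>
      rw [Bivariate.swap_monomial_monomial]
      simp only [coeff_monomial]
      split_ifs <;> simp_all [coeff_monomial]

/-- the coefficient function -/
noncomputable def cf (K L : ℕ) : ℂ[X][Y] →ₗ[ℂ] (Fin (L + 1) → Fin (K + 1) → ℂ) where
  toFun Q j i := (Q.coeff j).coeff i
  map_add' p q := by ext; simp
  map_smul' c p := by ext; simp

/-- polynomials of bounded bidegree -/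
noncomputable def P (K L : ℕ) : Submodule ℂ ℂ[X][Y] where
  carrier := {Q | BiDeg K L Q}
  add_mem' := by
    intro p q hp hq
    refine ⟨?_, ?_⟩
    · rw [map_add]; exact (natDegree_add_le _ _).trans (max_le hp.1 hq.1)
    · exact (natDegree_add_le _ _).trans (max_le hp.2 hq.2)
  zero_mem' := by simp [BiDeg]
  smul_mem' := by
    intro c p hp
    refine ⟨?_, ?_⟩
    · rw [map_smul]; exact (natDegree_smul_le _ _).trans hp.1
    · exact (natDegree_smul_le _ _).trans hp.2

theorem mem_P {K L : ℕ} {Q : ℂ[X][Y]} : Q ∈ P K L ↔ BiDeg K L Q := Iff.rfl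

theorem coeff_X {K : ℕ} {Q : ℂ[X][Y]} (h : (Bivariate.swap Q).natDegree ≤ K) (j i : ℕ)
    (hi : K < i) : (Q.coeff j).coeff i = 0 := by
  rw [← coeff_swap, coeff_eq_zero_of_natDegree_lt (h.trans_lt hi), coeff_zero]

/-- the polynomial with given coefficients -/
noncomputable def mk (K L : ℕ) (M : Fin (L + 1) → Fin (K + 1) → ℂ) : ℂ[X][Y] :=
  ∑ j : Fin (L + 1), ∑ i : Fin (K + 1), monomial (j : ℕ) (monomial (i : ℕ) (M j i))

theorem mk_mem (K L : ℕ) (M : Fin (L + 1) → Fin (K + 1) → ℂ) : mk K L M ∈ P K L := by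
  refine Submodule.sum_mem _ fun j _ => Submodule.sum_mem _ fun i _ => mem_P.2 ⟨?_, ?_⟩
  · rw [Bivariate.swap_monomial_monomial]
    exact (natDegree_monomial_le _).trans (Nat.lt_succ_iff.1 i.2)
  · exact (natDegree_monomial_le _).trans (Nat.lt_succ_iff.1 j.2)

theorem cf_mk (K L : ℕ) (M : Fin (L + 1) → Fin (K + 1) → ℂ) : cf K L (mk K L M) = M := by
  ext j i
  simp only [cf, mk, LinearMap.coe_mk, AddHom.coe_mk, finsetSum_coeff, coeff_monomial]
  rw [Finset.sum_eq_single j]
  · rw [Finset.sum_eq_single i]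
    · simp
    · intro b _ hb
      simp [coeff_monomial, Fin.val_inj, hb]
    · simp
  · intro b _ hb
    refine Finset.sum_eq_zero fun k _ => ?_
    simp [Fin.val_inj, hb]
  · simp

/-- the space of polynomials of bounded bidegree -/
noncomputable def eP (K L : ℕ) : P K L ≃ₗ[ℂ] (Fin (L + 1) → Fin (K + 1) → ℂ) :=
  LinearEquiv.ofBijective ((cf K L).domRestrict (P K L)) ⟨by
    refine (injective_iff_map_eq_zero _).2 ?_
    rintro ⟨Q, hQ⟩ h
    rw [Subtype.ext_iff]
    change Q = 0
    ext j i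
    rw [coeff_zero, coeff_zero]
    by_cases hj : j < L + 1
    · by_cases hi : i < K + 1
      · exact congrFun (congrFun h ⟨j, hj⟩) ⟨i, hi⟩
      · exact coeff_X hQ.1 _ _ (by omega)
    · rw [coeff_eq_zero_of_natDegree_lt (hQ.2.trans_lt (by omega)), coeff_zero],
    fun M => ⟨⟨mk K L M, mk_mem K L M⟩, cf_mk K L M⟩⟩

instance (K L : ℕ) : FiniteDimensional ℂ (P K L) := LinearEquiv.finiteDimensional (eP K L).symm

theorem finrank_P (K L : ℕ) : Module.finrank ℂ (P K L) = (K + 1) * (L + 1) := by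
  rw [(eP K L).finrank_eq]
  simp [Module.finrank_pi_fintype, mul_comm]

/-- evaluation at the points of Z -/
noncomputable def ev (Z : Finset (ℂ × ℂ)) : ℂ[X][Y] →ₗ[ℂ] (Z → ℂ) where
  toFun Q p := Q.evalEval p.1.1 p.1.2
  map_add' p q := by ext; simp [evalEval_add]
  map_smul' c p := by
    ext
    simp [evalEval, Polynomial.eval_smul]

/-- a factor that separates two points -/
noncomputable def lf (p q : ℂ × ℂ) : ℂ[X][Y] :=
  if p.1 ≠ q.1 then C (X - C q.1) else (Y - C (C q.2))

theorem lf_deg (p q : ℂ × ℂ) : BiDeg 1 1 (lf p q) := by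
  unfold lf BiDeg
  split_ifs
  · rw [Bivariate.swap_C]
    constructor
    · simp
    · simp
  · constructor
    · rw [map_sub, Bivariate.swap_Y, Bivariate.swap_C_C, ← C_sub]; simp
    · rw [natDegree_X_sub_C]

theorem lf_q (p q : ℂ × ℂ) : (lf p q).evalEval q.1 q.2 = 0 := by
  unfold lf
  split_ifs <;> simp [evalEval]

theorem lf_p (p q : ℂ × ℂ) (h : p ≠ q) : (lf p q).evalEval p.1 p.2 ≠ 0 := by
  unfold lf
  split_ifs with h1
  · simp only [evalEval, eval_C, eval_sub, eval_X]
    exact sub_ne_zero.2 h1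
  · simp only [evalEval, eval_C, eval_sub, eval_X]
    refine sub_ne_zero.2 fun h2 => h (Prod.ext (not_not.1 h1) h2)

theorem bideg_mul {k l k' l' : ℕ} {Q R : ℂ[X][Y]} (h : BiDeg k l Q) (h' : BiDeg k' l' R) :
    BiDeg (k + k') (l + l') (Q * R) := by
  refine ⟨?_, natDegree_mul_le.trans (add_le_add h.2 h'.2)⟩
  rw [map_mul]
  exact natDegree_mul_le.trans (add_le_add h.1 h'.1)

theorem bideg_prod (S : Finset (ℂ × ℂ)) (p : ℂ × ℂ) :
    BiDeg S.card S.card (∏ q ∈ S, lf p q) := by
  classical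
  induction S using Finset.induction_on with
  | empty => simp [BiDeg]
  | insert a s ha ih =>
    rw [Finset.prod_insert ha, Finset.card_insert_of_notMem ha, add_comm]
    exact bideg_mul (lf_deg p a) ih

theorem bideg_mono {k l k' l' : ℕ} {Q : ℂ[X][Y]} (h : BiDeg k l Q) (hk : k ≤ k') (hl : l ≤ l') :
    BiDeg k' l' Q := ⟨h.1.trans hk, h.2.trans hl⟩

theorem ev_surj (Z : Finset (ℂ × ℂ)) (k : ℕ) (hk : Z.card ≤ k) :
    Function.Surjective ((ev Z).domRestrict (P k k)) := by
  classical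
  rw [← LinearMap.range_eq_top, eq_top_iff]
  intro f _
  have hf : f = ∑ p : Z, f p • (Pi.single p (1 : ℂ) : Z → ℂ) := by
    ext q
    simp [Finset.sum_apply, Pi.single_apply]
  rw [hf]
  refine Submodule.sum_mem _ fun p _ => Submodule.smul_mem _ _ ?_
  have h0 : (∏ q ∈ Z.erase p.1, lf p.1 q).evalEval p.1.1 p.1.2 ≠ 0 := by
    rw [← coe_evalEvalRingHom, map_prod]
    refine Finset.prod_ne_zero_iff.2 fun q hq => ?_
    rw [coe_evalEvalRingHom]
    exact lf_p _ _ (Finset.ne_of_mem_erase hq).symm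
  refine ⟨⟨((∏ q ∈ Z.erase p.1, lf p.1 q).evalEval p.1.1 p.1.2)⁻¹ • ∏ q ∈ Z.erase p.1, lf p.1 q,
    Submodule.smul_mem _ _ (mem_P.2 (bideg_mono (bideg_prod _ _) ?_ ?_))⟩, ?_⟩
  · exact (Finset.card_erase_le).trans hk
  · exact (Finset.card_erase_le).trans hk
  · rw [LinearMap.domRestrict_apply, map_smul]
    ext q
    by_cases hqp : q = p
    · subst hqp
      simp only [Pi.smul_apply, ev, LinearMap.coe_mk, AddHom.coe_mk, smul_eq_mul,
        Pi.single_eq_same]
      exact inv_mul_cancel₀ h0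
    · have h1 : (∏ q ∈ Z.erase p.1, lf p.1 q).evalEval q.1.1 q.1.2 = 0 := by
        rw [← coe_evalEvalRingHom, map_prod]
        refine Finset.prod_eq_zero (i := q.1)
          (Finset.mem_erase.2 ⟨fun h => hqp (Subtype.ext h), q.2⟩) ?_
        rw [coe_evalEvalRingHom]
        exact lf_q _ _
      simp only [Pi.smul_apply, ev, LinearMap.coe_mk, AddHom.coe_mk, smul_eq_mul, h1, mul_zero]
      rw [Pi.single_eq_of_ne hqp]

/-- a general count -/
theorem gen {E F : Type} [AddCommGroup E] [Module ℂ E] [AddCommGroup F] [Module ℂ F]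
    [FiniteDimensional ℂ F] (W : Submodule ℂ E) [FiniteDimensional ℂ W] (f : E →ₗ[ℂ] F)
    (hf : Function.Surjective (f.domRestrict W)) (U : Submodule ℂ E) (hU : U ≤ W)
    (hU' : ∀ x ∈ U, f x = 0) : Module.finrank ℂ U + Module.finrank ℂ F ≤ Module.finrank ℂ W := by
  have hUle : U ≤ ((LinearMap.ker (f.domRestrict W)).map W.subtype) := by
    intro x hx
    refine ⟨⟨x, hU hx⟩, ?_, rfl⟩
    exact hU' x hx
  have h5 := Submodule.finrank_mono hUle
  rw [Submodule.finrank_map_subtype_eq] at h5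
  have h6 := LinearMap.finrank_range_add_finrank_ker (f.domRestrict W)
  rw [LinearMap.range_eq_top.2 hf, finrank_top] at h6
  omega

/-- the main count -/
theorem count (F G : ℂ[X][Y]) (hF : Irreducible F) (hFG : ¬ F ∣ G) (Z : Finset (ℂ × ℂ))
    (hZ : ∀ p ∈ Z, F.evalEval p.1 p.2 = 0 ∧ G.evalEval p.1 p.2 = 0) :
    Z.card ≤ (Bivariate.swap F).natDegree * G.natDegree +
      F.natDegree * (Bivariate.swap G).natDegree := by
  classical
  set a := (Bivariate.swap F).natDegree with ha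
  set b := F.natDegree with hb
  set c := (Bivariate.swap G).natDegree with hc
  set e := G.natDegree with he
  have hF0 : F ≠ 0 := hF.ne_zero
  have hG0 : G ≠ 0 := fun h => hFG (h ▸ dvd_zero F)
  have hsF0 : Bivariate.swap F ≠ 0 := (map_ne_zero_iff _ Bivariate.swap.injective).2 hF0
  have hsG0 : Bivariate.swap G ≠ 0 := (map_ne_zero_iff _ Bivariate.swap.injective).2 hG0
  have hP : Prime F := hF.prime
  obtain ⟨t, ht⟩ : ∃ t, t = Z.card := ⟨_, rfl⟩
  set k := a + b + c + e + t with hk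
  let U : Submodule ℂ ℂ[X][Y] := (P (b + c + e + t) (a + c + e + t)).map (LinearMap.mulLeft ℂ F)
  let V : Submodule ℂ ℂ[X][Y] := (P (a + b + e + t) (a + b + c + t)).map (LinearMap.mulLeft ℂ G)
  have hiF : Function.Injective (LinearMap.mulLeft ℂ F) := mul_right_injective₀ hF0
  have hiG : Function.Injective (LinearMap.mulLeft ℂ G) := mul_right_injective₀ hG0
  have hU : Module.finrank ℂ U = (b + c + e + t + 1) * (a + c + e + t + 1) := by
    rw [← finrank_P]
    exact (Submodule.equivMapOfInjective _ hiF _).finrank_eq.symm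
  have hV : Module.finrank ℂ V = (a + b + e + t + 1) * (a + b + c + t + 1) := by
    rw [← finrank_P]
    exact (Submodule.equivMapOfInjective _ hiG _).finrank_eq.symm
  have hUV : U ⊓ V ≤ (P (b + e + t) (a + c + t)).map (LinearMap.mulLeft ℂ (F * G)) := by
    rintro Q ⟨⟨A, hA, rfl⟩, ⟨B, hB, hAB⟩⟩
    simp only [LinearMap.mulLeft_apply] at hAB
    have h1 : F ∣ G * B := ⟨A, hAB⟩
    rcases hP.dvd_or_dvd h1 with h2 | ⟨T, rfl⟩
    · exact absurd h2 hFG
    · refine ⟨T, ?_, ?_⟩
      · by_cases hT : T = 0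
        · rw [hT]; exact zero_mem _
        · have hsT : Bivariate.swap T ≠ 0 := (map_ne_zero_iff _ Bivariate.swap.injective).2 hT
          have h3 := hB.1
          have h4 := hB.2
          rw [map_mul, natDegree_mul hsF0 hsT] at h3
          rw [natDegree_mul hF0 hT] at h4
          exact ⟨by omega, by omega⟩
      · simp only [LinearMap.mulLeft_apply]
        rw [← hAB]; ring
  have hUVr : Module.finrank ℂ (U ⊓ V : Submodule ℂ ℂ[X][Y]) ≤
      (b + e + t + 1) * (a + c + t + 1) := by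
    refine (Submodule.finrank_mono hUV).trans ?_
    rw [← finrank_P]
    exact Submodule.finrank_map_le _ _
  have hUle : ∀ Q ∈ U, Q ∈ P k k ∧ ev Z Q = 0 := by
    rintro Q ⟨A, hA, rfl⟩
    simp only [LinearMap.mulLeft_apply]
    refine ⟨mem_P.2 (bideg_mono (bideg_mul (k := a) (l := b) ⟨le_refl _, le_refl _⟩ hA)
      (by omega) (by omega)), ?_⟩
    ext p
    simp only [ev, LinearMap.coe_mk, AddHom.coe_mk, Pi.zero_apply, evalEval_mul,
      (hZ p.1 p.2).1, zero_mul]
  have hVle : ∀ Q ∈ V, Q ∈ P k k ∧ ev Z Q = 0 := by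
    rintro Q ⟨A, hA, rfl⟩
    simp only [LinearMap.mulLeft_apply]
    refine ⟨mem_P.2 (bideg_mono (bideg_mul (k := c) (l := e) ⟨le_refl _, le_refl _⟩ hA)
      (by omega) (by omega)), ?_⟩
    ext p
    simp only [ev, LinearMap.coe_mk, AddHom.coe_mk, Pi.zero_apply, evalEval_mul,
      (hZ p.1 p.2).2, zero_mul]
  have h6 := gen (P k k) (ev Z) (ev_surj Z k (by omega)) (U ⊔ V)
    (sup_le (fun Q hQ => (hUle Q hQ).1) (fun Q hQ => (hVle Q hQ).1)) (by
      have h9 : U ⊔ V ≤ LinearMap.ker (ev Z) :=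
        sup_le (fun Q hQ => (hUle Q hQ).2) (fun Q hQ => (hVle Q hQ).2)
      exact fun Q hQ => h9 hQ)
  rw [finrank_P, Module.finrank_pi, Fintype.card_coe] at h6
  have h7 := Submodule.finrank_sup_add_finrank_inf_eq U V
  rw [hU, hV] at h7
  rw [← ht] at h6 ⊢
  have h8 : (b + c + e + t + 1) * (a + c + e + t + 1) + (a + b + e + t + 1) * (a + b + c + t + 1)
      + t ≤ (b + e + t + 1) * (a + c + t + 1) + (k + 1) * (k + 1) := by omega
  rw [hk] at h8
  nlinarith

theorem BEZ_thm : t_BEZ := by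
  intro F G a b c e hF hFG h1 h2 Z hZ
  refine (count F G hF hFG Z hZ).trans ?_
  exact add_le_add (Nat.mul_le_mul h1.1 h2.2) (Nat.mul_le_mul h1.2 h2.1)

end Pool.Agent.CLU.BEZ

namespace Pool.Agent.CLU

theorem BEZ_thm : t_BEZ := BEZ.BEZ_thm

end Pool.Agent.CLU
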