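import Pool.Agent.CLU.St

/-!
# Clusters of integral point sets: the spaces Bi K
-/

set_option autoImplicit false

open Polynomial Polynomial.Bivariate ComplexConjugate

namespace Pool.Agent.CLU

namespace BIM

/-- the generators of `Bi K` -/
def gen (K : ℕ) : Set (ℂ → ℂ) := {f | ∃ s t : ℕ, s ≤ K ∧ t ≤ K ∧ f = fun z => z ^ s * (conj z) ^ t}

theorem mul_mem {K L : ℕ} {f g : ℂ → ℂ} (hf : f ∈ Bi K) (hg : g ∈ Bi L) : f * g ∈ Bi (K + L) := by
  have h1 : f * g ∈ Submodule.span ℂ (gen K) * Submodule.span ℂ (gen L) :=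
    Submodule.mul_mem_mul hf hg
  rw [Submodule.span_mul_span] at h1
  refine Submodule.span_mono ?_ h1
  rintro h ⟨_, ⟨s, t, hs, ht, rfl⟩, _, ⟨s', t', hs', ht', rfl⟩, rfl⟩
  refine ⟨s + s', t + t', by omega, by omega, ?_⟩
  funext z
  show z ^ s * (conj z) ^ t * (z ^ s' * (conj z) ^ t') = z ^ (s + s') * (conj z) ^ (t + t')
  rw [pow_add, pow_add]
  ring

theorem mono {K L : ℕ} (h : K ≤ L) : Bi K ≤ Bi L := by
  refine Submodule.span_mono ?_
  rintro f ⟨s, t, hs, ht, rfl⟩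
  exact ⟨s, t, hs.trans h, ht.trans h, rfl⟩

theorem finrank_le (K R : ℕ) (b : Fin R → ℂ) :
    Module.finrank ℂ ((Bi K).map (LinearMap.funLeft ℂ ℂ b)) ≤ (K + 1) ^ 2 := by
  let v : Fin (K + 1) × Fin (K + 1) → (Fin R → ℂ) :=
    fun st => LinearMap.funLeft ℂ ℂ b (fun z => z ^ (st.1 : ℕ) * (conj z) ^ (st.2 : ℕ))
  have h1 : (Bi K).map (LinearMap.funLeft ℂ ℂ b) = Submodule.span ℂ (Set.range v) := by
    unfold Bi
    rw [Submodule.map_span]
    congr 1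
    ext x
    constructor
    · rintro ⟨_, ⟨s, t, hs, ht, rfl⟩, rfl⟩
      exact ⟨(⟨s, by omega⟩, ⟨t, by omega⟩), rfl⟩
    · rintro ⟨⟨s, t⟩, rfl⟩
      exact ⟨_, ⟨s, t, by omega, by omega, rfl⟩, rfl⟩
  rw [h1]
  refine (finrank_range_le_card v).trans ?_
  simp [sq]

end BIM

theorem BIM_thm : t_BIM :=
  ⟨fun _ _ _ _ hf hg => BIM.mul_mem hf hg, fun _ _ h => BIM.mono h,
    fun K R b => BIM.finrank_le K R b⟩

end Pool.Agent.CLU
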