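import Pool.Agent.CLU.StP

/-!
# C3P: two circles with three common points of a good set are equal
-/

set_option autoImplicit false

open Pool.Agent.RCX

open scoped InnerProductSpace

namespace Pool.Agent.CLU

namespace C3P

theorem dist_sq (a b : Pl) : dist a b ^ 2 = (a 0 - b 0) ^ 2 + (a 1 - b 1) ^ 2 := by
  rw [dist_eq_norm, norm_sq]
  simp only [PiLp.sub_apply]

end C3P

theorem C3P_thm : t_C3P := by
  intro S hS c c' r r' x hx y hy z hz hxy hxz hyz h1 h2 h3 h4 h5 h6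
  have hcr := hS.cr_ne hx hy hz hxy hxz hyz
  simp only [cr, PiLp.sub_apply] at hcr
  have e1 := C3P.dist_sq c x
  have e2 := C3P.dist_sq c y
  have e3 := C3P.dist_sq c z
  have e4 := C3P.dist_sq c' x
  have e5 := C3P.dist_sq c' y
  have e6 := C3P.dist_sq c' z
  rw [h1] at e1
  rw [h2] at e2
  rw [h3] at e3
  rw [h4] at e4
  rw [h5] at e5
  rw [h6] at e6
  have f1 : (y 0 - x 0) * (c 0 - c' 0) + (y 1 - x 1) * (c 1 - c' 1) = 0 := by
    linear_combination (1 / 2) * (e2 - e1 - e5 + e4)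
  have f2 : (z 0 - x 0) * (c 0 - c' 0) + (z 1 - x 1) * (c 1 - c' 1) = 0 := by
    linear_combination (1 / 2) * (e3 - e1 - e6 + e4)
  have g0 : ((y 0 - x 0) * (z 1 - x 1) - (y 1 - x 1) * (z 0 - x 0)) * (c 0 - c' 0) = 0 := by
    linear_combination (z 1 - x 1) * f1 - (y 1 - x 1) * f2
  have g1 : ((y 0 - x 0) * (z 1 - x 1) - (y 1 - x 1) * (z 0 - x 0)) * (c 1 - c' 1) = 0 := by
    linear_combination (y 0 - x 0) * f2 - (z 0 - x 0) * f1
  have hcc : c = c' := by
    apply ext2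
    · exact sub_eq_zero.mp ((mul_eq_zero.mp g0).resolve_left hcr)
    · exact sub_eq_zero.mp ((mul_eq_zero.mp g1).resolve_left hcr)
  refine ⟨hcc, ?_⟩
  rw [← h1, ← h4, hcc]

end Pool.Agent.CLU
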