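import Pool.Agent.CLU.StP

/-!
# CLU: CIR
-/

set_option autoImplicit false

open Pool.Agent.RCX

open scoped InnerProductSpace

namespace Pool.Agent.CLU

theorem CIR_thm : t_CIR := by
  intro S c r hS
  refine ⟨fun _ => 0, fun i => ?_⟩
  rw [convexIndependent_iff_notMem_convexHull_sdiff]
  rintro ⟨x, hx, hxi⟩ s hmem
  have hsub : convexHull ℝ ((fun p : {x : Pl // x ∈ S ∧ (0 : Fin 1) = i} => (p : Pl)) ''
      (s \ {⟨x, hx, hxi⟩})) ⊆ {y : Pl | ⟪y - c, x - c⟫_ℝ < r ^ 2} := by
    refine convexHull_min ?_ ?_
    · rintro y ⟨⟨z, hz, hzi⟩, hzs, rfl⟩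
      have hne : z ≠ x := by
        rintro rfl
        exact hzs.2 rfl
      have h1 : ‖z - c‖ = r := by rw [← dist_eq_norm, dist_comm]; exact hS z hz
      have h2 : ‖x - c‖ = r := by rw [← dist_eq_norm, dist_comm]; exact hS x hx
      have h3 : 0 < ‖(z - c) - (x - c)‖ ^ 2 := by
        have : 0 < ‖(z - c) - (x - c)‖ := by
          rw [sub_sub_sub_cancel_right]
          exact norm_pos_iff.2 (sub_ne_zero.2 hne)
        positivity
      rw [norm_sub_sq_real, h1, h2] at h3
      simp only [Set.mem_ofPred_eq]
      linarith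
    · intro y hy z hz a b ha hb hab
      simp only [Set.mem_ofPred_eq] at hy hz ⊢
      have e : a • y + b • z - c = a • (y - c) + b • (z - c) := by
        have : c = a • c + b • c := by rw [← add_smul, hab, one_smul]
        conv_lhs => rw [this]
        rw [smul_sub, smul_sub]
        abel
      rw [e, inner_add_left, inner_smul_left, inner_smul_left, RCLike.conj_to_real,
        RCLike.conj_to_real]
      rcases eq_or_lt_of_le ha with h | h
      · subst h
        have hb1 : b = 1 := by linarith
        subst hb1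
        linarith
      · have h5 := mul_lt_mul_of_pos_left hy h
        have h6 := mul_le_mul_of_nonneg_left hz.le hb
        have h7 : a * r ^ 2 + b * r ^ 2 = r ^ 2 := by rw [← add_mul, hab, one_mul]
        linarith
  have h1 := hsub hmem
  simp only [Set.mem_ofPred_eq] at h1
  rw [real_inner_self_eq_norm_sq, ← dist_eq_norm, dist_comm, hS x hx] at h1
  exact lt_irrefl _ h1

end Pool.Agent.CLU
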