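import Pool.Agent.CLU.St

/-!
# Clusters of integral point sets (MP_a57197_co), module CLL: the cluster lemma
-/

set_option autoImplicit false

open Polynomial Polynomial.Bivariate ComplexConjugate

namespace Pool.Agent.CLU

namespace CLL

open Classical in
/-- a finite set covered by the zero sets of the elements of `L` is small if each part is -/
lemma card_le_of_cover (L : Finset (ℂ[X][Y])) (U : Finset ℂ) (k : ℕ)
    (hcov : ∀ b ∈ U, ∃ Q ∈ L, Q.evalEval b (conj b) = 0)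
    (hk : ∀ Q ∈ L, (U.filter (fun b => Q.evalEval b (conj b) = 0)).card ≤ k) :
    U.card ≤ L.card * k := by
  have hsub : U ⊆ L.biUnion (fun Q => U.filter (fun b => Q.evalEval b (conj b) = 0)) := by
    intro b hb
    obtain ⟨Q, hQ, h0⟩ := hcov b hb
    exact Finset.mem_biUnion.2 ⟨Q, hQ, Finset.mem_filter.2 ⟨hb, h0⟩⟩
  calc U.card ≤ (L.biUnion (fun Q => U.filter (fun b => Q.evalEval b (conj b) = 0))).card :=
        Finset.card_le_card hsub
    _ ≤ ∑ Q ∈ L, (U.filter (fun b => Q.evalEval b (conj b) = 0)).card := Finset.card_biUnion_le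
    _ ≤ ∑ _Q ∈ L, k := Finset.sum_le_sum hk
    _ = L.card * k := by simp

end CLL

open CLL in
theorem CLL_thm (h1 : t_REL) (h2 : t_GPO) (h3 : t_NS0) (h4 : t_FAC) (h5 : t_QLC)
    (h6 : t_CQE) : t_CLL := by
  classical
  intro m I ρ D hPar N F hN hF hint hmf
  have hm : 1 ≤ m := by
    rcases Nat.eq_zero_or_pos m with h | h
    · exfalso
      have := hPar.2.2.1
      rw [h] at this
      simp at this
    · exact h
  have HG : ∀ p : Fin m → ℂ, (∀ j, p j ∈ F) → HasG m N p := by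
    intro p hp
    obtain ⟨c, hc, hrel⟩ := h1 m I ρ D hPar p (fun j => hF _ (hp j)) N hN
      (fun b hb j => hint b hb _ (hp j))
    exact h2 m p (fun j => ‖p j‖) N c hc hrel
  have hmo : m ≤ mo m := by unfold mo; omega
  have hFc : 2 * mo m + 3 ≤ F.card := hmf
  -- an injective choice of points
  obtain ⟨e⟩ : Nonempty (Fin m ↪ F) := by
    apply Function.Embedding.nonempty_of_card_le
    rw [Fintype.card_fin, Fintype.card_coe]
    omega
  have hpinj : Function.Injective (fun j => (e j : ℂ)) :=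
    fun a b h => e.injective (Subtype.ext h)
  obtain ⟨G, hGd, hG0, hGψ⟩ := HG (fun j => (e j : ℂ)) (fun j => (e j).2)
  obtain ⟨K, _, _, ψ, hψ0, hψ⟩ := h3
  have hG : G ≠ 0 := by
    have h := hGψ K ψ (fun J hJ => by
      have hprod : ∏ j ∈ J, ψ (qp (e j : ℂ)) = ∏ z ∈ J.image (fun j => (e j : ℂ)), ψ (qp z) := by
        rw [Finset.prod_image (fun a _ b _ h => hpinj h)]
      rw [hprod]
      exact hψ _ (hJ.image _))
    intro h0
    exact h (by rw [h0, map_zero])
  obtain ⟨L, hLc, hL, hLz⟩ := h4 (gg m) (gg m) G hG hGd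
  have hcovN : ∀ b ∈ N, ∃ Q ∈ L, Q.evalEval b (conj b) = 0 := fun b hb => hLz _ _ (hG0 b hb)
  have hQ : ∀ Q ∈ L,
      (∀ U ⊆ N, (∀ b ∈ U, Q.evalEval b (conj b) = 0) → U.card ≤ 2 * gg m ^ 2) ∨
      ∃ Γ, Circ Γ ∧ (∀ z, Q.evalEval z (conj z) = 0 → z ∈ Γ) ∧
        ∀ U ⊆ F, (∀ p ∈ U, p ∉ Γ) → U.card ≤ mo m := fun Q hQ =>
    h5 m Q N F hm (hL Q hQ).1 (hL Q hQ).2 (by omega) (fun p _ hp => HG p hp)
  have hnb : L.card * (2 * gg m ^ 2) ≤ nb m := by
    calc L.card * (2 * gg m ^ 2) ≤ (gg m + gg m) * (2 * gg m ^ 2) := Nat.mul_le_mul_right _ hLc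
      _ = nb m := by unfold nb; ring
  by_cases hall : ∀ Q ∈ L, ∀ U ⊆ N, (∀ b ∈ U, Q.evalEval b (conj b) = 0) →
      U.card ≤ 2 * gg m ^ 2
  · left
    refine le_trans (card_le_of_cover L N _ hcovN ?_) hnb
    intro Q hQL
    exact hall Q hQL _ (Finset.filter_subset _ _) (fun b hb => (Finset.mem_filter.1 hb).2)
  · right
    push Not at hall
    obtain ⟨Q₀, hQ₀, U₀, hU₀, hU₀z, hU₀c⟩ := hall
    obtain ⟨Γ, hΓ, -, hΓF⟩ : ∃ Γ, Circ Γ ∧ (∀ z, Q₀.evalEval z (conj z) = 0 → z ∈ Γ) ∧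
        ∀ U ⊆ F, (∀ p ∈ U, p ∉ Γ) → U.card ≤ mo m := by
      rcases hQ Q₀ hQ₀ with h | h
      · exact absurd (h U₀ hU₀ hU₀z) (by omega)
      · exact h
    refine ⟨Γ, hΓ, ?_, hΓF⟩
    intro U hUN hUΓ
    refine le_trans (card_le_of_cover L U _ (fun b hb => hcovN b (hUN hb)) ?_) hnb
    intro Q hQL
    rcases hQ Q hQL with h | ⟨Γ', hΓ', hz', hΓ'F⟩
    · exact h _ ((Finset.filter_subset _ _).trans hUN) (fun b hb => (Finset.mem_filter.1 hb).2)
    · have hEq : Γ = Γ' := by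
        have hA := hΓF (F.filter (fun p => p ∉ Γ)) (Finset.filter_subset _ _)
          (fun p hp => (Finset.mem_filter.1 hp).2)
        have hB := hΓ'F (F.filter (fun p => p ∉ Γ')) (Finset.filter_subset _ _)
          (fun p hp => (Finset.mem_filter.1 hp).2)
        have hcov : F ⊆ F.filter (fun p => p ∈ Γ ∧ p ∈ Γ') ∪
            (F.filter (fun p => p ∉ Γ) ∪ F.filter (fun p => p ∉ Γ')) := by
          intro p hp
          simp only [Finset.mem_union, Finset.mem_filter]
          tauto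
        have hc := Finset.card_le_card hcov
        have hc1 := Finset.card_union_le (F.filter (fun p => p ∈ Γ ∧ p ∈ Γ'))
          (F.filter (fun p => p ∉ Γ) ∪ F.filter (fun p => p ∉ Γ'))
        have hc2 := Finset.card_union_le (F.filter (fun p => p ∉ Γ)) (F.filter (fun p => p ∉ Γ'))
        have h3 : 2 < (F.filter (fun p => p ∈ Γ ∧ p ∈ Γ')).card := by omega
        obtain ⟨x, y, z, hx, hy, hz, hxy, hxz, hyz⟩ := Finset.two_lt_card_iff.1 h3
        have hx' := (Finset.mem_filter.1 hx).2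
        have hy' := (Finset.mem_filter.1 hy).2
        have hz'' := (Finset.mem_filter.1 hz).2
        exact h6 Γ Γ' hΓ hΓ' x hx'.1 y hy'.1 z hz''.1 hx'.2 hy'.2 hz''.2 hxy hxz hyz
      have hemp : U.filter (fun b => Q.evalEval b (conj b) = 0) = ∅ := by
        apply Finset.filter_eq_empty_iff.2
        intro b hb h0
        exact hUΓ b hb (hEq ▸ hz' b h0)
      rw [hemp, Finset.card_empty]
      exact Nat.zero_le _

end Pool.Agent.CLU
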