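import Pool.Agent.CLU.Defs

/-!
# Clusters of integral point sets (MP_a57197_co): the determinant method, statements with proofs

CLUSTER LEMMA (CLL).  N, F finite sets in the complex plane, |b| <= ρ for b in N, |p| >= D for p
in F, all |b-p| - |p| integers, (m, I, ρ, D) admissible (`Par`), |F| >= mf m.  Then |N| <= nb m, or
there is a circle or line that contains all but nb m points of N and all but mo m points of F.

Plan.  For m points p_j of F the 2^m products of the integers h_j(b) = |b-p_j| - |p_j| are close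
to polynomials of bidegree <= m I in b, conj b (APX), a space of dimension (mI+1)^2 <= 2^m/2, so
all minors of size 2^m vanish (DET, MIN): REL.  The norm of this relation is a polynomial equation
G (GPO), which is not divisible by an irreducible Q if the products of (X-p_j)(Y-conj p_j) are not
squares in the function field of Q (TOW, NRM).  Such p_j are found by looking at simple points
(p_j, w_j) of Q (GPT, SEL, NSQ), unless Q is a circle or line through almost all points of F
(QLA, QLB, QLC).  So the points of N on Q are at most 2 g² by Bezout (BEZ).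
-/

set_option autoImplicit false

open Polynomial Polynomial.Bivariate ComplexConjugate

namespace Pool.Agent.CLU

/-- SQR (60 lines).  Taylor polynomials of the square root.
Proof.  `Real.one_add_rpow_hasFPowerSeriesOnBall_zero` for a = 1/2, c i = Ring.choose (1/2) i; all
|c i| <= 1, so the rest is at most the sum of |x|^i over i > I, at most (4/3)|x|^(I+1)
<= (2|x|)^(I+1).  (Any c will do.) -/
def t_SQR : Prop := ∀ I : ℕ, ∃ c : ℕ → ℝ, ∀ x : ℝ, |x| ≤ 1 / 4 →
  |√(1 + x) - 1 - ∑ i ∈ Finset.Icc 1 I, c i * x ^ i| ≤ (2 * |x|) ^ (I + 1)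

/-- BIM (80 lines).  The spaces Bi K.
Proof.  `Submodule.span_induction` twice for the product.  The last space is spanned by the
(K+1)^2 restrictions of the monomials: `finrank_span_le_card` or `finrank_range_le_card`. -/
def t_BIM : Prop :=
  (∀ (K L : ℕ) (f g : ℂ → ℂ), f ∈ Bi K → g ∈ Bi L → f * g ∈ Bi (K + L)) ∧
  (∀ K L : ℕ, K ≤ L → Bi K ≤ Bi L) ∧
  (∀ (K R : ℕ) (b : Fin R → ℂ),
    Module.finrank ℂ ((Bi K).map (LinearMap.funLeft ℂ ℂ b)) ≤ (K + 1) ^ 2)

/-- APX (80 lines; from SQR, BIM).  |b - p| - |p| is close to a polynomial in b, conj b.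
Proof.  x(b) = (b conj b - b conj p - conj b p)/|p|² is in Bi 1, is real, and
|b-p|² = |p|² (1 + x), so |b - p| - |p| = |p| (√(1+x) - 1).  |x| <= (ρ² + 2ρ|p|)/|p|² <= 3ρ/|p|
<= 1/4.  Take G = |p| sum_(i=1)^I c_i x^i in Bi I; the error is at most |p| (6ρ/|p|)^(I+1) =
6ρ (6ρ/|p|)^I <= 6ρ (6ρ/D)^I. -/
def t_APX : Prop := ∀ (I : ℕ) (ρ D : ℝ) (p : ℂ), 0 < ρ → 12 * ρ ≤ D → D ≤ ‖p‖ →
  ∃ G ∈ Bi I, ∀ b : ℂ, ‖b‖ ≤ ρ →
    ‖((‖b - p‖ - ‖p‖ : ℝ) : ℂ) - G b‖ ≤ 6 * ρ * (6 * ρ / D) ^ I

/-- DET (120 lines).  A determinant whose rows are close to a small subspace is small.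
Proof.  det is multilinear in the rows: `MultilinearMap.map_add_univ` gives det (A+B) as the sum
over T of det (rows A outside T, rows B in T).  If the complement of T has more than dim V
elements, its rows are linearly dependent and the determinant is 0.  Otherwise 2|T| >= R, and
the determinant is at most R! s^R η^|T| (sum over permutations).  There are 2^R sets T; so
‖det‖ <= R! (2s)^R η^t with 2t >= R (t the least |T|); square it, η <= 1. -/
def t_DET : Prop := ∀ (R : ℕ) (V : Submodule ℂ (Fin R → ℂ)) (A B : Fin R → Fin R → ℂ) (s η : ℝ),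
  2 * Module.finrank ℂ V ≤ R → (∀ a, A a ∈ V) → (∀ a c, ‖A a c‖ ≤ s) →
  (∀ a c, ‖B a c‖ ≤ s * η) → 0 ≤ η → η ≤ 1 →
  ‖Matrix.det (Matrix.of fun a c => A a c + B a c)‖ ^ 2 ≤
    ((R.factorial : ℝ) * (2 * s) ^ R) ^ 2 * η ^ R

/-- MIN (60 lines).  Linearly independent functions on a finite set have a nonzero minor.
Proof.  The vectors (φ_1(b), .., φ_R(b)), b in N, span C^R (a linear functional c vanishing on all
of them is 0), so R of them form a basis (`exists_linearIndependent`, or
`Submodule.exists_fun_fin_finrank_span_eq`), and its determinant is not 0. -/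
def t_MIN : Prop := ∀ (N : Finset ℂ) (R : ℕ) (φ : Fin R → ℂ → ℂ),
  (∀ c : Fin R → ℂ, (∀ b ∈ N, ∑ a, c a * φ a b = 0) → c = 0) →
  ∃ b : Fin R → ℂ, (∀ i, b i ∈ N) ∧ Matrix.det (Matrix.of fun a i => φ a (b i)) ≠ 0

/-- REL (140 lines; from APX, DET, MIN, BIM).  The products of the h_j are linearly dependent on
the near points.
Proof.  Suppose not.  Number the subsets J of Fin m by Fin R, R = 2^m.  MIN gives points
b_1, .., b_R in N with det (h_J (b_i)) not 0, h_J = prod_(j in J) h_j, and this is the image of an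
integer, so it has norm >= 1.  By APX h_j = g_j + r_j with g_j in Bi I, |h_j| <= |b| <= ρ,
|r_j| <= 6ρ τ^I, τ = 6ρ/D <= 1/2, |g_j| <= 7ρ =: M >= 1.  Let A_J = prod g_j in Bi (mI) and
B_J = h_J - A_J: |A_J| <= M^m =: s, |B_J| <= |J| M^(|J|-1) 6ρ τ^I <= s m τ^I (telescoping).  Take
V = (Bi (mI)).map (funLeft b), of dimension <= (mI+1)^2 <= R/2, η = m τ^I (<= 1 by the last
condition of Par).  DET: 1 <= (R! (2s)^R)² η^R <= ((2Rs)² η)^R, but (2Rs)² η =
4 4^m (7ρ)^(2m) m τ^I = 4 m (14ρ)^(2m) τ^I < 1.  Contradiction. -/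
def t_REL : Prop := ∀ (m I : ℕ) (ρ D : ℝ), Par m I ρ D → ∀ p : Fin m → ℂ, (∀ j, D ≤ ‖p j‖) →
  ∀ N : Finset ℂ, (∀ b ∈ N, ‖b‖ ≤ ρ) →
  (∀ b ∈ N, ∀ j, ∃ n : ℤ, ‖b - p j‖ - ‖p j‖ = n) →
  ∃ c : Finset (Fin m) → ℂ, c ≠ 0 ∧
    ∀ b ∈ N, ∑ J, c J * ∏ j ∈ J, ((‖b - p j‖ - ‖p j‖ : ℝ) : ℂ) = 0

/-- TOW (150 lines).  Square roots of independent elements.
Proof.  Induction on m, all fields K.  m = 0: E = K.  m+1: q_0 is not a square (J = {0}); let
K' = K(s), s² = q_0 (`AdjoinRoot (X^2 - C q_0)`, a field, basis 1, s).  For nonempty J not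
containing 0, q_J is not a square in K': if q_J = (u + v s)² = u² + v² q_0 + 2uv s then uv = 0, so
q_J = u² or q_J q_0 = (v q_0)², i.e. q_J or q_(J + 0) is a square in K, excluded.  By induction
there are E over K' and t_1, .., t_m, with linearly independent products over K'; put t_0 = s;
the products t_J and s t_J are linearly independent over K (`LinearIndependent` for towers,
`linearIndependent_smul`, or directly). -/
def t_TOW : Prop := ∀ (m : ℕ) (K : Type) [Field K] [CharZero K] (q : Fin m → K),
  (∀ J : Finset (Fin m), J.Nonempty → ¬ IsSquare (∏ j ∈ J, q j)) →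
  ∃ (E : Type) (_ : Field E) (_ : Algebra K E) (t : Fin m → E),
    (∀ j, t j ^ 2 = algebraMap K E (q j)) ∧
    LinearIndependent K (fun J : Finset (Fin m) => ∏ j ∈ J, t j)

/-- EVN (100 lines).  A polynomial that is even in t_1, .., t_m is a polynomial in the t_j².
Proof.  Comparing the coefficients at d: (-1)^(d (inr j)) coeff d = coeff d, so d (inr j) is even
if coeff d is not 0.  Let U be the sum over d in the support of P of the monomial with coefficient
coeff d P and exponent d (inl s) at inl s, d (inr j)/2 at inr j. -/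
def t_EVN : Prop := ∀ (σ : Type) (m : ℕ) (P : MvPolynomial (σ ⊕ Fin m) ℤ),
  (∀ j : Fin m, MvPolynomial.aeval (Sum.elim (fun s => MvPolynomial.X (Sum.inl s))
    (fun i => if i = j then - MvPolynomial.X (Sum.inr i) else MvPolynomial.X (Sum.inr i))) P
      = P) →
  ∃ U : MvPolynomial (σ ⊕ Fin m) ℤ,
    P = MvPolynomial.aeval (Sum.elim (fun s => MvPolynomial.X (Sum.inl s))
      (fun i => MvPolynomial.X (Sum.inr i) ^ 2)) U ∧
    ∀ d ∈ U.support, ∃ e ∈ P.support, ∀ j : Fin m, e (Sum.inr j) = 2 * d (Sum.inr j)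

/-- NRM (140 lines; from TOW, EVN).  The norm of a combination of products of square roots.
Proof.  P = product over all sign vectors ε of sum_J c_J prod_(j in J) ε_j t_j, a polynomial in
the variables c_J (inl J) and t_j (inr j).  Changing the sign of t_j permutes the factors, so EVN
gives U with P(c,t) = U(c,t²).  Each factor has degree <= m in the t_j, so P has degree
<= m 2^m in them.  First property: the factor ε = 1 vanishes.  Second: in E (TOW) U(c,q) =
P(c,t), and no factor vanishes, since the t_J are linearly independent and the coefficients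
c_J ε_J are not all 0. -/
def t_NRM : Prop := ∀ m : ℕ, ∃ U : MvPolynomial (Finset (Fin m) ⊕ Fin m) ℤ,
  (∀ d ∈ U.support, ∑ j, d (Sum.inr j) ≤ gg m) ∧
  (∀ (B : Type) [CommRing B] (c : Finset (Fin m) → B) (t : Fin m → B),
    ∑ J, c J * ∏ j ∈ J, t j = 0 →
      MvPolynomial.aeval (Sum.elim c (fun j => t j ^ 2)) U = 0) ∧
  (∀ (K : Type) [Field K] [CharZero K] (q : Fin m → K),
    (∀ J : Finset (Fin m), J.Nonempty → ¬ IsSquare (∏ j ∈ J, q j)) →
    ∀ c : Finset (Fin m) → K, c ≠ 0 → MvPolynomial.aeval (Sum.elim c q) U ≠ 0)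

/-- GPO (140 lines; from NRM).  The equation of the near points.
Proof.  Expand the product: with t_j = |b - p_j| the relation reads sum_L c'_L prod_(j in L) t_j
= 0, c'_L = sum over J containing L of c_J prod_(j in J minus L) (-α_j) (`Finset.prod_sub` or
`Finset.prod_add`).  c' is not 0: take J of greatest size with c_J not 0, then c'_J = c_J.
G = aeval (Sum.elim (fun L => C (C (c'_L))) (fun j => qp (p j))) U.  qp (p j) has bidegree (1, 1),
so each monomial of U gives bidegree at most (gg m, gg m).  G at (b, conj b) is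
aeval (c', t²) U = 0, since qp p at (b, conj b) is |b-p|² = t².  A ring homomorphism ψ maps G to
aeval (ψ(c'), ψ(qp (p j))) U, not 0, as ψ(c'_L) is not 0 for some L (nonzero constants are units). -/
def t_GPO : Prop := ∀ (m : ℕ) (p : Fin m → ℂ) (α : Fin m → ℝ) (N : Finset ℂ)
  (c : Finset (Fin m) → ℂ), c ≠ 0 →
  (∀ b ∈ N, ∑ J, c J * ∏ j ∈ J, ((‖b - p j‖ - α j : ℝ) : ℂ) = 0) → HasG m N p

/-- BEZ (160 lines).  Bezout, in bidegrees.
Proof.  F is prime and does not divide G.  For large k consider the vector space P(k, l) of the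
polynomials with BiDeg k l (dimension (k+1)(l+1)) and the linear map
(A, B) in P(k-a, k-b) x P(k-c, k-e) -> A F + B G in P(k, k).  If A F + B G = 0, then F divides B,
B = F T, A = - G T, and T is in P(k-a-c, k-b-e) (degrees add, a, b may be taken to be the exact
bidegree of F; the same for G, which is not 0).  So the image has dimension at least
(k-a+1)(k-b+1) + (k-c+1)(k-e+1) - (k-a-c+1)(k-b-e+1) = (k+1)² - ae - bc.  All of the image
vanishes on Z, and P(k, k) maps onto the functions on Z for k >= |Z| (interpolation: products of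
linear factors in X or Y separating the points), so |Z| <= ae + bc.
(If it is more convenient: resultants, see Mathlib/RingTheory/Polynomial/Resultant; any proof.) -/
def t_BEZ : Prop := ∀ (F G : ℂ[X][Y]) (a b c e : ℕ), Irreducible F → ¬ F ∣ G →
  BiDeg a b F → BiDeg c e G → ∀ Z : Finset (ℂ × ℂ),
  (∀ p ∈ Z, F.evalEval p.1 p.2 = 0 ∧ G.evalEval p.1 p.2 = 0) → Z.card ≤ a * e + b * c

/-- GPT (120 lines; from BEZ).  Simple points over almost all z.
Proof.  Q does not divide its derivative (in Y), which is not 0 and has smaller degree.  By BEZ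
the set of all common zeros of Q and Q' has at most 2g² elements (every finite subset has), and the
leading coefficient of Q (a nonzero polynomial in X of degree <= g) has at most g roots.  Let X0
consist of the first coordinates of the common zeros and of these roots.  For z not in X0 the
polynomial Q(z, Y) has degree natDegree Q and only simple roots; W is the set of its roots. -/
def t_GPT : Prop := ∀ (g : ℕ) (Q : ℂ[X][Y]), Irreducible Q → BiDeg g g Q → 0 < Q.natDegree →
  ∃ X0 : Finset ℂ, X0.card ≤ 2 * g ^ 2 + g ∧ ∀ z, z ∉ X0 →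
    ∃ W : Finset ℂ, W.card = Q.natDegree ∧
      ∀ w ∈ W, Q.evalEval z w = 0 ∧ (derivative Q).evalEval z w ≠ 0

/-- SEL (60 lines).  A map without fixed points has a large independent set.
Proof.  Induction on |s|: the graph on s with the edges {a, f a} (a, f a in s) has at most |s|
edges, so some a in s has at most two neighbours; remove a and its neighbours, take t for the rest
and add a. -/
def t_SEL : Prop := ∀ (s : Finset ℂ) (f : ℂ → ℂ), (∀ a ∈ s, f a ≠ a) →
  ∃ t ⊆ s, s.card ≤ 3 * t.card ∧ ∀ a ∈ t, f a ∉ t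

/-- HEN (100 lines).  A simple root is the constant term of a power series solution.
Proof.  Let q(Y) in C[[T]][Y] be Q(z + T, Y).  Newton/Hensel: construct polynomials f_n in T with
f_0 = w, f_(n+1) = f_n + c T^(n+1) and q(f_n) divisible by T^(n+1) (q(f_n + c T^(n+1)) = q(f_n) +
c T^(n+1) q'(f_n) modulo T^(n+2), and q'(f_n) has the constant term Q_Y(z, w), not 0), and let f be
the power series with the coefficients of the f_n.  (Or Hensel's lemma for the complete local ring
C[[T]], if Mathlib has it in a usable form.) -/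
def t_HEN : Prop := ∀ (Q : ℂ[X][Y]) (z w : ℂ), Q.evalEval z w = 0 →
  (derivative Q).evalEval z w ≠ 0 →
  ∃ f : PowerSeries ℂ, PowerSeries.constantCoeff f = w ∧
    Polynomial.eval₂ (Polynomial.eval₂RingHom (PowerSeries.C (R := ℂ))
      (PowerSeries.C (R := ℂ) z + PowerSeries.X)) f Q = 0

/-- NSQ (160 lines; from HEN).  Products of the (X-p)(Y-conj p) are not squares in the function
field of Q.
Proof.  K = FractionRing (C[X][Y] / (Q)), ψ the natural map (the quotient is a domain, as Q is
prime).  K has characteristic 0 (it contains C).  Let z be in J.  HEN gives f; the ring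
homomorphism φ: C[X][Y] -> C[[T]], X -> z + T, Y -> f kills Q.  If φ(G) = 0 then Q divides G: else
Q and G are coprime in C(X)[Y] (Gauss's lemma, Q of positive degree in Y is irreducible there), so
A Q + B G = r(X) with r not 0, and φ(r) = r(z + T) is not 0.  So φ induces an injection of
C[X][Y]/(Q) into C[[T]], and of K into the field C((T)) (or: use only the order of power series).
If prod_(p in J) ψ(qp p) is a square in K, then multiplying by a square of the denominator, the
order of φ(prod qp p) is even.  But the order of φ(qp p) = (z - p + T)(f - conj p) is 0 for p /= z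
(constant terms z - p and w z - conj p are not 0) and 1 for p = z.  Contradiction. -/
def t_NSQ : Prop := ∀ (Q : ℂ[X][Y]) (F' : Finset ℂ) (w : ℂ → ℂ), Irreducible Q →
  0 < Q.natDegree →
  (∀ z ∈ F', Q.evalEval z (w z) = 0 ∧ (derivative Q).evalEval z (w z) ≠ 0 ∧
    ∀ p ∈ F', w z ≠ conj p) →
  ∃ (K : Type) (_ : Field K) (_ : CharZero K) (ψ : ℂ[X][Y] →+* K), (∀ G, ψ G = 0 ↔ Q ∣ G) ∧
    ∀ J ⊆ F', J.Nonempty → ¬ IsSquare (∏ p ∈ J, ψ (qp p))

/-- NS0 (80 lines).  The same in the field C(X, Y).
Proof.  K = FractionRing C[X][Y].  Let p in J.  The element π = C (X - C p) is prime, and its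
multiplicity in prod_(r in J) qp r is 1 (the other factors are C (X - C r), r /= p, and
Y - C (C (conj r)), none divisible by π).  If the product is (u/v)², then π has an odd multiplicity
in v² prod, an even one in u². -/
def t_NS0 : Prop := ∃ (K : Type) (_ : Field K) (_ : CharZero K) (ψ : ℂ[X][Y] →+* K),
  (∀ G, ψ G = 0 → G = 0) ∧
    ∀ J : Finset ℂ, J.Nonempty → ¬ IsSquare (∏ p ∈ J, ψ (qp p))

/-- FAC (120 lines).  Factorisation with degrees.
Proof.  Unique factorisation (`WfDvdMonoid.induction_on_irreducible` or `factors`): the degree in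
Y and the degree in X (natDegree of swap) are additive, and an irreducible element has positive
degree in X or in Y (a nonzero constant is a unit).  A unit has no zeros. -/
def t_FAC : Prop := ∀ (a b : ℕ) (G : ℂ[X][Y]), G ≠ 0 → BiDeg a b G →
  ∃ L : Finset (ℂ[X][Y]), L.card ≤ a + b ∧ (∀ Q ∈ L, Irreducible Q ∧ BiDeg a b Q) ∧
    ∀ z w : ℂ, G.evalEval z w = 0 → ∃ Q ∈ L, Q.evalEval z w = 0

/-- QLA (130 lines; from GPT, SEL, NSQ, BEZ).  Few near points on Q if there are enough good far
points.
Proof.  GPT with g = gg m gives X0; A' = A minus X0 has at least 3m elements.  For z in A' choose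
w z in W with w z /= conj z: if Q(z, conj z) /= 0 any element of W (nonempty), otherwise
|W| = natDegree Q >= 2.  Let f z = conj (w z), so f z /= z.  SEL gives t in A' with at least m
elements and f z not in t for z in t.  Choose p: Fin m -> t injective, F' = image of p.  For z, r in
F': w z /= conj r, because f z is not in t.  NSQ gives K, ψ; HasG gives G with ψ G /= 0
(the products over J are products over the image of J), so Q does not divide G.  BEZ with
Z = {(b, conj b) : b in U} gives |U| <= g g + g g. -/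
def t_QLA : Prop := ∀ (m : ℕ) (Q : ℂ[X][Y]) (N A : Finset ℂ), 1 ≤ m → Irreducible Q →
  BiDeg (gg m) (gg m) Q → 0 < Q.natDegree → mo m ≤ A.card →
  (∀ z ∈ A, Q.evalEval z (conj z) ≠ 0 ∨ 2 ≤ Q.natDegree) →
  (∀ p : Fin m → ℂ, Function.Injective p → (∀ j, p j ∈ A) → HasG m N p) →
  ∀ U ⊆ N, (∀ b ∈ U, Q.evalEval b (conj b) = 0) → U.card ≤ 2 * gg m ^ 2

/-- QLB (90 lines).  Equations of bidegree (1, 1) are circles or lines.
Proof.  Q = a + b X + c Y + d X Y.  If d /= 0: |z|² + (b/d) z + (c/d) conj z + a/d = 0; the real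
part is an equation of Γ with A = 1, B = ((b/d) + conj (c/d))/2, C = Re (a/d).  If d = 0 then b
and c are not 0; take the real part of λ (b z + c conj z + a), λ = 1 or λ = i, chosen such that
λ b + conj (λ c) is not 0 (if b + conj c = 0 then i b + conj (i c) = i (b - conj c) = 2 i b). -/
def t_QLB : Prop := ∀ Q : ℂ[X][Y], Q.natDegree = 1 → (Bivariate.swap Q).natDegree = 1 →
  ∃ Γ, Circ Γ ∧ ∀ z, Q.evalEval z (conj z) = 0 → z ∈ Γ

/-- QLC (160 lines; from QLA, QLB).  Few near points on Q, or Q is a circle or line.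
Proof.  Let F_off be the points z of F with Q(z, conj z) /= 0.
(1) Degree of Q in Y is 0: Q = C q, q irreducible, so of degree one; then at most one b in U:
1 <= 2 g².  In the same way if the degree in X is 0 (use swap; or: Q has constant coefficients).
(2) Degree in Y positive and |F_off| >= mo m: QLA with A = F_off.
(3) Degree in Y at least 2, |F_off| < mo m: QLA with A = F minus F_off, which has >= mo m points.
(4) Degree in Y is 1, degree in X at least 2, |F_off| < mo m: apply QLA to swap Q, conj N, conj A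
(A = F minus F_off): swap Q at (conj z, z) is Q at (z, conj z); swap Q is irreducible; for
conj p_j the set conj N has the equation swap G: for ψ with the nonsquare condition for the
qp (conj p_j) take ψ o swap, since swap (qp p) = qp (conj p).
(5) Both degrees are 1, |F_off| < mo m: QLB gives Γ; the points of F outside Γ are in F_off. -/
def t_QLC : Prop := ∀ (m : ℕ) (Q : ℂ[X][Y]) (N F : Finset ℂ), 1 ≤ m → Irreducible Q →
  BiDeg (gg m) (gg m) Q → 2 * mo m ≤ F.card →
  (∀ p : Fin m → ℂ, Function.Injective p → (∀ j, p j ∈ F) → HasG m N p) →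
  (∀ U ⊆ N, (∀ b ∈ U, Q.evalEval b (conj b) = 0) → U.card ≤ 2 * gg m ^ 2) ∨
  ∃ Γ, Circ Γ ∧ (∀ z, Q.evalEval z (conj z) = 0 → z ∈ Γ) ∧
    ∀ U ⊆ F, (∀ p ∈ U, p ∉ Γ) → U.card ≤ mo m

/-- CQE (80 lines).  Two circles or lines with three common points are equal.
Proof.  The equations (A, B, C), (A', B', C') both vanish at the three points.  The three linear
functionals (A, B, C) -> A|z|² + 2 Re(B z) + C on R^4 are independent for distinct z1, z2, z3 (if a
combination λ_i of (|z|², Re z, Im z, 1) vanishes, then the points are collinear with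
z3 = (1-s) z1 + s z2, λ = λ3 (-(1-s), -s, 1), and |z3|² - (1-s)|z1|² - s|z2|² = -s(1-s)|z1-z2|² /= 0),
so the two equations are proportional. -/
def t_CQE : Prop := ∀ (Γ Γ' : Set ℂ), Circ Γ → Circ Γ' → ∀ x ∈ Γ, ∀ y ∈ Γ, ∀ z ∈ Γ,
  x ∈ Γ' → y ∈ Γ' → z ∈ Γ' → x ≠ y → x ≠ z → y ≠ z → Γ = Γ'

/-- CLL (150 lines; from REL, GPO, NS0, FAC, QLC, CQE).  The cluster lemma.
Proof.  m >= 1 by Par.  REL and GPO (α_j = |p_j|) give HasG m N p for every p with values in F.
Take one injective p (|F| >= m): G vanishes on N, and G /= 0 by NS0 (p injective: the products over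
J are products over the image).  FAC: L with |L| <= 2g, g = gg m.  QLC for each Q in L.  If the
first alternative holds for all Q in L, then |N| <= 2g 2g² = nb m.  Otherwise let Γ be the set of
one Q0 in L with the second alternative.  Any other Q in L of the second kind has the same Γ:
|F| >= 2 mo m + 3 and CQE.  So a b in N outside Γ is a zero of some Q of the first kind. -/
def t_CLL : Prop := ∀ (m I : ℕ) (ρ D : ℝ), Par m I ρ D → ∀ N F : Finset ℂ,
  (∀ b ∈ N, ‖b‖ ≤ ρ) → (∀ p ∈ F, D ≤ ‖p‖) →
  (∀ b ∈ N, ∀ p ∈ F, ∃ n : ℤ, ‖b - p‖ - ‖p‖ = n) → mf m ≤ F.card →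
  N.card ≤ nb m ∨ ∃ Γ, Circ Γ ∧ (∀ U ⊆ N, (∀ b ∈ U, b ∉ Γ) → U.card ≤ nb m) ∧
    ∀ U ⊆ F, (∀ p ∈ U, p ∉ Γ) → U.card ≤ mo m

end Pool.Agent.CLU
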