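import Pool.Agent.CLU.StP
import Pool.Agent.CLU.St

/-!
# CLU, module CLP: the cluster lemma for good sets
-/

set_option autoImplicit false

open Pool.Agent.RCX

open scoped InnerProductSpace

namespace Pool.Agent.CLU.CLP

/-- the plane as the complex numbers -/
noncomputable def E : Pl ≃ₗᵢ[ℝ] ℂ := Complex.orthonormalBasisOneI.repr.symm

/-- the isometry with `a` mapped to `0` -/
noncomputable def ee (a x : Pl) : ℂ := E (x - a)

theorem ee_sub (a x y : Pl) : ee a x - ee a y = E (x - y) := by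
  unfold ee
  rw [← map_sub, sub_sub_sub_cancel_right]

theorem norm_ee_sub (a x y : Pl) : ‖ee a x - ee a y‖ = dist x y := by
  rw [ee_sub, LinearIsometryEquiv.norm_map, dist_eq_norm]

theorem norm_ee (a x : Pl) : ‖ee a x‖ = dist a x := by
  unfold ee
  rw [LinearIsometryEquiv.norm_map, dist_comm, dist_eq_norm]

theorem ee_injective (a : Pl) : Function.Injective (ee a) := by
  intro x y h
  have h1 := norm_ee_sub a x y
  rw [h, sub_self, norm_zero] at h1
  exact dist_eq_zero.1 h1.symm

/-- vectors on a line through the origin -/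
theorem line_vec {B z : ℂ} (hB : B ≠ 0) (h : (B * z).re = 0) :
    ∃ t : ℝ, z = (t : ℂ) * (Complex.I * (starRingEnd ℂ) B) := by
  have h1 : Complex.normSq B ≠ 0 := fun h0 => hB (Complex.normSq_eq_zero.1 h0)
  have h3 : B.re * B.re + B.im * B.im ≠ 0 := by rwa [Complex.normSq_apply] at h1
  rw [Complex.mul_re] at h
  have h2 : B.re * z.re = B.im * z.im := by linarith
  refine ⟨(B.re * z.im + B.im * z.re) / (B.re * B.re + B.im * B.im), ?_⟩
  apply Complex.ext
  · have h4 : z.re = (B.re * z.im + B.im * z.re) / (B.re * B.re + B.im * B.im) * B.im := by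
      rw [div_mul_eq_mul_div, eq_div_iff h3]
      linear_combination B.re * h2
    simp only [Complex.mul_re, Complex.ofReal_re, Complex.I_re, Complex.conj_re, Complex.I_im,
      Complex.conj_im, Complex.ofReal_im, Complex.mul_im]
    linear_combination h4
  · have h4 : z.im = (B.re * z.im + B.im * z.re) / (B.re * B.re + B.im * B.im) * B.re := by
      rw [div_mul_eq_mul_div, eq_div_iff h3]
      linear_combination (-B.im) * h2
    simp only [Complex.mul_re, Complex.ofReal_re, Complex.I_re, Complex.conj_re, Complex.I_im,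
      Complex.conj_im, Complex.ofReal_im, Complex.mul_im]
    linear_combination h4

/-- three points on a line -/
theorem collinear_of_line {a x y z : Pl} {B : ℂ} {C : ℝ} (hB : B ≠ 0)
    (hx : 2 * (B * ee a x).re + C = 0) (hy : 2 * (B * ee a y).re + C = 0)
    (hz : 2 * (B * ee a z).re + C = 0) : Collinear ℝ ({x, y, z} : Set Pl) := by
  have key : ∀ y : Pl, 2 * (B * ee a y).re + C = 0 →
      ∃ t : ℝ, y = t • (E.symm (Complex.I * (starRingEnd ℂ) B)) +ᵥ x := by
    intro y hy
    have h1 : (B * (ee a y - ee a x)).re = 0 := by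
      rw [mul_sub, Complex.sub_re]
      linarith
    obtain ⟨t, ht⟩ := line_vec hB h1
    refine ⟨t, ?_⟩
    rw [ee_sub, ← Complex.real_smul] at ht
    have h2 := congrArg E.symm ht
    rw [LinearIsometryEquiv.symm_apply_apply, map_smul] at h2
    rw [← h2, vadd_eq_add, sub_add_cancel]
  refine (collinear_iff_of_mem (p₀ := x) (by simp)).2
    ⟨E.symm (Complex.I * (starRingEnd ℂ) B), fun p hp => ?_⟩
  rcases hp with rfl | rfl | rfl
  · exact key _ hx
  · exact key _ hy
  · exact key _ hz

/-- a line contains at most two points of a good set -/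
theorem line_card {S : Finset Pl} (hS : Good S) {a : Pl} {B : ℂ} {C : ℝ} (hB : B ≠ 0)
    (U : Finset Pl) (hU : U ⊆ S) (h : ∀ x ∈ U, 2 * (B * ee a x).re + C = 0) : U.card ≤ 2 := by
  by_contra hcon
  push Not at hcon
  obtain ⟨x, y, z, hx, hy, hz, hxy, hxz, hyz⟩ := Finset.two_lt_card_iff.1 hcon
  exact hS.1 x (hU hx) y (hU hy) z (hU hz) hxy hxz hyz
    (collinear_of_line hB (h x hx) (h y hy) (h z hz))

/-- the equation of a circle -/
theorem circle_eq {A C : ℝ} {B : ℂ} (hA : A ≠ 0) (z : ℂ) :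
    ‖z - ⟨-B.re / A, B.im / A⟩‖ ^ 2 =
      ((B.re ^ 2 + B.im ^ 2) / A ^ 2 - C / A) + (A * ‖z‖ ^ 2 + 2 * (B * z).re + C) / A := by
  rw [Complex.sq_norm, Complex.sq_norm, Complex.normSq_apply, Complex.normSq_apply,
    Complex.sub_re, Complex.sub_im, Complex.mul_re]
  simp only
  field_simp
  ring

end Pool.Agent.CLU.CLP

namespace Pool.Agent.CLU

open CLP in
theorem CLP_thm (h1 : t_CLL) : t_CLP := by
  classical
  intro m I ρ D hPar S hS a ha hF
  obtain ⟨F0, hF0S, hF0D, hF0c⟩ := hF
  set N : Finset ℂ := (S.filter fun b => dist a b ≤ ρ).image (ee a) with hN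
  set F : Finset ℂ := (S.filter fun p => D ≤ dist a p).image (ee a) with hFdef
  have hUN : ∀ U ⊆ S, (∀ b ∈ U, dist a b ≤ ρ) → U.image (ee a) ⊆ N := by
    intro U hU hb
    refine Finset.image_subset_image fun b hbU => ?_
    exact Finset.mem_filter.2 ⟨hU hbU, hb b hbU⟩
  have hUF : ∀ U ⊆ S, (∀ p ∈ U, D ≤ dist a p) → U.image (ee a) ⊆ F := by
    intro U hU hb
    refine Finset.image_subset_image fun b hbU => ?_
    exact Finset.mem_filter.2 ⟨hU hbU, hb b hbU⟩
  have hcard : ∀ U : Finset Pl, (U.image (ee a)).card = U.card := fun U =>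
    Finset.card_image_of_injective U (ee_injective a)
  have hNn : ∀ b ∈ N, ‖b‖ ≤ ρ := by
    intro b hb
    obtain ⟨b', hb', rfl⟩ := Finset.mem_image.1 hb
    rw [norm_ee]
    exact (Finset.mem_filter.1 hb').2
  have hFn : ∀ p ∈ F, D ≤ ‖p‖ := by
    intro b hb
    obtain ⟨b', hb', rfl⟩ := Finset.mem_image.1 hb
    rw [norm_ee]
    exact (Finset.mem_filter.1 hb').2
  have hint : ∀ b ∈ N, ∀ p ∈ F, ∃ n : ℤ, ‖b - p‖ - ‖p‖ = n := by
    intro b hb p hp
    obtain ⟨b', hb', rfl⟩ := Finset.mem_image.1 hb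
    obtain ⟨p', hp', rfl⟩ := Finset.mem_image.1 hp
    obtain ⟨n, hn⟩ := hS.2 b' (Finset.mem_filter.1 hb').1 p' (Finset.mem_filter.1 hp').1
    obtain ⟨k, hk⟩ := hS.2 a ha p' (Finset.mem_filter.1 hp').1
    refine ⟨n - k, ?_⟩
    rw [norm_ee_sub, norm_ee, hn, hk]
    push_cast
    ring
  have hFc : mf m ≤ F.card := by
    refine hF0c.trans ?_
    rw [← hcard F0]
    exact Finset.card_le_card (hUF F0 hF0S hF0D)
  rcases h1 m I ρ D hPar N F hNn hFn hint hFc with h | ⟨Γ, hΓ, hΓN, hΓF⟩
  · left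
    intro U hU hb
    rw [← hcard U]
    exact (Finset.card_le_card (hUN U hU hb)).trans h
  right
  obtain ⟨A, C, B, hAB, hΓeq⟩ := hΓ
  have hmem : ∀ z, z ∈ Γ ↔ A * ‖z‖ ^ 2 + 2 * (B * z).re + C = 0 := by
    intro z
    rw [hΓeq]
    rfl
  by_cases hA : A = 0
  · exfalso
    subst hA
    have hB : B ≠ 0 := hAB.resolve_left (fun h => h rfl)
    have h2 : (F0.filter fun p => ee a p ∈ Γ).card ≤ 2 := by
      refine line_card (a := a) (C := C) hS hB _ ((Finset.filter_subset _ _).trans hF0S) ?_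
      intro x hx
      have h3 := (hmem _).1 (Finset.mem_filter.1 hx).2
      linarith
    have h3 : (F0.filter fun p => ee a p ∉ Γ).card ≤ mo m := by
      rw [← hcard]
      refine hΓF _ (hUF _ ((Finset.filter_subset _ _).trans hF0S)
        fun p hp => hF0D p (Finset.mem_filter.1 hp).1) ?_
      intro p hp
      obtain ⟨p', hp', rfl⟩ := Finset.mem_image.1 hp
      exact (Finset.mem_filter.1 hp').2
    have h4 := Finset.card_filter_add_card_filter_not (s := F0) (fun p => ee a p ∈ Γ)
    unfold mf at hF0c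
    omega
  · set z0 : ℂ := ⟨-B.re / A, B.im / A⟩ with hz0
    set R : ℝ := (B.re ^ 2 + B.im ^ 2) / A ^ 2 - C / A with hR
    have hz : ∀ z, z ∈ Γ ↔ ‖z - z0‖ ^ 2 = R := by
      intro z
      rw [hmem, circle_eq (C := C) hA z]
      constructor
      · intro h
        rw [h, zero_div, add_zero]
      · intro h
        have h5 : (A * ‖z‖ ^ 2 + 2 * (B * z).re + C) / A = 0 := by
          linarith
        rcases div_eq_zero_iff.1 h5 with h6 | h6
        · exact h6
        · exact absurd h6 hA
    have hR0 : 0 ≤ R := by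
      by_contra hcon
      have h3 : F.card ≤ mo m := by
        refine hΓF F (Finset.Subset.refl _) fun p _ hp => hcon ?_
        rw [← (hz p).1 hp]
        positivity
      unfold mf at hFc
      omega
    have hcz : ee a (E.symm z0 + a) = z0 := by
      unfold ee
      rw [add_sub_cancel_right, LinearIsometryEquiv.apply_symm_apply]
    have hc : ∀ x : Pl, dist (E.symm z0 + a) x ≠ √R → ee a x ∉ Γ := by
      intro x hx hx'
      apply hx
      rw [dist_comm, ← norm_ee_sub a, hcz, ← (hz _).1 hx', Real.sqrt_sq (norm_nonneg _)]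
    refine ⟨E.symm z0 + a, √R, fun U hU hb => ?_, fun U hU hp => ?_⟩
    · rw [← hcard]
      refine hΓN _ (hUN U hU fun b hbU => (hb b hbU).1) ?_
      intro b hbU
      obtain ⟨b', hb', rfl⟩ := Finset.mem_image.1 hbU
      exact hc _ (hb b' hb').2
    · rw [← hcard]
      refine hΓF _ (hUF U hU fun b hbU => (hp b hbU).1) ?_
      intro b hbU
      obtain ⟨b', hb', rfl⟩ := Finset.mem_image.1 hbU
      exact hc _ (hp b' hb').2

end Pool.Agent.CLU
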