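import Pool.Agent.CLU.St

/-!
# CQE: two circles or lines with three common points are equal
-/

set_option autoImplicit false

open Polynomial Polynomial.Bivariate ComplexConjugate

namespace Pool.Agent.CLU.CQE

/-- the solution of the two linear equations if the three points are not collinear -/
lemma noncol (A β1 β2 u1 u2 v1 v2 : ℝ)
    (hu : A * (u1 ^ 2 + u2 ^ 2) + 2 * (β1 * u1 + β2 * u2) = 0)
    (hv : A * (v1 ^ 2 + v2 ^ 2) + 2 * (β1 * v1 + β2 * v2) = 0)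
    (hD : u1 * v2 - u2 * v1 ≠ 0) :
    β1 = A * (-((u1 ^ 2 + u2 ^ 2) * v2 - (v1 ^ 2 + v2 ^ 2) * u2) / (2 * (u1 * v2 - u2 * v1))) ∧
    β2 = A * (-((v1 ^ 2 + v2 ^ 2) * u1 - (u1 ^ 2 + u2 ^ 2) * v1) / (2 * (u1 * v2 - u2 * v1))) := by
  have h2 : 2 * (u1 * v2 - u2 * v1) ≠ 0 := mul_ne_zero two_ne_zero hD
  constructor
  · rw [← mul_div_assoc, eq_div_iff h2]
    linear_combination v2 * hu - u2 * hv
  · rw [← mul_div_assoc, eq_div_iff h2]
    linear_combination u1 * hv - v1 * hu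

/-- collinear case: no quadratic term -/
lemma colA (A β1 β2 u1 u2 s : ℝ)
    (hu : A * (u1 ^ 2 + u2 ^ 2) + 2 * (β1 * u1 + β2 * u2) = 0)
    (hv : A * ((s * u1) ^ 2 + (s * u2) ^ 2) + 2 * (β1 * (s * u1) + β2 * (s * u2)) = 0)
    (hs0 : s ≠ 0) (hs1 : s ≠ 1) (hn : u1 ^ 2 + u2 ^ 2 ≠ 0) : A = 0 := by
  have h1 : s * (s - 1) * (u1 ^ 2 + u2 ^ 2) * A = 0 := by
    linear_combination hv - s * hu
  have h2 : s * (s - 1) * (u1 ^ 2 + u2 ^ 2) ≠ 0 :=
    mul_ne_zero (mul_ne_zero hs0 (sub_ne_zero.mpr hs1)) hn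
  exact (mul_eq_zero.mp h1).resolve_left h2

lemma real_key (A b1 b2 C A' b1' b2' C' x1 x2 y1 y2 z1 z2 : ℝ)
    (h : A ≠ 0 ∨ b1 ≠ 0 ∨ b2 ≠ 0) (h' : A' ≠ 0 ∨ b1' ≠ 0 ∨ b2' ≠ 0)
    (fx : A * (x1 ^ 2 + x2 ^ 2) + 2 * (b1 * x1 - b2 * x2) + C = 0)
    (fy : A * (y1 ^ 2 + y2 ^ 2) + 2 * (b1 * y1 - b2 * y2) + C = 0)
    (fz : A * (z1 ^ 2 + z2 ^ 2) + 2 * (b1 * z1 - b2 * z2) + C = 0)
    (gx : A' * (x1 ^ 2 + x2 ^ 2) + 2 * (b1' * x1 - b2' * x2) + C' = 0)
    (gy : A' * (y1 ^ 2 + y2 ^ 2) + 2 * (b1' * y1 - b2' * y2) + C' = 0)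
    (gz : A' * (z1 ^ 2 + z2 ^ 2) + 2 * (b1' * z1 - b2' * z2) + C' = 0)
    (hxy : ¬ (x1 = y1 ∧ x2 = y2)) (hxz : ¬ (x1 = z1 ∧ x2 = z2)) (hyz : ¬ (y1 = z1 ∧ y2 = z2)) :
    ∃ r : ℝ, r ≠ 0 ∧ A' = r * A ∧ b1' = r * b1 ∧ b2' = r * b2 ∧ C' = r * C := by
  obtain ⟨u1, hu1⟩ : ∃ u1, u1 = y1 - x1 := ⟨_, rfl⟩
  obtain ⟨u2, hu2⟩ : ∃ u2, u2 = y2 - x2 := ⟨_, rfl⟩
  obtain ⟨v1, hv1⟩ : ∃ v1, v1 = z1 - x1 := ⟨_, rfl⟩
  obtain ⟨v2, hv2⟩ : ∃ v2, v2 = z2 - x2 := ⟨_, rfl⟩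
  have hn : u1 ^ 2 + u2 ^ 2 ≠ 0 := by
    intro h0
    apply hxy
    have e1 : u1 = 0 := by nlinarith [sq_nonneg u1, sq_nonneg u2]
    have e2 : u2 = 0 := by nlinarith [sq_nonneg u1, sq_nonneg u2]
    constructor <;> linarith
  have hf1 : A * (u1 ^ 2 + u2 ^ 2) + 2 * ((A * x1 + b1) * u1 + (A * x2 - b2) * u2) = 0 := by
    subst hu1 hu2; linear_combination fy - fx
  have hf2 : A * (v1 ^ 2 + v2 ^ 2) + 2 * ((A * x1 + b1) * v1 + (A * x2 - b2) * v2) = 0 := by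
    subst hv1 hv2; linear_combination fz - fx
  have hg1 : A' * (u1 ^ 2 + u2 ^ 2) + 2 * ((A' * x1 + b1') * u1 + (A' * x2 - b2') * u2) = 0 := by
    subst hu1 hu2; linear_combination gy - gx
  have hg2 : A' * (v1 ^ 2 + v2 ^ 2) + 2 * ((A' * x1 + b1') * v1 + (A' * x2 - b2') * v2) = 0 := by
    subst hv1 hv2; linear_combination gz - gx
  by_cases hD : u1 * v2 - u2 * v1 = 0
  · -- collinear
    obtain ⟨s, hs⟩ : ∃ s, s = (u1 * v1 + u2 * v2) / (u1 ^ 2 + u2 ^ 2) := ⟨_, rfl⟩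
    have es1 : v1 = s * u1 := by
      rw [hs]; field_simp
      linear_combination -u2 * hD
    have es2 : v2 = s * u2 := by
      rw [hs]; field_simp
      linear_combination u1 * hD
    have hs0 : s ≠ 0 := by
      intro h0
      rw [h0] at es1 es2
      exact hxz ⟨by linarith, by linarith⟩
    have hs1 : s ≠ 1 := by
      intro h0
      rw [h0] at es1 es2
      exact hyz ⟨by linarith, by linarith⟩
    rw [es1, es2] at hf2 hg2
    have hA : A = 0 := colA _ _ _ _ _ _ hf1 hf2 hs0 hs1 hn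
    have hA' : A' = 0 := colA _ _ _ _ _ _ hg1 hg2 hs0 hs1 hn
    subst hA hA'
    have k1 : b1 * u1 - b2 * u2 = 0 := by linear_combination hf1 / 2
    have k2 : b1' * u1 - b2' * u2 = 0 := by linear_combination hg1 / 2
    obtain ⟨t, ht⟩ : ∃ t, t = (b1 * u2 + b2 * u1) / (u1 ^ 2 + u2 ^ 2) := ⟨_, rfl⟩
    obtain ⟨t', ht'⟩ : ∃ t', t' = (b1' * u2 + b2' * u1) / (u1 ^ 2 + u2 ^ 2) := ⟨_, rfl⟩
    have e1 : b1 = t * u2 := by
      rw [ht]; field_simp
      linear_combination u1 * k1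
    have e2 : b2 = t * u1 := by
      rw [ht]; field_simp
      linear_combination -u2 * k1
    have e1' : b1' = t' * u2 := by
      rw [ht']; field_simp
      linear_combination u1 * k2
    have e2' : b2' = t' * u1 := by
      rw [ht']; field_simp
      linear_combination -u2 * k2
    have ht0 : t ≠ 0 := by
      intro h0
      rw [h0] at e1 e2
      rcases h with h | h | h
      · exact h rfl
      · exact h (by linarith)
      · exact h (by linarith)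
    have ht0' : t' ≠ 0 := by
      intro h0
      rw [h0] at e1' e2'
      rcases h' with h | h | h
      · exact h rfl
      · exact h (by linarith)
      · exact h (by linarith)
    refine ⟨t' / t, div_ne_zero ht0' ht0, by ring, ?_, ?_, ?_⟩
    · rw [e1, e1']; field_simp
    · rw [e2, e2']; field_simp
    · have c1 : C = -(2 * (b1 * x1 - b2 * x2)) := by linear_combination fx
      have c2 : C' = -(2 * (b1' * x1 - b2' * x2)) := by linear_combination gx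
      rw [c1, c2, e1, e2, e1', e2']; field_simp
  · obtain ⟨p1, p2⟩ := noncol _ _ _ _ _ _ _ hf1 hf2 hD
    obtain ⟨q1, q2⟩ := noncol _ _ _ _ _ _ _ hg1 hg2 hD
    obtain ⟨P, hP⟩ : ∃ P, P = -((u1 ^ 2 + u2 ^ 2) * v2 - (v1 ^ 2 + v2 ^ 2) * u2) /
      (2 * (u1 * v2 - u2 * v1)) := ⟨_, rfl⟩
    obtain ⟨Q, hQ⟩ : ∃ Q, Q = -((v1 ^ 2 + v2 ^ 2) * u1 - (u1 ^ 2 + u2 ^ 2) * v1) /
      (2 * (u1 * v2 - u2 * v1)) := ⟨_, rfl⟩
    rw [← hP] at p1 q1
    rw [← hQ] at p2 q2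
    have hA : A ≠ 0 := by
      intro h0
      subst h0
      rcases h with h | h | h
      · exact h rfl
      · exact h (by linarith)
      · exact h (by linarith)
    have hA' : A' ≠ 0 := by
      intro h0
      subst h0
      rcases h' with h | h | h
      · exact h rfl
      · exact h (by linarith)
      · exact h (by linarith)
    have e1 : b1 = A * (P - x1) := by linear_combination p1
    have e2 : b2 = A * (x2 - Q) := by linear_combination -p2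
    have e1' : b1' = A' * (P - x1) := by linear_combination q1
    have e2' : b2' = A' * (x2 - Q) := by linear_combination -q2
    refine ⟨A' / A, div_ne_zero hA' hA, by field_simp, ?_, ?_, ?_⟩
    · rw [e1, e1']; field_simp
    · rw [e2, e2']; field_simp
    · have c1 : C = -(A * (x1 ^ 2 + x2 ^ 2) + 2 * (b1 * x1 - b2 * x2)) := by
        linear_combination fx
      have c2 : C' = -(A' * (x1 ^ 2 + x2 ^ 2) + 2 * (b1' * x1 - b2' * x2)) := by
        linear_combination gx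
      rw [c1, c2, e1, e2, e1', e2']; field_simp

lemma eqn (A C : ℝ) (B z : ℂ) : A * ‖z‖ ^ 2 + 2 * (B * z).re + C =
    A * (z.re ^ 2 + z.im ^ 2) + 2 * (B.re * z.re - B.im * z.im) + C := by
  rw [← Complex.normSq_eq_norm_sq, Complex.normSq_apply, Complex.mul_re]
  ring

lemma ne' {x y : ℂ} (h : x ≠ y) : ¬ (x.re = y.re ∧ x.im = y.im) :=
  fun ⟨a, b⟩ => h (Complex.ext a b)

lemma nz {A : ℝ} {B : ℂ} (h : A ≠ 0 ∨ B ≠ 0) : A ≠ 0 ∨ B.re ≠ 0 ∨ B.im ≠ 0 := by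
  rcases h with h | h
  · exact Or.inl h
  · right
    by_contra hc
    push Not at hc
    exact h (Complex.ext (by simpa using hc.1) (by simpa using hc.2))

end Pool.Agent.CLU.CQE

namespace Pool.Agent.CLU

open CQE in
theorem CQE_thm : t_CQE := by
  rintro Γ Γ' ⟨A, C, B, h, rfl⟩ ⟨A', C', B', h', rfl⟩ x hx y hy z hz hx' hy' hz' hxy hxz hyz
  simp only [Set.mem_ofPred_eq, eqn] at hx hy hz hx' hy' hz'
  obtain ⟨r, hr, e1, e2, e3, e4⟩ := real_key A B.re B.im C A' B'.re B'.im C' x.re x.im y.re y.im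
    z.re z.im (nz h) (nz h') hx hy hz hx' hy' hz' (ne' hxy) (ne' hxz) (ne' hyz)
  ext w
  simp only [Set.mem_ofPred_eq, eqn]
  rw [e1, e2, e3, e4]
  have key : r * A * (w.re ^ 2 + w.im ^ 2) + 2 * (r * B.re * w.re - r * B.im * w.im) + r * C =
      r * (A * (w.re ^ 2 + w.im ^ 2) + 2 * (B.re * w.re - B.im * w.im) + C) := by ring
  rw [key, mul_eq_zero, or_iff_right hr]

end Pool.Agent.CLU
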