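import Pool.Agent.CLU.StP

/-!
# Clusters of integral point sets: module CVR, counting by covering
-/

set_option autoImplicit false

namespace Pool.Agent.CLU

open Pool.Agent.RCX

namespace CVR

theorem coord_le (x y : Pl) (i : Fin 2) : |x i - y i| ≤ dist x y := by
  rw [EuclideanSpace.dist_eq, Fin.sum_univ_two, Real.dist_eq, Real.dist_eq, sq_abs, sq_abs]
  refine Real.abs_le_sqrt ?_
  fin_cases i
  · simp only [Fin.zero_eta]
    nlinarith [sq_nonneg (x 1 - y 1)]
  · simp only [Fin.mk_one]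
    nlinarith [sq_nonneg (x 0 - y 0)]

theorem dist_le {x y : Pl} {r : ℝ} (hr : 0 ≤ r) (h0 : |x 0 - y 0| ≤ r / 2)
    (h1 : |x 1 - y 1| ≤ r / 2) : dist x y ≤ r := by
  rw [EuclideanSpace.dist_eq, Fin.sum_univ_two, Real.dist_eq, Real.dist_eq]
  refine Real.sqrt_le_iff.2 ⟨hr, ?_⟩
  have e0 := pow_le_pow_left₀ (abs_nonneg _) h0 2
  have e1 := pow_le_pow_left₀ (abs_nonneg _) h1 2
  nlinarith

/-- the number of the strip of a real number -/
noncomputable def fl (ρ a : ℝ) : ℤ := ⌊2 * a / ρ⌋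

theorem same {ρ a b : ℝ} (hρ : 0 < ρ) (h : fl ρ a = fl ρ b) : |a - b| ≤ ρ / 2 := by
  unfold fl at h
  have h1 := Int.abs_sub_lt_one_of_floor_eq_floor h
  have h2 : 2 * a / ρ - 2 * b / ρ = (a - b) * (2 / ρ) := by
    field_simp
  rw [h2, abs_mul, abs_of_pos (by positivity : (0 : ℝ) < 2 / ρ)] at h1
  have h3 : |a - b| * (2 / ρ) * (ρ / 2) ≤ 1 * (ρ / 2) :=
    mul_le_mul_of_nonneg_right h1.le (by positivity)
  have h4 : |a - b| * (2 / ρ) * (ρ / 2) = |a - b| := by
    field_simp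
  linarith

theorem range_fl {ρ a b : ℝ} (hρ : 0 < ρ) (h : a ≤ b) (h' : b ≤ a + 144 * ρ) :
    fl ρ b ∈ Finset.Icc (fl ρ a) (fl ρ a + 288) := by
  unfold fl
  rw [Finset.mem_Icc]
  constructor
  · exact Int.floor_le_floor (div_le_div_of_nonneg_right (by linarith) hρ.le)
  · have h1 : 2 * b / ρ ≤ 2 * a / ρ + (288 : ℤ) := by
      have : 2 * a / ρ + (288 : ℤ) = (2 * a + 288 * ρ) / ρ := by
        push_cast
        field_simp
      rw [this]
      exact div_le_div_of_nonneg_right (by linarith) hρ.le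
    calc ⌊2 * b / ρ⌋ ≤ ⌊2 * a / ρ + (288 : ℤ)⌋ := Int.floor_le_floor h1
      _ = ⌊2 * a / ρ⌋ + 288 := Int.floor_add_intCast _ _

end CVR

open CVR in
open Classical in
theorem CVR_thm : t_CVR := by
  intro X ρ k hρ hd hk
  rcases X.eq_empty_or_nonempty with rfl | hne
  · simp
  obtain ⟨p, hp, hpm⟩ := X.exists_min_image (fun x => x 0) hne
  obtain ⟨q, hq, hqm⟩ := X.exists_min_image (fun x => x 1) hne
  set f : Pl → ℤ × ℤ := fun x => (fl ρ (x 0), fl ρ (x 1)) with hf
  have h1 : X.card ≤ (k + 1) * (X.image f).card := by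
    refine Finset.card_le_mul_card_image _ _ fun a ha => ?_
    obtain ⟨x, hx, rfl⟩ := Finset.mem_image.1 ha
    have h2 := hk x hx ((X.filter fun y => f y = f x).erase x) (fun y hy =>
      (Finset.mem_filter.1 (Finset.mem_of_mem_erase hy)).1) (fun y hy => by
        obtain ⟨hyx, hy2⟩ := Finset.mem_erase.1 hy
        obtain ⟨-, hy3⟩ := Finset.mem_filter.1 hy2
        refine ⟨hyx, ?_⟩
        rw [hf] at hy3
        simp only [Prod.mk.injEq] at hy3
        exact dist_le hρ.le (same hρ hy3.1.symm) (same hρ hy3.2.symm))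
    have h3 : x ∈ X.filter fun y => f y = f x := Finset.mem_filter.2 ⟨hx, rfl⟩
    rw [Finset.card_erase_of_mem h3] at h2
    omega
  have h4 : X.image f ⊆ (Finset.Icc (fl ρ (p 0)) (fl ρ (p 0) + 288)) ×ˢ
      (Finset.Icc (fl ρ (q 1)) (fl ρ (q 1) + 288)) := by
    intro a ha
    obtain ⟨x, hx, rfl⟩ := Finset.mem_image.1 ha
    refine Finset.mem_product.2 ⟨range_fl hρ (hpm x hx) ?_, range_fl hρ (hqm x hx) ?_⟩
    · have h5 := (coord_le x p 0).trans (hd x hx p hp)
      have h6 := le_abs_self (x 0 - p 0)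
      linarith
    · have h5 := (coord_le x q 1).trans (hd x hx q hq)
      have h6 := le_abs_self (x 1 - q 1)
      linarith
  have h5 := Finset.card_le_card h4
  rw [Finset.card_product, Int.card_Icc, Int.card_Icc] at h5
  have e1 : (fl ρ (p 0) + 288 + 1 - fl ρ (p 0)).toNat = 289 := by
    have : fl ρ (p 0) + 288 + 1 - fl ρ (p 0) = 289 := by ring
    rw [this]
    rfl
  have e2 : (fl ρ (q 1) + 288 + 1 - fl ρ (q 1)).toNat = 289 := by
    have : fl ρ (q 1) + 288 + 1 - fl ρ (q 1) = 289 := by ring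
    rw [this]
    rfl
  rw [e1, e2] at h5
  calc X.card ≤ (k + 1) * (X.image f).card := h1
    _ ≤ (k + 1) * (289 * 289) := Nat.mul_le_mul_left _ h5
    _ ≤ 100000 * (k + 1) := by omega

end Pool.Agent.CLU
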