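import Pool.Agent.CLU.StP
import Pool.Agent.RCX.ASE
import Pool.Agent.RCX.ST5
import Pool.Agent.RCX.EXA
import Pool.Agent.RCX.IRL
import Pool.Agent.RCX.CNC
import Pool.Agent.RCX.GRD

/-!
# CLU: DEC
-/

set_option autoImplicit false

open Pool.Agent.RCX

namespace Pool.Agent.CLU

theorem DEC_thm : t_DEC := fun _ hS => ASM.dec (ST5_thm (EXA_thm IRL_thm) CON_thm) GRD_thm hS

end Pool.Agent.CLU
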