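import Pool.Agent.CLU.St

/-!
# Clusters of integral point sets: module DET

A determinant whose rows are close to a small subspace is small.
-/

set_option autoImplicit false

open Polynomial Polynomial.Bivariate ComplexConjugate

namespace Pool.Agent.CLU

namespace DET

/-- a determinant with mixed bounds of the rows -/
theorem det_le {R : ℕ} (M : Matrix (Fin R) (Fin R) ℂ) (T : Finset (Fin R)) (s η : ℝ)
    (h1 : ∀ a ∈ T, ∀ c, ‖M a c‖ ≤ s) (h2 : ∀ a ∉ T, ∀ c, ‖M a c‖ ≤ s * η) :
    ‖M.det‖ ≤ (R.factorial : ℝ) * s ^ R * η ^ (Tᶜ).card := by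
  obtain ⟨e, he⟩ : ∃ e : Fin R → ℝ, ∀ a, e a = if a ∈ T then 1 else η := ⟨_, fun _ => rfl⟩
  have h3 : ∀ a c, ‖M a c‖ ≤ s * e a := by
    intro a c
    rw [he]
    by_cases h : a ∈ T
    · rw [if_pos h, mul_one]
      exact h1 a h c
    · rw [if_neg h]
      exact h2 a h c
  have h4 : ∏ a, e a = η ^ (Tᶜ).card := by
    rw [← Finset.prod_mul_prod_compl T]
    rw [Finset.prod_congr rfl fun a ha => (he a).trans (if_pos ha),
      Finset.prod_congr rfl fun a ha => (he a).trans (if_neg (Finset.mem_compl.1 ha)),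
      Finset.prod_const_one, one_mul, Finset.prod_const]
  rw [Matrix.det_apply]
  refine (norm_sum_le _ _).trans ?_
  have h5 : ∀ σ ∈ (Finset.univ : Finset (Equiv.Perm (Fin R))),
      ‖Equiv.Perm.sign σ • ∏ a, M (σ a) a‖ ≤ s ^ R * η ^ (Tᶜ).card := by
    intro σ _
    have h6 : ‖Equiv.Perm.sign σ • ∏ a, M (σ a) a‖ = ∏ a, ‖M (σ a) a‖ := by
      rw [← norm_prod]
      rcases Int.units_eq_one_or (Equiv.Perm.sign σ) with h | h
      · rw [h, one_smul]
      · rw [h, Units.neg_smul, one_smul, norm_neg]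
    rw [h6]
    calc ∏ a, ‖M (σ a) a‖ ≤ ∏ a, (s * e (σ a)) :=
          Finset.prod_le_prod (fun a _ => norm_nonneg _) fun a _ => h3 _ _
      _ = s ^ R * η ^ (Tᶜ).card := by
          rw [Finset.prod_mul_distrib, Finset.prod_const, Finset.card_univ, Fintype.card_fin,
            Equiv.prod_comp σ e, h4]
  refine (Finset.sum_le_sum h5).trans ?_
  rw [Finset.sum_const, Finset.card_univ, Fintype.card_perm, Fintype.card_fin, nsmul_eq_mul]
  exact (mul_assoc _ _ _).ge

/-- many rows in a small subspace -/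
theorem det_zero {R : ℕ} (V : Submodule ℂ (Fin R → ℂ)) (v : Fin R → Fin R → ℂ)
    (T : Finset (Fin R)) (h1 : ∀ a ∈ T, v a ∈ V) (h2 : Module.finrank ℂ V < T.card) :
    Matrix.detRowAlternating v = 0 := by
  refine AlternatingMap.map_linearDependent _ _ fun h => ?_
  have h3 := h.comp (fun a : T => (a : Fin R)) Subtype.val_injective
  have h4 : LinearIndependent ℂ (fun a : T => (⟨v a, h1 a a.2⟩ : V)) :=
    LinearIndependent.of_comp V.subtype h3
  have h5 := h4.fintype_card_le_finrank
  rw [Fintype.card_coe] at h5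
  omega

end DET

theorem DET_thm : t_DET := by
  intro R V A B s η hV hA hAs hB hη hη1
  have h1 : Matrix.det (Matrix.of fun a c => A a c + B a c) =
      ∑ T : Finset (Fin R), Matrix.detRowAlternating (T.piecewise A B) :=
    Matrix.detRowAlternating.toMultilinearMap.map_add_univ A B
  obtain ⟨θ, hθ⟩ : ∃ θ : ℝ, θ = √(η ^ R) := ⟨_, rfl⟩
  have hθ0 : 0 ≤ θ := by rw [hθ]; exact Real.sqrt_nonneg _
  have hθ2 : θ ^ 2 = η ^ R := by rw [hθ]; exact Real.sq_sqrt (pow_nonneg hη R)
  have hsR : 0 ≤ s ^ R := by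
    rcases Nat.eq_zero_or_pos R with h | h
    · subst h
      simp
    · exact pow_nonneg ((norm_nonneg _).trans (hAs ⟨0, h⟩ ⟨0, h⟩)) R
  have h2 : ∀ T : Finset (Fin R),
      ‖Matrix.detRowAlternating (T.piecewise A B)‖ ≤ (R.factorial : ℝ) * s ^ R * θ := by
    intro T
    by_cases h : Module.finrank ℂ V < T.card
    · rw [DET.det_zero V _ T (fun a ha => by
        rw [Finset.piecewise_eq_of_mem _ _ _ ha]
        exact hA a) h, norm_zero]
      positivity
    · have h3 : ‖Matrix.detRowAlternating (T.piecewise A B)‖ ≤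
          (R.factorial : ℝ) * s ^ R * η ^ (Tᶜ).card := by
        refine DET.det_le (T.piecewise A B) T s η (fun a ha c => ?_) fun a ha c => ?_
        · rw [Finset.piecewise_eq_of_mem _ _ _ ha]
          exact hAs a c
        · rw [Finset.piecewise_eq_of_notMem _ _ _ ha]
          exact hB a c
      refine h3.trans (mul_le_mul_of_nonneg_left ?_ (by positivity))
      refine abs_le_of_sq_le_sq' ?_ hθ0 |>.2
      rw [hθ2, ← pow_mul]
      refine pow_le_pow_of_le_one hη hη1 ?_
      have h4 := Finset.card_add_card_compl T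
      rw [Fintype.card_fin] at h4
      omega
  have h5 : ‖Matrix.det (Matrix.of fun a c => A a c + B a c)‖ ≤
      (R.factorial : ℝ) * (2 * s) ^ R * θ := by
    rw [h1]
    refine (norm_sum_le _ _).trans ((Finset.sum_le_sum fun T _ => h2 T).trans ?_)
    rw [Finset.sum_const, Finset.card_univ, Fintype.card_finset, Fintype.card_fin, nsmul_eq_mul,
      mul_pow]
    push_cast
    exact le_of_eq (by ring)
  calc ‖Matrix.det (Matrix.of fun a c => A a c + B a c)‖ ^ 2
      ≤ ((R.factorial : ℝ) * (2 * s) ^ R * θ) ^ 2 := pow_le_pow_left₀ (norm_nonneg _) h5 2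
    _ = ((R.factorial : ℝ) * (2 * s) ^ R) ^ 2 * η ^ R := by rw [mul_pow, hθ2]

end Pool.Agent.CLU
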