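import Mathlib

/-!
# Clusters of integral point sets (MP_a57197_co): definitions
-/

set_option autoImplicit false

open Polynomial Polynomial.Bivariate ComplexConjugate

namespace Pool.Agent.CLU

/-- `Q` has degree at most `k` in the inner variable X and at most `l` in the outer variable Y
(`Q.evalEval z w` is the value at X = z, Y = w) -/
def BiDeg (k l : ℕ) (Q : ℂ[X][Y]) : Prop := (Bivariate.swap Q).natDegree ≤ k ∧ Q.natDegree ≤ l

/-- the polynomial (X - p)(Y - conj p); its value at (z, conj z) is the square of |z - p| -/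
noncomputable def qp (p : ℂ) : ℂ[X][Y] := C (X - C p) * (Y - C (C (conj p)))

/-- the constant `m 2^m` -/
def gg (m : ℕ) : ℕ := m * 2 ^ m

/-- the constant `3 m + 2 g² + g`, g = m 2^m -/
def mo (m : ℕ) : ℕ := 3 * m + 2 * gg m ^ 2 + gg m

/-- number of far points needed -/
def mf (m : ℕ) : ℕ := 2 * mo m + 3

/-- bound for the number of near points -/
def nb (m : ℕ) : ℕ := 4 * gg m ^ 3

/-- admissible parameters of the determinant method -/
def Par (m I : ℕ) (ρ D : ℝ) : Prop :=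
  1 ≤ ρ ∧ 12 * ρ ≤ D ∧ 2 * (m * I + 1) ^ 2 ≤ 2 ^ m ∧
    4 * (m : ℝ) * (14 * ρ) ^ (2 * m) * (6 * ρ / D) ^ I < 1

/-- the span of the functions z^s conj(z)^t with s, t at most K -/
def Bi (K : ℕ) : Submodule ℂ (ℂ → ℂ) :=
  Submodule.span ℂ {f | ∃ s t : ℕ, s ≤ K ∧ t ≤ K ∧ f = fun z => z ^ s * (conj z) ^ t}

/-- the points of `N` satisfy an equation of bidegree at most (g, g), g = m 2^m, attached to the
points p_1, .., p_m, which does not vanish in a field in which no nonempty product of the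
(X - p_j)(Y - conj p_j) is a square -/
def HasG (m : ℕ) (N : Finset ℂ) (p : Fin m → ℂ) : Prop :=
  ∃ G : ℂ[X][Y], BiDeg (gg m) (gg m) G ∧ (∀ b ∈ N, G.evalEval b (conj b) = 0) ∧
    ∀ (K : Type) [Field K] [CharZero K] (ψ : ℂ[X][Y] →+* K),
      (∀ J : Finset (Fin m), J.Nonempty → ¬ IsSquare (∏ j ∈ J, ψ (qp (p j)))) → ψ G ≠ 0

/-- circles and lines (and some degenerate sets) in the complex plane -/
def Circ (Γ : Set ℂ) : Prop := ∃ (A C : ℝ) (B : ℂ), (A ≠ 0 ∨ B ≠ 0) ∧
  Γ = {z | A * ‖z‖ ^ 2 + 2 * (B * z).re + C = 0}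

end Pool.Agent.CLU
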