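import Pool.Agent.CLU.St

/-!
# Clusters of integral point sets: polynomials that are even in some variables
-/

set_option autoImplicit false

namespace Pool.Agent.CLU

namespace EVN

open MvPolynomial in
/-- the change of sign of one variable -/
noncomputable def sgn {σ : Type} {m : ℕ} (j : Fin m) :
    MvPolynomial (σ ⊕ Fin m) ℤ →ₐ[ℤ] MvPolynomial (σ ⊕ Fin m) ℤ :=
  aeval (Sum.elim (fun s => X (Sum.inl s)) (fun i => if i = j then - X (Sum.inr i) else X (Sum.inr i)))

/-- the sign of a variable -/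
def ep {σ : Type} {m : ℕ} (j : Fin m) : σ ⊕ Fin m → ℤ :=
  Sum.elim (fun _ => 1) (fun i => if i = j then -1 else 1)

open MvPolynomial in
theorem sgn_monomial {σ : Type} {m : ℕ} (j : Fin m) (d : (σ ⊕ Fin m) →₀ ℕ) (a : ℤ) :
    sgn j (monomial d a) = monomial d ((-1) ^ (d (Sum.inr j)) * a) := by
  unfold sgn
  rw [aeval_monomial, monomial_eq, C_mul, mul_comm (C ((-1) ^ d (Sum.inr j))) (C a), mul_assoc]
  congr 1
  have h1 : ∀ x : σ ⊕ Fin m, (Sum.elim (fun s => (X (Sum.inl s) : MvPolynomial (σ ⊕ Fin m) ℤ))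
      (fun i => if i = j then - X (Sum.inr i) else X (Sum.inr i))) x = C (ep j x) * X x := by
    rintro (s | i)
    · simp [ep]
    · by_cases hi : i = j
      · simp [ep, hi]
      · simp [ep, hi]
  have h2 : (d.prod fun x k => ((Sum.elim (fun s => (X (Sum.inl s) : MvPolynomial (σ ⊕ Fin m) ℤ))
      (fun i => if i = j then - X (Sum.inr i) else X (Sum.inr i))) x) ^ k) =
      (d.prod fun x k => (C (ep j x ^ k) : MvPolynomial (σ ⊕ Fin m) ℤ)) *
        d.prod fun x k => X x ^ k := by
    rw [← Finsupp.prod_mul]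
    refine Finsupp.prod_congr fun x _ => ?_
    rw [h1, mul_pow, ← C_pow]
  rw [h2]
  congr 1
  unfold Finsupp.prod
  rw [Finset.prod_eq_single (Sum.inr j)]
  · simp [ep]
  · rintro (s | i) _ hne
    · simp [ep]
    · have : i ≠ j := fun h => hne (by rw [h])
      simp [ep, this]
  · intro hni
    rw [Finsupp.notMem_support_iff.1 hni]
    simp

open MvPolynomial in
theorem coeff_sgn {σ : Type} {m : ℕ} (j : Fin m) (P : MvPolynomial (σ ⊕ Fin m) ℤ)
    (e : (σ ⊕ Fin m) →₀ ℕ) : coeff e (sgn j P) = (-1) ^ (e (Sum.inr j)) * coeff e P := by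
  classical
  refine MvPolynomial.induction_on' P (fun d a => ?_) (fun p q hp hq => ?_)
  · rw [sgn_monomial, coeff_monomial, coeff_monomial]
    split_ifs with h
    · rw [h]
    · simp
  · rw [map_add, coeff_add, coeff_add, hp, hq, mul_add]

open MvPolynomial in
theorem even_of_mem {σ : Type} {m : ℕ} {P : MvPolynomial (σ ⊕ Fin m) ℤ} {j : Fin m}
    (h : sgn j P = P) {e : (σ ⊕ Fin m) →₀ ℕ} (he : e ∈ P.support) : 2 * (e (Sum.inr j) / 2) =
      e (Sum.inr j) := by
  have h1 := coeff_sgn j P e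
  rw [h] at h1
  have h2 : coeff e P ≠ 0 := mem_support_iff.1 he
  rcases Nat.even_or_odd (e (Sum.inr j)) with h3 | h3
  · exact Nat.two_mul_div_two_of_even h3
  · rw [h3.neg_one_pow] at h1
    exact absurd (by omega : coeff e P = 0) h2

/-- the exponent with half the values at the variables `inr j` -/
noncomputable def hf {σ : Type} {m : ℕ} (d : (σ ⊕ Fin m) →₀ ℕ) : (σ ⊕ Fin m) →₀ ℕ :=
  Finsupp.onFinset d.support (Sum.elim (fun s => d (Sum.inl s)) (fun j => d (Sum.inr j) / 2)) (by
    rintro (s | i) hx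
    · exact Finsupp.mem_support_iff.2 hx
    · refine Finsupp.mem_support_iff.2 fun h0 => hx ?_
      show d (Sum.inr i) / 2 = 0
      rw [h0]; rfl)

theorem hf_inl {σ : Type} {m : ℕ} (d : (σ ⊕ Fin m) →₀ ℕ) (s : σ) :
    hf d (Sum.inl s) = d (Sum.inl s) := rfl

theorem hf_inr {σ : Type} {m : ℕ} (d : (σ ⊕ Fin m) →₀ ℕ) (j : Fin m) :
    hf d (Sum.inr j) = d (Sum.inr j) / 2 := rfl

open MvPolynomial in
theorem sq_monomial {σ : Type} {m : ℕ} (d : (σ ⊕ Fin m) →₀ ℕ) (a : ℤ)
    (hd : ∀ j : Fin m, 2 * (d (Sum.inr j) / 2) = d (Sum.inr j)) :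
    aeval (Sum.elim (fun s => (X (Sum.inl s) : MvPolynomial (σ ⊕ Fin m) ℤ))
      (fun i => X (Sum.inr i) ^ 2)) (monomial (hf d) a) = monomial d a := by
  rw [aeval_monomial, monomial_eq]
  congr 1
  rw [Finsupp.prod_of_support_subset (hf d) (s := d.support)]
  · unfold Finsupp.prod
    refine Finset.prod_congr rfl ?_
    rintro (s | i) _
    · rw [hf_inl]; rfl
    · rw [hf_inr, Sum.elim_inr, ← pow_mul, hd]
  · intro x hx
    exact Finsupp.support_onFinset_subset hx
  · intro x _
    exact pow_zero _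

end EVN

open EVN MvPolynomial in
theorem EVN_thm : t_EVN := by
  classical
  intro σ m P hP
  have hP' : ∀ j : Fin m, sgn j P = P := hP
  refine ⟨∑ d ∈ P.support, monomial (hf d) (coeff d P), ?_, ?_⟩
  · rw [map_sum]
    conv_lhs => rw [← MvPolynomial.support_sum_monomial_coeff P]
    refine Finset.sum_congr rfl fun d hd => ?_
    rw [sq_monomial d _ fun j => even_of_mem (hP' j) hd]
  · intro d hd
    have h1 := MvPolynomial.support_sum hd
    rw [Finset.mem_biUnion] at h1
    obtain ⟨e, he, h2⟩ := h1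
    have h3 := MvPolynomial.support_monomial_subset h2
    rw [Finset.mem_singleton] at h3
    refine ⟨e, he, fun j => ?_⟩
    rw [h3, hf_inr]
    exact (even_of_mem (hP' j) he).symm

end Pool.Agent.CLU
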