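import Pool.Agent.CLU.St

/-!
# Clusters of integral point sets (MP_a57197_co): factorisation with degrees
-/

set_option autoImplicit false

open Polynomial Polynomial.Bivariate ComplexConjugate

namespace Pool.Agent.CLU

namespace FAC

/-- the sum of the two degrees -/
noncomputable def dg (Q : ℂ[X][Y]) : ℕ := (Bivariate.swap Q).natDegree + Q.natDegree

theorem swap_ne {Q : ℂ[X][Y]} (h : Q ≠ 0) : Bivariate.swap Q ≠ 0 := by
  intro h0
  exact h ((map_eq_zero_iff _ (Bivariate.swap (R := ℂ)).injective).mp h0)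

theorem swap_dvd {P Q : ℂ[X][Y]} (h : P ∣ Q) : Bivariate.swap P ∣ Bivariate.swap Q := by
  obtain ⟨R, rfl⟩ := h
  exact ⟨Bivariate.swap R, map_mul _ _ _⟩

theorem dg_mul {P Q : ℂ[X][Y]} (hP : P ≠ 0) (hQ : Q ≠ 0) : dg (P * Q) = dg P + dg Q := by
  unfold dg
  rw [map_mul, natDegree_mul hP hQ, natDegree_mul (swap_ne hP) (swap_ne hQ)]
  ring

/-- an irreducible element has positive degree -/
theorem dg_pos {Q : ℂ[X][Y]} (h : Irreducible Q) : 1 ≤ dg Q := by
  by_contra hlt
  have h0 : dg Q = 0 := by omega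
  unfold dg at h0
  have h1 : Q.natDegree = 0 := by omega
  have h2 : (Bivariate.swap Q).natDegree = 0 := by omega
  obtain ⟨q, hq⟩ := natDegree_eq_zero.mp h1
  rw [← hq, Bivariate.swap_C, natDegree_map_eq_of_injective (C_injective)] at h2
  obtain ⟨c, hc⟩ := natDegree_eq_zero.mp h2
  have hc0 : c ≠ 0 := by
    intro h0
    apply h.ne_zero
    rw [← hq, ← hc, h0, C_0, C_0]
  apply h.not_isUnit
  rw [← hq, ← hc]
  exact isUnit_C.mpr (isUnit_C.mpr (isUnit_iff_ne_zero.mpr hc0))

theorem card_le (f : Multiset (ℂ[X][Y])) (h : ∀ Q ∈ f, Irreducible Q) :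
    f.prod ≠ 0 ∧ Multiset.card f ≤ dg f.prod := by
  induction f using Multiset.induction_on with
  | empty => simp
  | cons Q f ih =>
    have h1 := ih fun R hR => h R (Multiset.mem_cons_of_mem hR)
    have h2 := h Q (Multiset.mem_cons_self Q f)
    rw [Multiset.prod_cons, Multiset.card_cons]
    refine ⟨mul_ne_zero h2.ne_zero h1.1, ?_⟩
    rw [dg_mul h2.ne_zero h1.1]
    have := dg_pos h2
    omega

theorem unit_val {u : ℂ[X][Y]} (hu : IsUnit u) (z w : ℂ) : u.evalEval z w ≠ 0 := by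
  obtain ⟨v, hv⟩ := hu.exists_right_inv
  intro h0
  have h1 : (u * v).evalEval z w = 0 := by rw [evalEval_mul, h0, zero_mul]
  rw [hv, evalEval_one] at h1
  exact one_ne_zero h1

theorem zero_prod (z w : ℂ) (f : Multiset (ℂ[X][Y])) (h : f.prod.evalEval z w = 0) :
    ∃ Q ∈ f, Q.evalEval z w = 0 := by
  induction f using Multiset.induction_on with
  | empty =>
    rw [Multiset.prod_zero, evalEval_one] at h
    exact absurd h one_ne_zero
  | cons Q f ih =>
    rw [Multiset.prod_cons, evalEval_mul] at h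
    rcases mul_eq_zero.mp h with h | h
    · exact ⟨Q, Multiset.mem_cons_self Q f, h⟩
    · obtain ⟨R, hR, hR0⟩ := ih h
      exact ⟨R, Multiset.mem_cons_of_mem hR, hR0⟩

end FAC

open FAC in
theorem FAC_thm : t_FAC := by
  classical
  intro a b G hG hd
  obtain ⟨f, hf, u, hu⟩ := WfDvdMonoid.exists_factors G hG
  have hdv : ∀ Q ∈ f, Q ∣ G := fun Q hQ => by
    rw [← hu]; exact (Multiset.dvd_prod hQ).mul_right _
  obtain ⟨h1, h2⟩ := card_le f hf
  refine ⟨f.toFinset, ?_, ?_, ?_⟩
  · have h3 : dg f.prod ≤ dg G := by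
      rw [← hu, dg_mul h1 u.ne_zero]; omega
    have h4 : dg G ≤ a + b := by
      unfold dg; exact add_le_add hd.1 hd.2
    have h5 := Multiset.toFinset_card_le f
    omega
  · intro Q hQ
    have hQ' := Multiset.mem_toFinset.mp hQ
    refine ⟨hf Q hQ', ?_, ?_⟩
    · refine (natDegree_le_of_dvd ?_ (swap_ne hG)).trans hd.1
      exact swap_dvd (hdv Q hQ')
    · exact (natDegree_le_of_dvd (hdv Q hQ') hG).trans hd.2
  · intro z w hz
    rw [← hu, evalEval_mul] at hz
    obtain ⟨Q, hQ, hQ0⟩ := zero_prod z w f ((mul_eq_zero.mp hz).resolve_right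
      (unit_val u.isUnit z w))
    exact ⟨Q, Multiset.mem_toFinset.mpr hQ, hQ0⟩

end Pool.Agent.CLU
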