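import Pool.Agent.CLU.StP
import Pool.Agent.RCX.Basic

/-!
# Sets of given diameter
-/

set_option autoImplicit false

open Pool.Agent.RCX

open scoped InnerProductSpace

namespace Pool.Agent.CLU

namespace GIP

/-- Small diameter. -/
theorem base (hC : t_CVR) (hS : t_SNG) (n : ℕ) (hn : n ≤ 7) (X : Finset Pl) (hX : Good X)
    (hd : ∀ x ∈ X, ∀ y ∈ X, dist x y ≤ 2 ^ n) : Cp 100001 X := by
  apply hS
  have h := hC X (99 / 100) 0 (by norm_num) ?_ ?_
  · simpa using h
  · intro x hx y hy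
    refine (hd x hx y hy).trans ?_
    have h1 : (2 : ℝ) ^ n ≤ 2 ^ 7 := pow_le_pow_right₀ (by norm_num) hn
    norm_num at h1 ⊢
    linarith
  · intro x hx U hU hy
    rw [Nat.le_zero, Finset.card_eq_zero]
    by_contra hne
    obtain ⟨y, hyU⟩ := Finset.nonempty_iff_ne_empty.mpr hne
    obtain ⟨h1, h2⟩ := hy y hyU
    have := hX.one_le hx (hU hyU) (Ne.symm h1)
    linarith

/-- One step. -/
theorem step (hT : t_TWO) (hC : t_CVR) (hCi : t_CIR) (hU : t_UNI) (hS : t_SNG) (hM : t_MRG)
    (m I : ℕ) (n k : ℕ) (hP : Par m I (2 ^ (n + 1) / 144) (12 * (2 ^ (n + 1) / 144)))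
    (X : Finset Pl) (hX : Good X) (hd : ∀ x ∈ X, ∀ y ∈ X, dist x y ≤ 2 ^ (n + 1))
    (ih : ∀ X' : Finset Pl, Good X' → (∀ x ∈ X', ∀ y ∈ X', dist x y ≤ 2 ^ n) → Cp k X') :
    Cp (k + (100000 * (nb m + mf m + mo m) + 100010)) X := by
  classical
  set ρ : ℝ := 2 ^ (n + 1) / 144 with hρ
  have hρpos : 0 < ρ := by positivity
  rcases hT m I ρ (12 * ρ) hP X hX with ⟨a, ha, E, hEX, hE, hx⟩ | ⟨c, r, E, hEX, hE, hx⟩
  · -- a disc
    have h1 : Cp k (X \ E) := by
      apply ih _ (hX.subset Finset.sdiff_subset)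
      intro x hx1 y hy1
      obtain ⟨hxX, hxE⟩ := Finset.mem_sdiff.mp hx1
      obtain ⟨hyX, hyE⟩ := Finset.mem_sdiff.mp hy1
      have e1 := hx x hxX hxE
      have e2 := hx y hyX hyE
      have e3 := dist_triangle_left x y a
      have e4 : 3 * (12 * ρ) + 3 * (12 * ρ) = 2 ^ n := by
        rw [hρ, pow_succ]; ring
      linarith
    have h2 : Cp (mf m + 1) E := hS (mf m) E hE
    have h3 : Cp (k + (mf m + 1)) X := by
      apply hU k (mf m + 1) (X \ E) E X h1 h2
      intro x hx
      rw [Finset.mem_union, Finset.mem_sdiff]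
      tauto
    refine hM.2 X _ _ ?_ h3
    omega
  · -- a circle
    have h1 : Cp 1 (X.filter fun x => dist c x = r) := by
      apply hCi _ c r
      intro x hx
      exact (Finset.mem_filter.mp hx).2
    have h2 : Cp (mo m + 1) E := hS (mo m) E hE
    set X2 : Finset Pl := X.filter fun x => dist c x ≠ r ∧ x ∉ E with hX2
    have h3 : X2.card ≤ 100000 * (nb m + 1) := by
      apply hC X2 ρ (nb m) hρpos
      · intro x hx y hy
        have e1 := hd x (Finset.mem_filter.mp hx).1 y (Finset.mem_filter.mp hy).1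
        refine e1.trans (le_of_eq ?_)
        rw [hρ]; ring
      · intro x hx1 U hU1 hy1
        obtain ⟨hxX, hxr, hxE⟩ := Finset.mem_filter.mp hx1
        apply hx x hxX hxr hxE U (hU1.trans (Finset.filter_subset _ _))
        intro y hy
        obtain ⟨-, hyr, hyE⟩ := Finset.mem_filter.mp (hU1 hy)
        obtain ⟨e1, e2⟩ := hy1 y hy
        exact ⟨e1, e2, hyr, hyE⟩
    have h4 : Cp (100000 * (nb m + 1) + 1) X2 := hS _ X2 h3
    have h5 : Cp (1 + (mo m + 1)) ((X.filter fun x => dist c x = r) ∪ E) :=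
      hU 1 (mo m + 1) _ E _ h1 h2 (Finset.Subset.refl _)
    have h6 : Cp (1 + (mo m + 1) + (100000 * (nb m + 1) + 1)) X := by
      apply hU _ _ ((X.filter fun x => dist c x = r) ∪ E) X2 X h5 h4
      intro x hx
      rw [Finset.mem_union, Finset.mem_union, Finset.mem_filter, hX2, Finset.mem_filter]
      tauto
    refine hM.2 X _ _ ?_ h6
    omega

end GIP

open GIP in
theorem GIP_thm (hT : t_TWO) (hC : t_CVR) (hCi : t_CIR) (hU : t_UNI) (hS : t_SNG) (hP : t_PR1)
    (hM : t_MRG) : t_GIP := by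
  obtain ⟨C0, hC0⟩ := hP
  set A : ℕ := 100000 * C0 + 100010 with hA
  have main : ∀ (n : ℕ) (X : Finset Pl), Good X →
      (∀ x ∈ X, ∀ y ∈ X, dist x y ≤ 2 ^ n) → Cp ((n + 1) * (A * (n + 1) ^ C0)) X := by
    intro n
    induction n with
    | zero =>
      intro X hX hd
      refine hM.2 X 100001 _ ?_ (base hC hS 0 (by norm_num) X hX hd)
      have : 1 ≤ (0 + 1) ^ C0 := Nat.one_le_pow _ _ (by norm_num)
      nlinarith
    | succ n ih =>
      intro X hX hd
      by_cases hn : n + 1 ≤ 7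
      · refine hM.2 X 100001 _ ?_ (base hC hS (n + 1) hn X hX hd)
        have h1 : 1 ≤ (n + 1 + 1) ^ C0 := Nat.one_le_pow _ _ (by omega)
        have h2 : 100001 ≤ A := by omega
        calc 100001 ≤ A := h2
          _ = 1 * (A * 1) := by ring
          _ ≤ (n + 1 + 1) * (A * (n + 1 + 1) ^ C0) :=
            Nat.mul_le_mul (by omega) (Nat.mul_le_mul_left _ h1)
      · push Not at hn
        have h8 : (256 : ℝ) ≤ 2 ^ (n + 1) := by
          have : (2 : ℝ) ^ 8 ≤ 2 ^ (n + 1) := pow_le_pow_right₀ (by norm_num) (by omega)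
          norm_num at this ⊢
          exact this
        obtain ⟨m, I, hPar, hbd⟩ := hC0 (2 ^ (n + 1) / 144) (by
          rw [le_div_iff₀ (by norm_num)]; linarith)
        have hstep := step hT hC hCi hU hS hM m I n _ hPar X hX hd ih
        refine hM.2 X _ _ ?_ hstep
        -- the numbers
        have hlog : Real.log (2 ^ (n + 1) / 144 + 2) ≤ ((n + 1 + 1 : ℕ) : ℝ) := by
          have h1 : (2 : ℝ) ^ (n + 1) / 144 + 2 ≤ 2 ^ (n + 1) := by
            rw [div_add' _ _ _ (by norm_num), div_le_iff₀ (by norm_num)]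
            linarith
          have h2 : Real.log (2 ^ (n + 1) / 144 + 2) ≤ Real.log (2 ^ (n + 1)) :=
            Real.log_le_log (by positivity) h1
          rw [Real.log_pow] at h2
          have h3 : Real.log 2 ≤ 1 := by
            have := Real.log_two_lt_d9
            linarith
          have h4 : ((n + 1 : ℕ) : ℝ) * Real.log 2 ≤ ((n + 1 : ℕ) : ℝ) * 1 :=
            mul_le_mul_of_nonneg_left h3 (Nat.cast_nonneg _)
          push_cast at h2 h4 ⊢
          linarith
        have hlog0 : 0 ≤ Real.log (2 ^ (n + 1) / 144 + 2) := by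
          apply Real.log_nonneg
          have : (0 : ℝ) ≤ 2 ^ (n + 1) / 144 := by positivity
          linarith
        have hnum : nb m + mf m + mo m ≤ C0 * (n + 1 + 1) ^ C0 := by
          have h1 : Real.log (2 ^ (n + 1) / 144 + 2) ^ C0 ≤ ((n + 1 + 1 : ℕ) : ℝ) ^ C0 :=
            pow_le_pow_left₀ hlog0 hlog _
          have h2 : ((nb m + mf m + mo m : ℕ) : ℝ) ≤ C0 * ((n + 1 + 1 : ℕ) : ℝ) ^ C0 :=
            hbd.trans (mul_le_mul_of_nonneg_left h1 (Nat.cast_nonneg _))
          exact_mod_cast h2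
        have hp1 : 1 ≤ (n + 1 + 1) ^ C0 := Nat.one_le_pow _ _ (by omega)
        have hP1 : 100000 * (nb m + mf m + mo m) + 100010 ≤ A * (n + 1 + 1) ^ C0 := by
          calc 100000 * (nb m + mf m + mo m) + 100010
              ≤ 100000 * (C0 * (n + 1 + 1) ^ C0) + 100010 * (n + 1 + 1) ^ C0 := by
                apply Nat.add_le_add (Nat.mul_le_mul_left _ hnum)
                exact Nat.le_mul_of_pos_right _ (by omega)
            _ = A * (n + 1 + 1) ^ C0 := by rw [hA]; ring
        have hP2 : (n + 1) * (A * (n + 1) ^ C0) ≤ (n + 1) * (A * (n + 1 + 1) ^ C0) := by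
          apply Nat.mul_le_mul_left
          apply Nat.mul_le_mul_left
          exact Nat.pow_le_pow_left (by omega) _
        calc (n + 1) * (A * (n + 1) ^ C0) + (100000 * (nb m + mf m + mo m) + 100010)
            ≤ (n + 1) * (A * (n + 1 + 1) ^ C0) + A * (n + 1 + 1) ^ C0 :=
              Nat.add_le_add hP2 hP1
          _ = (n + 1 + 1) * (A * (n + 1 + 1) ^ C0) := by ring
  refine ⟨A + C0 + 1, fun n X hX hd => ?_⟩
  refine hM.2 X _ _ ?_ (main n X hX hd)
  calc (n + 1) * (A * (n + 1) ^ C0) = A * (n + 1) ^ (C0 + 1) := by ring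
    _ ≤ (A + C0 + 1) * (n + 1) ^ (A + C0 + 1) := by
      apply Nat.mul_le_mul (by omega)
      exact Nat.pow_le_pow_right (by omega) (by omega)

end Pool.Agent.CLU
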