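import Pool.Agent.CLU.StX

/-!
# CLU: GPC
-/

set_option autoImplicit false

open Pool.Agent.RCX

namespace Pool.Agent.CLU

namespace GPC

/-- small diameters -/
theorem small (h2 : t_CVR) (X : Finset Pl) (hX : Good X)
    (hd : ∀ x ∈ X, ∀ y ∈ X, dist x y ≤ 2 ^ 7) : X.card ≤ 100000 := by
  have := h2 X (99 / 100) 0 (by norm_num) (by
    intro x hx y hy
    refine (hd x hx y hy).trans ?_
    norm_num) (by
    intro x hx U hU hUx
    rw [Nat.le_zero, Finset.card_eq_zero]
    by_contra hne
    obtain ⟨y, hy⟩ := Finset.nonempty_iff_ne_empty.2 hne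
    obtain ⟨h3, h4⟩ := hUx y hy
    have := hX.one_le hx (hU hy) h3.symm
    linarith)
  simpa using this

end GPC

theorem GPC_thm (h1 : t_TWO) (h2 : t_CVR) (h3 : t_PR1) : t_GPC := by
  classical
  obtain ⟨C, hC⟩ := h3
  set A : ℕ := 1000000 * (C + 1) with hA
  suffices key : ∀ (n : ℕ) (X : Finset Pl), Good X → (∀ x ∈ X, ∀ y ∈ X, dist x y ≤ 2 ^ n) →
      ∃ (c : Pl) (r : ℝ), ∀ U ⊆ X, (∀ y ∈ U, dist c y ≠ r) → U.card ≤ A * (n + 1) ^ (C + 1) by
    refine ⟨A, fun n X hX hd => ?_⟩
    obtain ⟨c, r, h⟩ := key n X hX hd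
    refine ⟨c, r, fun U hU hUx => (h U hU hUx).trans ?_⟩
    refine Nat.mul_le_mul_left A (Nat.pow_le_pow_right (Nat.succ_pos n) ?_)
    rw [hA]
    omega
  intro n
  induction n with
  | zero =>
    intro X hX hd
    refine ⟨0, -1, fun U hU _ => ?_⟩
    have h4 := GPC.small h2 X hX (fun x hx y hy => (hd x hx y hy).trans (by norm_num))
    have h5 := Finset.card_le_card hU
    have h6 : 1 ≤ (0 + 1) ^ (C + 1) := Nat.one_le_pow _ _ (by omega)
    have h7 : A * 1 ≤ A * (0 + 1) ^ (C + 1) := Nat.mul_le_mul_left A h6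
    omega
  | succ n ih =>
    intro X hX hd
    by_cases hn : n + 1 ≤ 7
    · refine ⟨0, -1, fun U hU _ => ?_⟩
      have h4 := GPC.small h2 X hX (fun x hx y hy => (hd x hx y hy).trans
        (pow_le_pow_right₀ (by norm_num) hn))
      have h5 := Finset.card_le_card hU
      have h6 : 1 ≤ (n + 1 + 1) ^ (C + 1) := Nat.one_le_pow _ _ (by omega)
      have h7 : A * 1 ≤ A * (n + 1 + 1) ^ (C + 1) := Nat.mul_le_mul_left A h6
      omega
    · set N := n + 1 with hN
      have hN8 : 8 ≤ N := by omega
      set ρ : ℝ := 2 ^ N / 144 with hρ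
      have h256 : (256 : ℝ) ≤ 2 ^ N := by
        calc (256 : ℝ) = 2 ^ 8 := by norm_num
          _ ≤ 2 ^ N := pow_le_pow_right₀ (by norm_num) hN8
      have hρ1 : 1 ≤ ρ := by
        rw [hρ, le_div_iff₀ (by norm_num)]
        linarith
      obtain ⟨m, I, hP, hb⟩ := hC ρ hρ1
      have hlog : Real.log (ρ + 2) ≤ (N + 1 : ℕ) := by
        have a1 : ρ + 2 ≤ 2 ^ N := by
          rw [hρ]
          linarith
        have a2 : Real.log (ρ + 2) ≤ Real.log (2 ^ N) := Real.log_le_log (by linarith) a1
        rw [Real.log_pow] at a2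
        have a3 : Real.log 2 ≤ 1 := by
          have := Real.log_two_lt_d9
          linarith
        have a4 : (0 : ℝ) ≤ N := Nat.cast_nonneg N
        have a5 : (N : ℝ) * Real.log 2 ≤ N * 1 := mul_le_mul_of_nonneg_left a3 a4
        rw [Nat.cast_add, Nat.cast_one]
        linarith
      have hlog0 : 0 ≤ Real.log (ρ + 2) := Real.log_nonneg (by linarith)
      have hbN : nb m + mf m + mo m ≤ C * (N + 1) ^ C := by
        have a1 : ((nb m + mf m + mo m : ℕ) : ℝ) ≤ C * ((N + 1 : ℕ) : ℝ) ^ C :=
          hb.trans (mul_le_mul_of_nonneg_left (pow_le_pow_left₀ hlog0 hlog C)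
            (Nat.cast_nonneg C))
        exact_mod_cast a1
      have hpow : (N + 1) ^ (C + 1) = (N + 1) * (N + 1) ^ C := by rw [pow_succ]; ring
      have hp1 : 1 ≤ (N + 1) ^ C := Nat.one_le_pow _ _ (by omega)
      rcases h1 m I ρ (12 * ρ) hP X hX with ⟨a, ha, E, hE, hEc, hEx⟩ | ⟨c, r, E, hE, hEc, hEx⟩
      · obtain ⟨c, r, h⟩ := ih (X \ E) (hX.subset Finset.sdiff_subset) (by
          intro x hx y hy
          rw [Finset.mem_sdiff] at hx hy
          have a1 := hEx x hx.1 hx.2
          have a2 := hEx y hy.1 hy.2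
          have a3 := dist_triangle_left x y a
          have a4 : 3 * (12 * ρ) + 3 * (12 * ρ) = 2 ^ n := by
            rw [hρ, hN, pow_succ]
            ring
          linarith)
        refine ⟨c, r, fun U hU hUx => ?_⟩
        have b1 : (U \ E).card ≤ A * (n + 1) ^ (C + 1) := by
          refine h (U \ E) (Finset.sdiff_subset_sdiff hU (le_refl E)) ?_
          intro y hy
          exact hUx y (Finset.mem_sdiff.1 hy).1
        have b2 : U.card ≤ (U \ E).card + E.card := by
          have := Finset.card_le_card_sdiff_add_card (s := U) (t := E)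
          omega
        have b3 : (n + 1) ^ (C + 1) ≤ N * (N + 1) ^ C := by
          rw [pow_succ, mul_comm]
          exact Nat.mul_le_mul_left _ (Nat.pow_le_pow_left (by omega) C)
        have b4 : A * (n + 1) ^ (C + 1) ≤ A * (N * (N + 1) ^ C) := Nat.mul_le_mul_left A b3
        have b5 : A * (N + 1) ^ (C + 1) = A * (N * (N + 1) ^ C) + A * (N + 1) ^ C := by
          rw [hpow]
          ring
        have b6 : C * (N + 1) ^ C ≤ A * (N + 1) ^ C := Nat.mul_le_mul_right _ (by omega)
        omega
      · refine ⟨c, r, fun U hU hUx => ?_⟩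
        have b1 : (U \ E).card ≤ 100000 * (nb m + 1) := by
          refine h2 (U \ E) ρ (nb m) (by linarith) ?_ ?_
          · intro x hx y hy
            rw [Finset.mem_sdiff] at hx hy
            refine (hd x (hU hx.1) y (hU hy.1)).trans (le_of_eq ?_)
            rw [hρ]
            ring
          · intro x hx V hV hVx
            rw [Finset.mem_sdiff] at hx
            refine hEx x (hU hx.1) (hUx x hx.1) hx.2 V
              (hV.trans (Finset.sdiff_subset.trans hU)) ?_
            intro y hy
            have := Finset.mem_sdiff.1 (hV hy)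
            exact ⟨(hVx y hy).1, (hVx y hy).2, hUx y this.1, this.2⟩
        have b2 : U.card ≤ (U \ E).card + E.card := by
          have := Finset.card_le_card_sdiff_add_card (s := U) (t := E)
          omega
        have b5 : A * (N + 1) ^ (C + 1) = A * (N * (N + 1) ^ C) + A * (N + 1) ^ C := by
          rw [hpow]
          ring
        have b6 : A * (N + 1) ^ C = 1000000 * (C * (N + 1) ^ C) + 1000000 * (N + 1) ^ C := by
          rw [hA]
          ring
        omega

end Pool.Agent.CLU
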