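import Pool.Agent.CLU.St

/-!
# Clusters of integral point sets: the equation of the near points
-/

set_option autoImplicit false

open Polynomial Polynomial.Bivariate ComplexConjugate

namespace Pool.Agent.CLU

namespace GPO

theorem map_aev {σ B B' : Type} [CommRing B] [CommRing B'] (φ : B →+* B') (f : σ → B)
    (U : MvPolynomial σ ℤ) :
    φ (MvPolynomial.aeval f U) = MvPolynomial.aeval (fun i => φ (f i)) U :=
  MvPolynomial.comp_aeval_apply f φ.toIntAlgHom U

/-- The degree of a value of `U`. -/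
theorem natDegree_aev {m g : ℕ} {R : Type} [CommRing R] (f : Finset (Fin m) ⊕ Fin m → R[X])
    (h0 : ∀ L, (f (Sum.inl L)).natDegree ≤ 0) (h1 : ∀ j, (f (Sum.inr j)).natDegree ≤ 1)
    (U : MvPolynomial (Finset (Fin m) ⊕ Fin m) ℤ)
    (hU : ∀ d ∈ U.support, ∑ j, d (Sum.inr j) ≤ g) :
    (MvPolynomial.aeval f U).natDegree ≤ g := by
  rw [MvPolynomial.aeval_def, MvPolynomial.eval₂_eq']
  refine Polynomial.natDegree_sum_le_of_forall_le _ _ fun d hd => ?_
  refine le_trans Polynomial.natDegree_mul_le ?_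
  have e1 : ((algebraMap ℤ R[X]) (MvPolynomial.coeff d U)).natDegree = 0 := by
    rw [eq_intCast]
    exact Polynomial.natDegree_intCast _
  rw [e1, zero_add]
  refine le_trans (Polynomial.natDegree_prod_le _ _) ?_
  refine le_trans (Finset.sum_le_sum fun i _ => Polynomial.natDegree_pow_le) ?_
  rw [Fintype.sum_sum_type]
  have e2 : ∑ L, d (Sum.inl L) * (f (Sum.inl L)).natDegree ≤ 0 := by
    refine le_trans (Finset.sum_le_sum fun L _ => Nat.mul_le_mul_left _ (h0 L)) ?_
    simp
  have e3 : ∑ j, d (Sum.inr j) * (f (Sum.inr j)).natDegree ≤ ∑ j, d (Sum.inr j) := by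
    refine Finset.sum_le_sum fun j _ => ?_
    have := Nat.mul_le_mul_left (d (Sum.inr j)) (h1 j)
    omega
  have := hU d hd
  omega

/-- The coefficients of the expanded relation. -/
noncomputable def cp {m : ℕ} (c : Finset (Fin m) → ℂ) (α : Fin m → ℝ) (L : Finset (Fin m)) : ℂ :=
  ∑ J, if L ⊆ J then c J * ∏ j ∈ J \ L, -(α j : ℂ) else 0

theorem expand_rel {m : ℕ} (c : Finset (Fin m) → ℂ) (α : Fin m → ℝ) (t : Fin m → ℂ) :
    ∑ J, c J * ∏ j ∈ J, (t j - α j) = ∑ L, cp c α L * ∏ j ∈ L, t j := by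
  have e1 : ∀ J : Finset (Fin m), c J * ∏ j ∈ J, (t j - α j) =
      ∑ L : Finset (Fin m), if L ⊆ J then c J * (∏ j ∈ J \ L, -(α j : ℂ)) * ∏ j ∈ L, t j else 0 := by
    intro J
    have e2 : ∏ j ∈ J, (t j - α j) =
        ∑ L ∈ J.powerset, (∏ j ∈ L, t j) * ∏ j ∈ J \ L, -(α j : ℂ) := by
      rw [← Finset.prod_add]
      exact Finset.prod_congr rfl fun j _ => sub_eq_add_neg _ _
    rw [e2, Finset.mul_sum, ← Finset.sum_filter]
    have e3 : Finset.univ.filter (fun L : Finset (Fin m) => L ⊆ J) = J.powerset := by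
      ext L
      simp
    rw [e3]
    refine Finset.sum_congr rfl fun L _ => ?_
    ring
  rw [Finset.sum_congr rfl fun J _ => e1 J, Finset.sum_comm]
  refine Finset.sum_congr rfl fun L _ => ?_
  unfold cp
  rw [Finset.sum_mul]
  refine Finset.sum_congr rfl fun J _ => ?_
  split_ifs <;> ring

theorem cp_ne_zero {m : ℕ} {c : Finset (Fin m) → ℂ} (hc : c ≠ 0) (α : Fin m → ℝ) :
    ∃ L, cp c α L ≠ 0 := by
  classical
  obtain ⟨J0, hJ0⟩ := Function.ne_iff.1 hc
  have hne : (Finset.univ.filter fun J => c J ≠ 0).Nonempty := ⟨J0, by simpa using hJ0⟩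
  obtain ⟨J, hJ, hmax⟩ := Finset.exists_max_image _ Finset.card hne
  refine ⟨J, ?_⟩
  have hcJ : c J ≠ 0 := (Finset.mem_filter.1 hJ).2
  have : cp c α J = c J := by
    unfold cp
    rw [Finset.sum_eq_single J]
    · simp
    · intro J' _ hJ'
      split_ifs with hs
      · have h0 : c J' = 0 := by
          by_contra hne'
          have h1 := hmax J' (Finset.mem_filter.2 ⟨Finset.mem_univ _, hne'⟩)
          exact hJ' (Finset.eq_of_subset_of_card_le hs h1).symm
        rw [h0, zero_mul]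
      · rfl
    · intro h
      exact absurd (Finset.mem_univ J) h
  rwa [this]

theorem natDegree_qp (p : ℂ) : (qp p).natDegree ≤ 1 := by
  unfold qp
  refine le_trans Polynomial.natDegree_mul_le ?_
  rw [Polynomial.natDegree_C, zero_add]
  exact (Polynomial.natDegree_X_sub_C_le _)

theorem natDegree_swap_qp (p : ℂ) : (Bivariate.swap (qp p)).natDegree ≤ 1 := by
  unfold qp
  rw [map_mul, Bivariate.swap_C, map_sub, Bivariate.swap_Y, Bivariate.swap_C_C, Polynomial.map_sub,
    Polynomial.map_X, Polynomial.map_C]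
  refine le_trans Polynomial.natDegree_mul_le ?_
  have h1 : ((X : ℂ[X][Y]) - C (C p)).natDegree ≤ 1 := Polynomial.natDegree_X_sub_C_le _
  have h2 : ((C X : ℂ[X][Y]) - C (C (conj p))).natDegree = 0 := by
    rw [← C_sub, Polynomial.natDegree_C]
  omega

theorem evalEval_qp (p b : ℂ) : (qp p).evalEval b (conj b) = ((‖b - p‖ : ℝ) : ℂ) ^ 2 := by
  unfold qp
  simp only [Polynomial.evalEval, Polynomial.eval_mul, Polynomial.eval_sub, Polynomial.eval_C,
    Polynomial.eval_X]
  rw [← Complex.mul_conj', map_sub]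

end GPO

open GPO in
theorem GPO_thm (hN : t_NRM) : t_GPO := by
  intro m p α N c hc hrel
  obtain ⟨U, hU1, hU2, hU3⟩ := hN m
  set f : Finset (Fin m) ⊕ Fin m → ℂ[X][Y] :=
    Sum.elim (fun L => C (C (cp c α L))) (fun j => qp (p j)) with hf
  refine ⟨MvPolynomial.aeval f U, ⟨?_, ?_⟩, fun b hb => ?_, fun K _ _ ψ hψ => ?_⟩
  · have h1 := map_aev (Bivariate.swap (R := ℂ) : ℂ[X][Y] ≃ₐ[ℂ] ℂ[X][Y]).toRingEquiv.toRingHom f U
    have h2 : Bivariate.swap (MvPolynomial.aeval f U) =
        MvPolynomial.aeval (fun i => Bivariate.swap (f i)) U := h1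
    rw [h2]
    refine natDegree_aev _ (fun L => ?_) (fun j => ?_) U hU1
    · show (Bivariate.swap (C (C (cp c α L)))).natDegree ≤ 0
      rw [Bivariate.swap_C_C, Polynomial.natDegree_C]
    · exact natDegree_swap_qp (p j)
  · refine natDegree_aev _ (fun L => ?_) (fun j => ?_) U hU1
    · show (C (C (cp c α L))).natDegree ≤ 0
      rw [Polynomial.natDegree_C]
    · exact natDegree_qp (p j)
  · have h1 := map_aev (Polynomial.evalEvalRingHom b (conj b)) f U
    have h2 : (MvPolynomial.aeval f U).evalEval b (conj b) =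
        MvPolynomial.aeval (fun i => (f i).evalEval b (conj b)) U := h1
    have h3 : (fun i => (f i).evalEval b (conj b)) =
        Sum.elim (cp c α) (fun j => (((‖b - p j‖ : ℝ) : ℂ)) ^ 2) := by
      funext i
      rcases i with L | j
      · show (C (C (cp c α L))).evalEval b (conj b) = cp c α L
        simp [Polynomial.evalEval]
      · exact evalEval_qp (p j) b
    rw [h2, h3]
    refine hU2 ℂ (cp c α) (fun j => ((‖b - p j‖ : ℝ) : ℂ)) ?_
    rw [← expand_rel, ← hrel b hb]
    refine Finset.sum_congr rfl fun J _ => ?_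
    congr 1
    refine Finset.prod_congr rfl fun j _ => ?_
    push_cast
    rfl
  · have h1 : ψ (MvPolynomial.aeval f U) = MvPolynomial.aeval (fun i => ψ (f i)) U := map_aev ψ f U
    rw [h1]
    have h3 : (fun i => ψ (f i)) =
        Sum.elim (fun L => ψ (C (C (cp c α L)))) (fun j => ψ (qp (p j))) := by
      funext i
      rcases i with L | j <;> rfl
    rw [h3]
    refine hU3 K (fun j => ψ (qp (p j))) hψ _ ?_
    obtain ⟨L, hL⟩ := cp_ne_zero hc α
    intro h0
    have h4 : ψ (C (C (cp c α L))) = 0 := congrFun h0 L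
    have h5 : (ψ.comp ((Polynomial.C : ℂ[X] →+* ℂ[X][Y]).comp (Polynomial.C : ℂ →+* ℂ[X])))
        (cp c α L) = 0 := h4
    exact hL ((map_eq_zero _).1 h5)

end Pool.Agent.CLU
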