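import Pool.Agent.CLU.St

/-!
# Simple points over almost all z (module GPT of project CLU)
-/

set_option autoImplicit false

open Polynomial Polynomial.Bivariate ComplexConjugate

namespace Pool.Agent.CLU.GPT

/-- coefficients of the swapped polynomial -/
theorem coeff_swap (Q : ℂ[X][Y]) (i j : ℕ) :
    ((Bivariate.swap Q).coeff i).coeff j = (Q.coeff j).coeff i := by
  induction Q using Polynomial.induction_on' with
  | add p q hp hq => simp only [map_add, coeff_add, hp, hq]
  | monomial n a =>
    induction a using Polynomial.induction_on' with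
    | add p q hp hq => simp only [map_add, coeff_add, hp, hq]
    | monomial m r =>
      rw [Bivariate.swap_monomial_monomial]
      simp only [coeff_monomial]
      split_ifs <;> simp_all [coeff_monomial]

theorem degX_iff (Q : ℂ[X][Y]) (k : ℕ) :
    (Bivariate.swap Q).natDegree ≤ k ↔ ∀ j, (Q.coeff j).natDegree ≤ k := by
  constructor
  · intro h j
    rw [natDegree_le_iff_coeff_eq_zero]
    intro i hi
    rw [← coeff_swap, coeff_eq_zero_of_natDegree_lt (h.trans_lt hi), coeff_zero]
  · intro h
    rw [natDegree_le_iff_coeff_eq_zero]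
    intro i hi
    ext j
    rw [coeff_swap, coeff_eq_zero_of_natDegree_lt ((h j).trans_lt hi), coeff_zero]

theorem bideg_derivative {g : ℕ} {Q : ℂ[X][Y]} (h : BiDeg g g Q) : BiDeg g g (derivative Q) := by
  refine ⟨?_, (natDegree_derivative_le _).trans ((Nat.sub_le _ _).trans h.2)⟩
  rw [degX_iff]
  intro j
  rw [coeff_derivative]
  have h1 : ((Q.coeff (j + 1)) * ((j : ℂ[X]) + 1)).natDegree ≤ (Q.coeff (j + 1)).natDegree + 0 := by
    refine natDegree_mul_le.trans (add_le_add le_rfl ?_)
    have h2 : ((j : ℂ[X]) + 1) = C ((j : ℂ) + 1) := by simp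
    rw [h2, natDegree_C]
  exact h1.trans ((degX_iff Q g).1 h.1 _)

theorem finite_of_bound {α : Type} (S : Set α) (n : ℕ) (h : ∀ Z : Finset α, ↑Z ⊆ S → Z.card ≤ n) :
    ∃ T : Finset α, ↑T = S ∧ T.card ≤ n := by
  have hf : S.Finite := by
    by_contra hinf
    obtain ⟨t, ht, hc⟩ := Set.Infinite.exists_subset_card_eq hinf (n + 1)
    have := h t ht
    omega
  exact ⟨hf.toFinset, hf.coe_toFinset, h _ (by rw [hf.coe_toFinset])⟩

theorem main (h1 : t_BEZ) : t_GPT := by
  classical
  intro g Q hQ hdeg hpos
  have hQ0 : Q ≠ 0 := hQ.ne_zero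
  have hd0 : derivative Q ≠ 0 := by
    intro h
    have := Polynomial.derivative_eq_zero.1 h
    omega
  have hnd : ¬ Q ∣ derivative Q := by
    intro h
    have h2 := natDegree_le_of_dvd h hd0
    have h3 := natDegree_derivative_lt (p := Q) (by omega)
    omega
  obtain ⟨T, hT, hTc⟩ := finite_of_bound
    {p : ℂ × ℂ | Q.evalEval p.1 p.2 = 0 ∧ (derivative Q).evalEval p.1 p.2 = 0} (g * g + g * g)
    (fun Z hZ => h1 Q (derivative Q) g g g g hQ hnd hdeg (bideg_derivative hdeg) Z
      (fun p hp => hZ hp))
  have hlc0 : Q.leadingCoeff ≠ 0 := leadingCoeff_ne_zero.2 hQ0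
  refine ⟨T.image Prod.fst ∪ Q.leadingCoeff.roots.toFinset, ?_, ?_⟩
  · refine (Finset.card_union_le _ _).trans ?_
    refine add_le_add (Finset.card_image_le.trans (hTc.trans (by nlinarith))) ?_
    refine (Multiset.toFinset_card_le _).trans ((card_roots' _).trans ?_)
    exact (degX_iff Q g).1 hdeg.1 _
  · intro z hz
    rw [Finset.mem_union, not_or, Finset.mem_image, Multiset.mem_toFinset,
      mem_roots hlc0] at hz
    obtain ⟨hz1, hz2⟩ := hz
    set q : ℂ[X] := Q.map (evalRingHom z) with hq
    have hqd : q.natDegree = Q.natDegree := by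
      rw [hq]
      exact natDegree_map_of_leadingCoeff_ne_zero _ hz2
    have hq0 : q ≠ 0 := by
      intro h
      rw [h, natDegree_zero] at hqd
      omega
    have hev : ∀ w, q.eval w = Q.evalEval z w := fun w => map_evalRingHom_eval z w Q
    have hev' : ∀ w, (derivative q).eval w = (derivative Q).evalEval z w := by
      intro w
      rw [hq, derivative_map]
      exact map_evalRingHom_eval z w _
    have hsimple : ∀ w, Q.evalEval z w = 0 → (derivative Q).evalEval z w ≠ 0 := by
      intro w hw hw'
      refine hz1 ⟨(z, w), ?_, rfl⟩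
      have : (z, w) ∈ (↑T : Set (ℂ × ℂ)) := by
        rw [hT]; exact ⟨hw, hw'⟩
      exact this
    refine ⟨q.roots.toFinset, ?_, ?_⟩
    · have hnodup : q.roots.Nodup := by
        rw [Multiset.nodup_iff_count_le_one]
        intro w
        rw [count_roots]
        by_contra hlt
        rw [not_le] at hlt
        have hr := (one_lt_rootMultiplicity_iff_isRoot hq0).1 hlt
        refine hsimple w ?_ ?_
        · rw [← hev]; exact hr.1
        · rw [← hev']; exact hr.2
      rw [Multiset.toFinset_card_of_nodup hnodup, ← hqd]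
      exact (splits_iff_card_roots.1 (IsAlgClosed.splits q))
    · intro w hw
      rw [Multiset.mem_toFinset, mem_roots hq0] at hw
      have h5 : Q.evalEval z w = 0 := by rw [← hev]; exact hw
      exact ⟨h5, hsimple w h5⟩

end Pool.Agent.CLU.GPT

namespace Pool.Agent.CLU

theorem GPT_thm (h1 : t_BEZ) : t_GPT := GPT.main h1

end Pool.Agent.CLU
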