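import Pool.Agent.CLU.St

/-!
# A simple root is the constant term of a power series solution (project CLU, module HEN)
-/

set_option autoImplicit false

open Polynomial Polynomial.Bivariate ComplexConjugate

namespace Pool.Agent.CLU

namespace HEN

/-- one Newton step for a polynomial over the power series -/
lemma step (q : (PowerSeries ℂ)[X]) (w : ℂ)
    (hd : ∀ f : PowerSeries ℂ, PowerSeries.constantCoeff f = w →
      PowerSeries.constantCoeff ((derivative q).eval f) ≠ 0)
    (n : ℕ) (f : PowerSeries ℂ) (hf : PowerSeries.constantCoeff f = w)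
    (h : (PowerSeries.X : PowerSeries ℂ) ^ (n + 1) ∣ q.eval f) :
    ∃ g : PowerSeries ℂ, PowerSeries.constantCoeff g = w ∧
      (PowerSeries.X : PowerSeries ℂ) ^ (n + 1 + 1) ∣ q.eval g ∧
      (PowerSeries.X : PowerSeries ℂ) ^ (n + 1) ∣ g - f := by
  obtain ⟨r, hr⟩ := h
  have hd0 := hd f hf
  set d := (derivative q).eval f with hdd
  set c : ℂ := - PowerSeries.constantCoeff r / PowerSeries.constantCoeff d with hc
  set y : PowerSeries ℂ := PowerSeries.C c * PowerSeries.X ^ (n + 1) with hy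
  obtain ⟨k, hk⟩ := q.binomExpansion f y
  refine ⟨f + y, ?_, ?_, ?_⟩
  · rw [map_add, hf, hy]
    simp
  · rw [hk, hr, ← hdd]
    have e : PowerSeries.X ^ (n + 1) * r + d * y + k * y ^ 2
        = PowerSeries.X ^ (n + 1) *
          (r + d * PowerSeries.C c + k * (PowerSeries.C c) ^ 2 * PowerSeries.X ^ (n + 1)) := by
      rw [hy]; ring
    rw [e, pow_succ (PowerSeries.X : PowerSeries ℂ) (n + 1)]
    refine mul_dvd_mul_left _ ?_
    rw [PowerSeries.X_dvd_iff]
    simp only [map_add, map_mul, map_pow, PowerSeries.constantCoeff_C, PowerSeries.constantCoeff_X,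
      ne_eq, Nat.add_eq_zero_iff, one_ne_zero, and_false, not_false_eq_true, zero_pow, mul_zero,
      add_zero]
    rw [hc]
    field_simp
    ring
  · rw [add_sub_cancel_left, hy]
    exact dvd_mul_left _ _

/-- Hensel's lemma for a simple root of a polynomial over the power series -/
lemma main (q : (PowerSeries ℂ)[X]) (w : ℂ)
    (h0 : PowerSeries.constantCoeff (q.eval (PowerSeries.C w)) = 0)
    (hd : ∀ f : PowerSeries ℂ, PowerSeries.constantCoeff f = w →
      PowerSeries.constantCoeff ((derivative q).eval f) ≠ 0) :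
    ∃ f : PowerSeries ℂ, PowerSeries.constantCoeff f = w ∧ q.eval f = 0 := by
  let T : ℕ → Type := fun n => {f : PowerSeries ℂ // PowerSeries.constantCoeff f = w ∧
      (PowerSeries.X : PowerSeries ℂ) ^ (n + 1) ∣ q.eval f}
  have hs : ∀ (n : ℕ) (f : T n), ∃ g : T (n + 1),
      (PowerSeries.X : PowerSeries ℂ) ^ (n + 1) ∣ g.1 - f.1 := by
    intro n f
    obtain ⟨g, h1, h2, h3⟩ := step q w hd n f.1 f.2.1 f.2.2
    exact ⟨⟨g, h1, h2⟩, h3⟩
  choose nx hnx using hs
  have t0 : (PowerSeries.X : PowerSeries ℂ) ^ (0 + 1) ∣ q.eval (PowerSeries.C w) := by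
    rw [zero_add, pow_one, PowerSeries.X_dvd_iff]
    exact h0
  let F : ∀ n, T n := fun n => Nat.rec (motive := T) ⟨PowerSeries.C w, by simp, t0⟩ nx n
  have hF : ∀ n, (PowerSeries.X : PowerSeries ℂ) ^ (n + 1) ∣ (F (n + 1)).1 - (F n).1 :=
    fun n => hnx n (F n)
  have hco : ∀ m k, PowerSeries.coeff m (F (m + k)).1 = PowerSeries.coeff m (F m).1 := by
    intro m k
    induction k with
    | zero => rfl
    | succ k ih =>
      rw [← ih]
      have h1 := PowerSeries.X_pow_dvd_iff.1 (hF (m + k)) m (by omega)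
      rw [map_sub, sub_eq_zero] at h1
      exact h1
  set f : PowerSeries ℂ := PowerSeries.mk fun n => PowerSeries.coeff n (F n).1 with hf
  have hfn : ∀ n, (PowerSeries.X : PowerSeries ℂ) ^ (n + 1) ∣ f - (F n).1 := by
    intro n
    rw [PowerSeries.X_pow_dvd_iff]
    intro m hm
    obtain ⟨k, rfl⟩ : ∃ k, n = m + k := ⟨n - m, by omega⟩
    rw [map_sub, hf, PowerSeries.coeff_mk, hco, sub_self]
  refine ⟨f, ?_, ?_⟩
  · have h1 := (F 0).2.1
    rw [← PowerSeries.coeff_zero_eq_constantCoeff_apply] at h1 ⊢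
    rw [hf, PowerSeries.coeff_mk]
    exact h1
  · ext n
    have h1 : (PowerSeries.X : PowerSeries ℂ) ^ (n + 1) ∣ q.eval f := by
      have h2 := (hfn n).trans (Polynomial.sub_dvd_eval_sub f (F n).1 q)
      have h3 := dvd_add h2 (F n).2.2
      rwa [sub_add_cancel] at h3
    rw [PowerSeries.X_pow_dvd_iff.1 h1 n (Nat.lt_succ_self n), map_zero]

end HEN

theorem HEN_thm : t_HEN := by
  intro Q z w h0 h1
  set φ : ℂ[X] →+* PowerSeries ℂ := Polynomial.eval₂RingHom (PowerSeries.C (R := ℂ))
      (PowerSeries.C (R := ℂ) z + PowerSeries.X) with hφ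
  have hφc : (PowerSeries.constantCoeff (R := ℂ)).comp φ = evalRingHom z := by
    apply Polynomial.ringHom_ext
    · intro a
      simp [hφ]
    · simp [hφ]
  have key : ∀ (P : ℂ[X][Y]) (f : PowerSeries ℂ), PowerSeries.constantCoeff f = w →
      PowerSeries.constantCoeff ((P.map φ).eval f) = P.evalEval z w := by
    intro P f hf
    rw [Polynomial.eval_map, Polynomial.hom_eval₂, hφc, hf, Polynomial.eval₂_evalRingHom]
  obtain ⟨f, hf, hq⟩ := HEN.main (Q.map φ) w (by rw [key Q _ (by simp), h0]) (by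
    intro f hf
    rw [Polynomial.derivative_map, key _ f hf]
    exact h1)
  exact ⟨f, hf, by rw [← Polynomial.eval_map]; exact hq⟩

end Pool.Agent.CLU
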