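import Pool.Agent.CLU.StP

/-! # CLU: ITR, iteration of TWO -/

set_option autoImplicit false

open Pool.Agent.RCX

namespace Pool.Agent.CLU

namespace ITR

theorem good_sub {X Y : Finset Pl} (h : Good X) (hY : Y ⊆ X) : Good Y :=
  ⟨fun a ha b hb c hc => h.1 a (hY ha) b (hY hb) c (hY hc), fun a ha b hb => h.2 a (hY ha) b (hY hb)⟩

theorem ws_mono (h2 : t_WSU) {ε : ℝ} (h0 : 0 < ε) (h1 : ε < 1) {k l : ℕ} {S : Finset Pl}
    (hkl : k ≤ l) (h : WS ε k S) : WS ε l S := by
  rcases Nat.eq_zero_or_pos k with rfl | hk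
  · obtain ⟨f, -⟩ := h
    exact (f 0).elim0
  · exact (h2 ε h0 h1).2.2.2.2.1 k l S hk hkl h

theorem step (h1 : t_TWO) (h2 : t_WSU) (h3 : t_BDC) (h4 : t_PR2) {ε : ℝ} (he : 0 < ε) (he1 : ε < 1)
    (A : ℝ) (θ : ℝ) (C : ℕ) (hA : 0 < A) (hθ : 0 < θ)
    (ih : ∀ X : Finset Pl, Good X → WS ε C X ∨ ∃ X' ⊆ X, (X \ X').card ≤ C ∧
      Metric.diam (X' : Set Pl) ≤ A * Metric.diam (X : Set Pl) ^ θ) :
    ∃ (C' : ℕ) (A' : ℝ), 0 < A' ∧ ∀ X : Finset Pl, Good X → WS ε C' X ∨
      ∃ X' ⊆ X, (X \ X').card ≤ C' ∧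
      Metric.diam (X' : Set Pl) ≤ A' * Metric.diam (X : Set Pl) ^ (θ * (1 - ε ^ 2)) := by
  classical
  obtain ⟨m, I, ρ0, hρ0, hPar⟩ := h4 ε he
  obtain ⟨n0, hn0⟩ := h3 (ρ0 ^ (1 / (1 - ε)))
  obtain ⟨w1, w2, w3, w4, w5, w6⟩ := h2 ε he he1
  have h1e : 0 < 1 - ε := by linarith
  have h1e2 : 0 < 1 - ε ^ 2 := by nlinarith
  refine ⟨((n0 + 1) + (C + 1)) + (mf m + C) + ((1 + ((mo m + 1) + (nb m + 1))) + (C + 1)),
    6 * A ^ (1 - ε ^ 2), by positivity, fun X hX => ?_⟩
  rcases ih X hX with h | ⟨X', hX'X, hcard, hdiam⟩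
  · exact Or.inl (ws_mono h2 he he1 (by omega) h)
  have hX' : Good X' := good_sub hX hX'X
  have hrest : WS ε (C + 1) (X \ X') := w2 C _ hcard
  have hunion : ∀ l, WS ε l X' → WS ε (l + (C + 1)) X := fun l hl =>
    w1 l (C + 1) X' (X \ X') X hl hrest (by
      intro x hx
      by_cases h : x ∈ X'
      · exact Finset.mem_union_left _ h
      · exact Finset.mem_union_right _ (Finset.mem_sdiff.2 ⟨hx, h⟩))
  have hδ0 : 0 ≤ Metric.diam (X' : Set Pl) := Metric.diam_nonneg
  rcases lt_or_ge (Metric.diam (X' : Set Pl) ^ (1 - ε)) ρ0 with hsmall | hbig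
  · -- bounded
    have hb : Metric.diam (X' : Set Pl) ≤ ρ0 ^ (1 / (1 - ε)) := by
      have e1 : Metric.diam (X' : Set Pl) = (Metric.diam (X' : Set Pl) ^ (1 - ε)) ^ (1 / (1 - ε)) := by
        rw [← Real.rpow_mul hδ0, mul_one_div_cancel h1e.ne', Real.rpow_one]
      rw [e1]
      exact Real.rpow_le_rpow (Real.rpow_nonneg hδ0 _) hsmall.le (by positivity)
    have h5 := hunion (n0 + 1) (w2 n0 X' (hn0 X' hX' hb))
    exact Or.inl (ws_mono h2 he he1 (by omega) h5)
  · have hP := hPar _ hbig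
    rcases h1 m I _ _ hP X' hX' with ⟨a, ha, E, hE, hEc, hEd⟩ | ⟨c, r, E, hE, hEc, hEd⟩
    · right
      refine ⟨X' \ E, Finset.sdiff_subset.trans hX'X, ?_, ?_⟩
      · have hsub : X \ (X' \ E) ⊆ (X \ X') ∪ E := by
          intro x hx
          rw [Finset.mem_sdiff, Finset.mem_sdiff] at hx
          rw [Finset.mem_union, Finset.mem_sdiff]
          by_cases h : x ∈ X'
          · right
            by_contra hxE
            exact hx.2 ⟨h, hxE⟩
          · left
            exact ⟨hx.1, h⟩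
        have h6 := (Finset.card_le_card hsub).trans (Finset.card_union_le _ _)
        omega
      · have hD : (Metric.diam (X' : Set Pl) ^ (1 - ε)) ^ (1 + ε) =
            Metric.diam (X' : Set Pl) ^ (1 - ε ^ 2) := by
          rw [← Real.rpow_mul hδ0]
          congr 1
          ring
        rw [hD] at hEd
        have h7 : Metric.diam ((X' \ E : Finset Pl) : Set Pl) ≤
            6 * Metric.diam (X' : Set Pl) ^ (1 - ε ^ 2) := by
          apply Metric.diam_le_of_forall_dist_le (by positivity)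
          intro x hx y hy
          rw [Finset.mem_coe, Finset.mem_sdiff] at hx hy
          have hx1 := hEd x hx.1 hx.2
          have hy1 := hEd y hy.1 hy.2
          have := dist_triangle_left x y a
          linarith
        refine h7.trans ?_
        have h8 : Metric.diam (X' : Set Pl) ^ (1 - ε ^ 2) ≤
            (A * Metric.diam (X : Set Pl) ^ θ) ^ (1 - ε ^ 2) :=
          Real.rpow_le_rpow hδ0 hdiam h1e2.le
        have hΔ0 : 0 ≤ Metric.diam (X : Set Pl) := Metric.diam_nonneg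
        have h9 : (A * Metric.diam (X : Set Pl) ^ θ) ^ (1 - ε ^ 2) =
            A ^ (1 - ε ^ 2) * Metric.diam (X : Set Pl) ^ (θ * (1 - ε ^ 2)) := by
          rw [Real.mul_rpow hA.le (Real.rpow_nonneg hΔ0 _), ← Real.rpow_mul hΔ0]
        rw [h9] at h8
        linarith
    · left
      have hX1 : WS ε 1 (X'.filter fun x => dist c x = r) :=
        w4 _ c r fun x hx => (Finset.mem_filter.1 hx).2
      have hE1 : WS ε (mo m + 1) E := w2 _ _ hEc
      have hX2 : WS ε (nb m + 1) (X'.filter fun x => dist c x ≠ r ∧ x ∉ E) := by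
        refine w3 _ _ (Metric.diam (X' : Set Pl) ^ (1 - ε)) ?_ ?_
        · apply Real.rpow_le_rpow Metric.diam_nonneg _ h1e.le
          apply Metric.diam_mono
          · intro x hx
            exact (Finset.mem_filter.1 (Finset.mem_coe.1 hx)).1
          · exact X'.finite_toSet.isBounded
        · intro x hx U hU hUy
          rw [Finset.mem_filter] at hx
          refine hEd x hx.1 hx.2.1 hx.2.2 U (hU.trans (Finset.filter_subset _ _)) ?_
          intro y hy
          have hy2 := (Finset.mem_filter.1 (hU hy)).2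
          exact ⟨(hUy y hy).1, (hUy y hy).2, hy2.1, hy2.2⟩
      have h10 := w1 _ _ _ _ (E ∪ X'.filter fun x => dist c x ≠ r ∧ x ∉ E) hE1 hX2
        (Finset.Subset.refl _)
      have h11 := w1 _ _ _ _ X' hX1 h10 (by
        intro x hx
        rw [Finset.mem_union, Finset.mem_union, Finset.mem_filter, Finset.mem_filter]
        by_cases hr : dist c x = r
        · exact Or.inl ⟨hx, hr⟩
        · by_cases hxE : x ∈ E
          · exact Or.inr (Or.inl hxE)
          · exact Or.inr (Or.inr ⟨hx, hr, hxE⟩))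
      exact ws_mono h2 he he1 (by omega) (hunion _ h11)

end ITR

open ITR in
theorem ITR_thm (h1 : t_TWO) (h2 : t_WSU) (h3 : t_BDC) (h4 : t_PR2) : t_ITR := by
  intro ε he he1 k
  have h1e2 : 0 < 1 - ε ^ 2 := by nlinarith
  induction k with
  | zero =>
    refine ⟨0, 1, one_pos, fun X _ => Or.inr ⟨X, Finset.Subset.refl _, ?_, ?_⟩⟩
    · simp
    · rw [pow_zero, Real.rpow_one, one_mul]
  | succ k ih =>
    obtain ⟨C, A, hA, ih⟩ := ih
    obtain ⟨C', A', hA', h5⟩ := step h1 h2 h3 h4 he he1 A ((1 - ε ^ 2) ^ k) C hA (by positivity) ih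
    refine ⟨C', A', hA', fun X hX => ?_⟩
    rw [pow_succ]
    exact h5 X hX

end Pool.Agent.CLU
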