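import Mathlib
import Pool.Agent.CLU.St

set_option autoImplicit false

namespace Pool.Agent.CLU

theorem MIN_thm : t_MIN := by
  intro N R φ hφ
  classical
  set s : Set (Fin R → ℂ) := (fun b : ℂ => fun a => φ a b) '' (N : Set ℂ) with hs
  have htop : Submodule.span ℂ s = ⊤ := by
    by_contra hne
    obtain ⟨f, hf0, hf⟩ := Submodule.exists_le_ker_of_lt_top _ (lt_top_iff_ne_top.2 hne)
    apply hf0
    have hfe : ∀ v : Fin R → ℂ, f v = ∑ a, f (Pi.single a 1) * v a := by
      intro v
      conv_lhs => rw [← Finset.univ_sum_single v]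
      rw [map_sum]
      refine Finset.sum_congr rfl fun a _ => ?_
      have h1 : (Pi.single a (v a) : Fin R → ℂ) = v a • (Pi.single a 1 : Fin R → ℂ) := by
        rw [← Pi.single_smul, smul_eq_mul, mul_one]
      rw [h1, map_smul, smul_eq_mul, mul_comm]
    have hc := hφ (fun a => f (Pi.single a 1)) (fun b hb => by
      have h2 : f (fun a => φ a b) = 0 :=
        hf (Submodule.subset_span ⟨b, hb, rfl⟩)
      rw [← h2, hfe])
    refine LinearMap.ext fun v => ?_
    rw [hfe, LinearMap.zero_apply]
    refine Finset.sum_eq_zero fun a _ => ?_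
    have h3 : f (Pi.single a 1) = 0 := congrFun hc a
    rw [h3, zero_mul]
  obtain ⟨f, hfs, hspan, hli⟩ := Submodule.exists_fun_fin_finrank_span_eq ℂ s
  have hR : Module.finrank ℂ (Submodule.span ℂ s) = R := by
    rw [htop, finrank_top, Module.finrank_fin_fun]
  set e : Fin R ≃ Fin (Module.finrank ℂ (Submodule.span ℂ s)) := finCongr hR.symm with he
  have hch : ∀ i : Fin R, ∃ b : ℂ, b ∈ N ∧ (fun a => φ a b) = f (e i) := by
    intro i
    obtain ⟨b, hb, h⟩ := hfs (e i)
    exact ⟨b, hb, h⟩
  choose b hb hbf using hch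
  refine ⟨b, hb, ?_⟩
  have hli2 : LinearIndependent ℂ (fun i : Fin R => (fun a => φ a (b i) : Fin R → ℂ)) := by
    have h4 : (fun i : Fin R => (fun a => φ a (b i) : Fin R → ℂ)) = f ∘ e := funext hbf
    rw [h4]
    exact hli.comp e e.injective
  have hdet : Matrix.det (Matrix.of fun (i a : Fin R) => φ a (b i)) ≠ 0 := by
    have h5 : LinearIndependent ℂ (Matrix.of fun (i a : Fin R) => φ a (b i)).row := hli2
    rw [Matrix.linearIndependent_rows_iff_isUnit, Matrix.isUnit_iff_isUnit_det] at h5
    exact h5.ne_zero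
  rw [← Matrix.det_transpose] at hdet
  exact hdet

end Pool.Agent.CLU
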