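import Pool.Agent.CLU.St

/-!
# CLU, module NRM: the norm of a combination of products of square roots
-/

set_option autoImplicit false

namespace Pool.Agent.CLU

namespace NRM

open MvPolynomial

/-- one factor of the norm -/
noncomputable def fac {m : ℕ} (ε : Fin m → ℤˣ) : MvPolynomial (Finset (Fin m) ⊕ Fin m) ℤ :=
  ∑ J : Finset (Fin m), X (Sum.inl J) * ∏ j ∈ J, (C ((ε j : ℤˣ) : ℤ) * X (Sum.inr j))

/-- the norm -/
noncomputable def nrm (m : ℕ) : MvPolynomial (Finset (Fin m) ⊕ Fin m) ℤ :=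
  ∏ ε : Fin m → ℤˣ, fac ε

theorem aeval_fac {m : ℕ} {B : Type} [CommRing B] [Algebra ℤ B] (c : Finset (Fin m) → B) (t : Fin m → B)
    (ε : Fin m → ℤˣ) : aeval (Sum.elim c t) (fac ε) =
      ∑ J : Finset (Fin m), c J * ∏ j ∈ J, ((((ε j : ℤˣ) : ℤ) : B) * t j) := by
  unfold fac
  simp [map_sum, map_prod]

/-- degree in the variables `inr j` -/
def dg {m : ℕ} (k : ℕ) (P : MvPolynomial (Finset (Fin m) ⊕ Fin m) ℤ) : Prop :=
  ∀ e ∈ P.support, ∑ j, e (Sum.inr j) ≤ k

theorem dg_mul {m k l : ℕ} {P Q : MvPolynomial (Finset (Fin m) ⊕ Fin m) ℤ} (hP : dg k P)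
    (hQ : dg l Q) : dg (k + l) (P * Q) := by
  classical
  intro e he
  obtain ⟨a, ha, b, hb, rfl⟩ := Finset.mem_add.1 (support_mul P Q he)
  have h1 := hP a ha
  have h2 := hQ b hb
  simp only [Finsupp.add_apply, Finset.sum_add_distrib]
  omega

theorem dg_mono {m k l : ℕ} {P : MvPolynomial (Finset (Fin m) ⊕ Fin m) ℤ} (hP : dg k P)
    (h : k ≤ l) : dg l P := fun e he => (hP e he).trans h

theorem dg_sum {m k : ℕ} {ι : Type} (s : Finset ι)
    {P : ι → MvPolynomial (Finset (Fin m) ⊕ Fin m) ℤ} (hP : ∀ i ∈ s, dg k (P i)) :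
    dg k (∑ i ∈ s, P i) := by
  classical
  intro e he
  obtain ⟨i, hi, hie⟩ := Finset.mem_biUnion.1 (support_sum he)
  exact hP i hi e hie

theorem dg_one {m : ℕ} : dg 0 (1 : MvPolynomial (Finset (Fin m) ⊕ Fin m) ℤ) := by
  intro e he
  have h1 : e = 0 := by
    rw [← C_1, mem_support_iff, coeff_C] at he
    by_contra h
    exact he (if_neg fun h2 => h h2.symm)
  subst h1
  simp

theorem dg_prod {m k : ℕ} {ι : Type} (s : Finset ι)
    {P : ι → MvPolynomial (Finset (Fin m) ⊕ Fin m) ℤ} (hP : ∀ i ∈ s, dg k (P i)) :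
    dg (s.card * k) (∏ i ∈ s, P i) := by
  classical
  induction s using Finset.induction_on with
  | empty =>
    rw [Finset.prod_empty, Finset.card_empty, zero_mul]
    exact dg_one
  | insert a s ha ih =>
    rw [Finset.prod_insert ha, Finset.card_insert_of_notMem ha]
    have h1 := ih fun i hi => hP i (Finset.mem_insert_of_mem hi)
    have h2 := hP a (Finset.mem_insert_self a s)
    exact dg_mono (dg_mul h2 h1) (by ring_nf; exact le_refl _)

theorem dg_inl {m : ℕ} (J : Finset (Fin m)) :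
    dg 0 (X (Sum.inl J) : MvPolynomial (Finset (Fin m) ⊕ Fin m) ℤ) := by
  intro e he
  rw [support_X, Finset.mem_singleton] at he
  subst he
  simp

theorem dg_inr {m : ℕ} (z : ℤ) (j : Fin m) :
    dg 1 (C z * X (Sum.inr j) : MvPolynomial (Finset (Fin m) ⊕ Fin m) ℤ) := by
  intro e he
  rw [C_mul_X_eq_monomial] at he
  have h1 := support_monomial_subset he
  rw [Finset.mem_singleton] at h1
  subst h1
  rw [Finset.sum_eq_single j]
  · simp
  · intro i _ hi
    simp [Ne.symm hi]
  · intro h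
    exact absurd (Finset.mem_univ j) h

theorem dg_fac {m : ℕ} (ε : Fin m → ℤˣ) : dg m (fac ε) := by
  refine dg_sum _ fun J _ => ?_
  have h1 := dg_prod (k := 1) J (P := fun j => C ((ε j : ℤˣ) : ℤ) * X (Sum.inr j))
    (fun j _ => dg_inr _ j)
  refine dg_mono (dg_mul (dg_inl J) h1) ?_
  have h2 := Finset.card_le_univ J
  rw [Fintype.card_fin] at h2
  omega

theorem dg_nrm (m : ℕ) : dg (gg m) (nrm m) := by
  have h1 := dg_prod (Finset.univ : Finset (Fin m → ℤˣ)) (fun ε _ => dg_fac ε)
  refine dg_mono h1 ?_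
  rw [Finset.card_univ, Fintype.card_fun, Fintype.card_fin, Fintype.card_units_int]
  unfold gg
  rw [mul_comm]

/-- the change of one sign -/
theorem flip_fac {m : ℕ} (j : Fin m) (ε : Fin m → ℤˣ) :
    aeval (Sum.elim (fun s => X (Sum.inl s))
      (fun i => if i = j then - X (Sum.inr i) else X (Sum.inr i))) (fac ε) =
      fac (ε * Function.update (1 : Fin m → ℤˣ) j (-1)) := by
  rw [aeval_fac]
  unfold fac
  refine Finset.sum_congr rfl fun J _ => ?_
  congr 1
  refine Finset.prod_congr rfl fun i _ => ?_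
  by_cases h : i = j
  · subst h
    simp
  · simp [h]

theorem flip_nrm {m : ℕ} (j : Fin m) :
    aeval (Sum.elim (fun s => X (Sum.inl s))
      (fun i => if i = j then - X (Sum.inr i) else X (Sum.inr i))) (nrm m) = nrm m := by
  unfold nrm
  rw [map_prod]
  refine Fintype.prod_equiv (Equiv.mulRight (Function.update (1 : Fin m → ℤˣ) j (-1))) _ _ fun ε => ?_
  rw [flip_fac]
  rfl

theorem aeval_sq {m : ℕ} (U : MvPolynomial (Finset (Fin m) ⊕ Fin m) ℤ)
    (hU : nrm m = aeval (Sum.elim (fun s => X (Sum.inl s))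
      (fun i => X (Sum.inr i) ^ 2)) U) {B : Type} [CommRing B] (c : Finset (Fin m) → B)
    (t : Fin m → B) :
    aeval (Sum.elim c (fun j => t j ^ 2)) U =
      ∏ ε : Fin m → ℤˣ, ∑ J : Finset (Fin m), c J * ∏ j ∈ J, ((((ε j : ℤˣ) : ℤ) : B) * t j) := by
  have h1 : aeval (Sum.elim c t) (nrm m) = aeval (Sum.elim c (fun j => t j ^ 2)) U := by
    rw [hU, ← AlgHom.comp_apply]
    congr 1
    apply MvPolynomial.algHom_ext
    intro i
    rcases i with i | i <;> simp
  rw [← h1]
  unfold nrm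
  rw [map_prod]
  exact Finset.prod_congr rfl fun ε _ => aeval_fac c t ε

end NRM

open NRM in
theorem NRM_thm (h1 : t_TOW) (h2 : t_EVN) : t_NRM := by
  intro m
  obtain ⟨U, hU, hd⟩ := h2 (Finset (Fin m)) m (nrm m) (fun j => flip_nrm j)
  refine ⟨U, ?_, ?_, ?_⟩
  · intro d hdU
    obtain ⟨e, he, hde⟩ := hd d hdU
    refine le_trans (Finset.sum_le_sum fun j _ => ?_) (dg_nrm m e he)
    rw [hde j]
    omega
  · intro B _ c t h
    rw [aeval_sq U hU]
    refine Finset.prod_eq_zero (Finset.mem_univ 1) ?_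
    rw [← h]
    refine Finset.sum_congr rfl fun J _ => ?_
    congr 1
    refine Finset.prod_congr rfl fun j _ => ?_
    simp
  · intro K _ _ q hq c hc h0
    obtain ⟨E, _, _, t, ht, hli⟩ := h1 m K q hq
    have h3 : MvPolynomial.aeval (Sum.elim (fun J => algebraMap K E (c J))
        (fun j => t j ^ 2)) U = 0 := by
      have h4 : algebraMap K E (MvPolynomial.aeval (Sum.elim c q) U) = 0 := by
        rw [h0, map_zero]
      rw [← h4]
      have h5 : MvPolynomial.aeval (Sum.elim (fun J => algebraMap K E (c J)) (fun j => t j ^ 2)) =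
          ((algebraMap K E).toIntAlgHom).comp (MvPolynomial.aeval (Sum.elim c q) :
            MvPolynomial (Finset (Fin m) ⊕ Fin m) ℤ →ₐ[ℤ] K) := by
        apply MvPolynomial.algHom_ext
        intro i
        rcases i with i | i
        · simp
        · simp [ht]
      rw [h5]
      rfl
    rw [aeval_sq U hU, Finset.prod_eq_zero_iff] at h3
    obtain ⟨ε, -, h6⟩ := h3
    rw [Fintype.linearIndependent_iff] at hli
    have h7 := hli (fun J => c J * ∏ j ∈ J, (((ε j : ℤˣ) : ℤ) : K)) (by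
      rw [← h6]
      refine Finset.sum_congr rfl fun J _ => ?_
      rw [Algebra.smul_def, map_mul, map_prod, Finset.prod_mul_distrib, mul_assoc]
      congr 2
      refine Finset.prod_congr rfl fun j _ => ?_
      simp)
    apply hc
    funext J
    have h8 := h7 J
    have h9 : (∏ j ∈ J, (((ε j : ℤˣ) : ℤ) : K)) ≠ 0 := by
      rw [Finset.prod_ne_zero_iff]
      intro j _
      rcases Int.units_eq_one_or (ε j) with h | h <;> simp [h]
    exact (mul_eq_zero.1 h8).resolve_right h9

end Pool.Agent.CLU
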