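import Pool.Agent.CLU.St

/-!
# Project CLU, module NS0: products of the (X - p)(Y - conj p) are not squares in C(X, Y)
-/

set_option autoImplicit false

open Polynomial Polynomial.Bivariate ComplexConjugate

namespace Pool.Agent.CLU

namespace NS0

theorem not_sq (J : Finset ℂ) (hJ : J.Nonempty) (u : ℂ[X][Y]) : ∏ p ∈ J, qp p ≠ u * u := by
  intro h
  obtain ⟨c, hc⟩ := Infinite.exists_notMem_finset (J.image (fun p => conj p))
  have h1 := congrArg (Polynomial.evalRingHom (C c : ℂ[X])) h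
  rw [map_prod, map_mul] at h1
  have h2 : ∀ p : ℂ, Polynomial.evalRingHom (C c : ℂ[X]) (qp p) = (X - C p) * C (c - conj p) := by
    intro p
    simp [qp]
  simp only [h2] at h1
  rw [Finset.prod_mul_distrib] at h1
  set v := Polynomial.evalRingHom (C c : ℂ[X]) u
  set A : ℂ[X] := ∏ p ∈ J, (X - C p) with hA
  have h3 : ∏ p ∈ J, (C (c - conj p) : ℂ[X]) = C (∏ p ∈ J, (c - conj p)) := (map_prod C _ _).symm
  have h4 : ∏ p ∈ J, (c - conj p) ≠ 0 := by
    rw [Finset.prod_ne_zero_iff]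
    intro p hp h0
    apply hc
    rw [Finset.mem_image]
    exact ⟨p, hp, (sub_eq_zero.1 h0).symm⟩
  rw [h3] at h1
  have h5 : v * v ∣ A := by
    refine ⟨C (∏ p ∈ J, (c - conj p))⁻¹, ?_⟩
    rw [← h1, mul_assoc, ← C_mul, mul_inv_cancel₀ h4, C_1, mul_one]
  have h6 : Squarefree A := by
    apply Polynomial.Separable.squarefree
    rw [hA]
    exact Polynomial.separable_prod_X_sub_C_iff'.2 (fun x _ y _ hxy => hxy)
  have h7 : IsUnit v := h6 v h5
  obtain ⟨p, hp⟩ := hJ
  have h8 : (X - C p) ∣ v * v := by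
    rw [← h1]
    exact Dvd.dvd.mul_right (Finset.dvd_prod_of_mem (fun p => (X - C p : ℂ[X])) hp) _
  exact Polynomial.not_isUnit_X_sub_C p (isUnit_of_dvd_unit h8 (h7.mul h7))

end NS0

theorem NS0_thm : t_NS0 := by
  refine ⟨FractionRing ℂ[X][Y], inferInstance, ?_, algebraMap _ _, ?_, ?_⟩
  · exact charZero_of_injective_algebraMap (R := ℂ[X][Y])
      (IsFractionRing.injective ℂ[X][Y] (FractionRing ℂ[X][Y]))
  · intro G hG
    exact (map_eq_zero_iff _ (IsFractionRing.injective ℂ[X][Y] (FractionRing ℂ[X][Y]))).1 hG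
  · rintro J hJ ⟨s, hs⟩
    rw [← map_prod] at hs
    have hint : IsIntegral ℂ[X][Y] (s ^ 2) := by
      rw [pow_two, ← hs]
      exact isIntegral_algebraMap
    obtain ⟨u, rfl⟩ := IsIntegrallyClosed.exists_algebraMap_eq_of_isIntegral_pow
      (by norm_num : 0 < 2) hint
    rw [← map_mul] at hs
    exact NS0.not_sq J hJ u (IsFractionRing.injective ℂ[X][Y] (FractionRing ℂ[X][Y]) hs)

end Pool.Agent.CLU
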