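import Pool.Agent.CLU.St

/-!
# Products of the (X-p)(Y-conj p) are not squares (module NSQ of project CLU)
-/

set_option autoImplicit false

open Polynomial Polynomial.Bivariate ComplexConjugate

namespace Pool.Agent.CLU.NSQ

/-- the substitution X -> z + T on polynomials in X -/
noncomputable def ph0 (z : ℂ) : ℂ[X] →+* PowerSeries ℂ :=
  Polynomial.eval₂RingHom (PowerSeries.C (R := ℂ)) (PowerSeries.C (R := ℂ) z + PowerSeries.X)

/-- the substitution X -> z + T, Y -> f -/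
noncomputable def ph (z : ℂ) (f : PowerSeries ℂ) : ℂ[X][Y] →+* PowerSeries ℂ :=
  Polynomial.eval₂RingHom (ph0 z) f

theorem ph0_inj (z : ℂ) : Function.Injective (ph0 z) := by
  refine (injective_iff_map_eq_zero _).2 ?_
  intro p hp
  have h1 : ph0 z = (Polynomial.coeToPowerSeries.ringHom).comp
      (Polynomial.compRingHom (C z + X)) := by
    refine Polynomial.ringHom_ext ?_ ?_
    · intro a
      simp [ph0]
    · simp [ph0]
  rw [h1] at hp
  have h2 : p.comp (C z + X) = 0 := by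
    apply Polynomial.coe_injective ℂ
    simpa using hp
  rw [Polynomial.comp_eq_zero_iff] at h2
  rcases h2 with h2 | ⟨_, h3⟩
  · exact h2
  · exfalso
    have h4 := congrArg (fun q => Polynomial.coeff q 1) h3
    simp [coeff_C] at h4

theorem ker' (L : Type) [Field L] [Algebra ℂ[X] L] [IsFractionRing ℂ[X] L] (M : Type) [Field M]
    [Algebra (PowerSeries ℂ) M] [IsFractionRing (PowerSeries ℂ) M]
    (Q : ℂ[X][Y]) (hQ : Irreducible Q) (hpos : 0 < Q.natDegree) (z : ℂ)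
    (f : PowerSeries ℂ) (hf : ph z f Q = 0) (G : ℂ[X][Y]) (hG : ph z f G = 0) : Q ∣ G := by
  classical
  have hprim : Q.IsPrimitive := hQ.isPrimitive (by omega)
  have hj0 : Function.Injective ((algebraMap (PowerSeries ℂ) M).comp (ph0 z)) :=
    (IsFractionRing.injective (PowerSeries ℂ) M).comp (ph0_inj z)
  let jL : L →+* M := IsFractionRing.lift hj0
  have hjL : jL.comp (algebraMap ℂ[X] L) = (algebraMap (PowerSeries ℂ) M).comp (ph0 z) := by
    ext x
    · simp [jL]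
    · simp [jL]
  have hev : ∀ q : ℂ[X][Y], Polynomial.eval₂ jL (algebraMap (PowerSeries ℂ) M f)
      (q.map (algebraMap ℂ[X] L)) = algebraMap (PowerSeries ℂ) M (ph z f q) := by
    intro q
    rw [Polynomial.eval₂_map, hjL]
    simp only [ph, Polynomial.coe_eval₂RingHom]
    rw [Polynomial.hom_eval₂]
  have hirr : Irreducible (Q.map (algebraMap ℂ[X] L)) :=
    (hprim.irreducible_iff_irreducible_map_fraction_map).1 hQ
  have hdvd : Q.map (algebraMap ℂ[X] L) ∣ G.map (algebraMap ℂ[X] L) := by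
    by_contra hnd
    obtain ⟨a, b, hab⟩ := (hirr.coprime_iff_not_dvd).2 hnd
    have h1 := congrArg (Polynomial.eval₂ jL (algebraMap (PowerSeries ℂ) M f)) hab
    rw [Polynomial.eval₂_add, Polynomial.eval₂_mul, Polynomial.eval₂_mul, hev, hev, hf, hG,
      map_zero, mul_zero, mul_zero, add_zero, Polynomial.eval₂_one] at h1
    exact zero_ne_one h1
  obtain ⟨H, hH⟩ := hdvd
  have h2 : H ∈ Polynomial.lifts (algebraMap ℂ[X] L) := by
    rw [← hprim.map_mul_mem_lifts_iff, ← hH]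
    exact ⟨G, rfl⟩
  obtain ⟨H1, hH1⟩ := h2
  refine ⟨H1, ?_⟩
  apply Polynomial.map_injective (algebraMap ℂ[X] L) (IsFractionRing.injective ℂ[X] L)
  rw [Polynomial.map_mul, hH, ← hH1]
  rfl

theorem ker (Q : ℂ[X][Y]) (hQ : Irreducible Q) (hpos : 0 < Q.natDegree) (z : ℂ)
    (f : PowerSeries ℂ) (hf : ph z f Q = 0) (G : ℂ[X][Y]) (hG : ph z f G = 0) : Q ∣ G :=
  ker' (FractionRing ℂ[X]) (FractionRing (PowerSeries ℂ)) Q hQ hpos z f hf G hG

theorem ph_qp (z : ℂ) (f : PowerSeries ℂ) (p : ℂ) : ph z f (qp p) =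
    (PowerSeries.C z + PowerSeries.X - PowerSeries.C p) * (f - PowerSeries.C (conj p)) := by
  simp [ph, ph0, qp]

theorem order_qp (z : ℂ) (f : PowerSeries ℂ) (p : ℂ)
    (h : PowerSeries.constantCoeff f ≠ conj p) :
    (ph z f (qp p)).order = if p = z then 1 else 0 := by
  rw [ph_qp, PowerSeries.order_mul]
  have h2 : (f - PowerSeries.C (conj p)).order = 0 := by
    by_contra hne
    rw [← ne_eq, PowerSeries.order_ne_zero_iff_constCoeff_eq_zero, map_sub,
      PowerSeries.constantCoeff_C] at hne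
    exact h (sub_eq_zero.1 hne)
  rw [h2, add_zero]
  split_ifs with hp
  · rw [hp, add_sub_cancel_left, PowerSeries.order_X]
  · by_contra hne
    rw [← ne_eq, PowerSeries.order_ne_zero_iff_constCoeff_eq_zero, map_sub, map_add,
      PowerSeries.constantCoeff_C, PowerSeries.constantCoeff_X,
      PowerSeries.constantCoeff_C, add_zero] at hne
    exact hp (sub_eq_zero.1 hne).symm

theorem core (h1 : t_HEN) (R : Type) [CommRing R] [IsDomain R] (K : Type) [Field K]
    [Algebra R K] [IsFractionRing R K] (mk : ℂ[X][Y] →+* R) (hmk : Function.Surjective mk)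
    (Q : ℂ[X][Y]) (hker : ∀ G, mk G = 0 ↔ Q ∣ G) (F' : Finset ℂ) (w : ℂ → ℂ)
    (hQ : Irreducible Q) (hpos : 0 < Q.natDegree)
    (hw : ∀ z ∈ F', Q.evalEval z (w z) = 0 ∧ (derivative Q).evalEval z (w z) ≠ 0 ∧
      ∀ p ∈ F', w z ≠ conj p) :
    ∃ (_ : CharZero K) (ψ : ℂ[X][Y] →+* K), (∀ G, ψ G = 0 ↔ Q ∣ G) ∧
      ∀ J ⊆ F', J.Nonempty → ¬ IsSquare (∏ p ∈ J, ψ (qp p)) := by
  classical
  let ψ : ℂ[X][Y] →+* K := (algebraMap R K).comp mk
  have hψ : ∀ G, ψ G = 0 ↔ Q ∣ G := by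
    intro G
    rw [← hker]
    exact map_eq_zero_iff (algebraMap R K) (IsFractionRing.injective R K)
  have hK : CharZero K := charZero_of_injective_ringHom
    (f := ψ.comp ((Polynomial.C).comp (Polynomial.C : ℂ →+* ℂ[X]))) (RingHom.injective _)
  refine ⟨hK, ψ, hψ, ?_⟩
  intro J hJ hne hsq
  obtain ⟨z, hz⟩ := hne
  obtain ⟨f, hf1, hf2⟩ := h1 Q z (w z) (hw z (hJ hz)).1 (hw z (hJ hz)).2.1
  have hf2' : ph z f Q = 0 := hf2
  obtain ⟨r, hr⟩ := hsq
  obtain ⟨x, y, hy, hxy⟩ := IsFractionRing.div_surjective (A := R) r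
  obtain ⟨U, rfl⟩ := hmk x
  obtain ⟨V, rfl⟩ := hmk y
  have hV0 : ψ V ≠ 0 := by
    intro h
    have h3 := (map_eq_zero_iff (algebraMap R K) (IsFractionRing.injective R K)).1 h
    exact nonZeroDivisors.ne_zero hy h3
  have hVQ : ¬ Q ∣ V := fun h => hV0 ((hψ V).2 h)
  have hxy' : ψ U / ψ V = r := hxy
  have h4 : ψ (V * V * ∏ p ∈ J, qp p - U * U) = 0 := by
    rw [map_sub, map_mul, map_mul, map_mul, map_prod, hr, ← hxy', sub_eq_zero]
    field_simp
  obtain ⟨W, hW⟩ := (hψ _).1 h4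
  have h5 : ph z f (V * V * ∏ p ∈ J, qp p) = ph z f (U * U) := by
    rw [← sub_eq_zero, ← map_sub, hW, map_mul, hf2', zero_mul]
  have h6 : (ph z f V) ≠ 0 := fun h => hVQ (ker Q hQ hpos z f hf2' V h)
  have h7 := congrArg PowerSeries.order h5
  rw [map_mul, map_mul, map_mul, map_prod, PowerSeries.order_mul, PowerSeries.order_mul,
    PowerSeries.order_mul, PowerSeries.order_prod] at h7
  have h8 : ∑ p ∈ J, (ph z f (qp p)).order = 1 := by
    rw [Finset.sum_congr rfl (g := fun p => if p = z then (1 : ℕ∞) else 0)]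
    · rw [Finset.sum_ite_eq' J z, if_pos hz]
    · intro p hp
      exact order_qp z f p (by rw [hf1]; exact (hw z (hJ hz)).2.2 p (hJ hp))
  rw [h8] at h7
  have h9 : (ph z f V).order ≠ ⊤ := by
    rw [ne_eq, PowerSeries.order_eq_top]; exact h6
  obtain ⟨v, hv⟩ := ENat.ne_top_iff_exists.1 h9
  rw [← hv] at h7
  have h10 : (ph z f U).order ≠ ⊤ := by
    intro h
    rw [h] at h7
    have : ((v : ℕ∞) + v + 1) = ((v + v + 1 : ℕ) : ℕ∞) := by push_cast; rfl
    rw [this, top_add] at h7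
    exact ENat.natCast_ne_top _ h7
  obtain ⟨u, hu⟩ := ENat.ne_top_iff_exists.1 h10
  rw [← hu] at h7
  have h11 : ((v + v + 1 : ℕ) : ℕ∞) = ((u + u : ℕ) : ℕ∞) := by push_cast; exact h7
  have h12 := ENat.natCast_inj.1 h11
  omega

theorem main (h1 : t_HEN) : t_NSQ := by
  intro Q F' w hQ hpos hw
  have hprime : (Ideal.span {Q} : Ideal ℂ[X][Y]).IsPrime :=
    (Ideal.span_singleton_prime hQ.ne_zero).2 hQ.prime
  have hdom : IsDomain (ℂ[X][Y] ⧸ (Ideal.span {Q} : Ideal ℂ[X][Y])) :=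
    Ideal.Quotient.isDomain _
  obtain ⟨h, ψ, h2, h3⟩ := core h1 (ℂ[X][Y] ⧸ (Ideal.span {Q} : Ideal ℂ[X][Y]))
    (FractionRing (ℂ[X][Y] ⧸ (Ideal.span {Q} : Ideal ℂ[X][Y])))
    (Ideal.Quotient.mk _) Ideal.Quotient.mk_surjective Q (fun G => by
      rw [← Ideal.mem_span_singleton, Ideal.Quotient.eq_zero_iff_mem]) F' w hQ hpos hw
  exact ⟨_, _, h, ψ, h2, h3⟩

end Pool.Agent.CLU.NSQ

namespace Pool.Agent.CLU

theorem NSQ_thm (h1 : t_HEN) : t_NSQ := NSQ.main h1

end Pool.Agent.CLU
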