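import Pool.Agent.CLU.StP

/-!
# CLU: POL
-/

set_option autoImplicit false

open Pool.Agent.RCX

namespace Pool.Agent.CLU

namespace POL

/-- the number `l = log (w + 3)` is at least one -/
theorem one_le (w : ℝ) (hw : 0 ≤ w) : 1 ≤ Real.log (w + 3) := by
  rw [Real.le_log_iff_exp_le (by linarith)]
  linarith [Real.exp_one_lt_three]

/-- powers of `w + 3` -/
theorem log_le (w x : ℝ) (k : ℕ) (_hw : 0 ≤ w) (hx : 0 < x) (h : x ≤ (w + 3) ^ k) :
    Real.log x ≤ k * Real.log (w + 3) := by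
  rw [← Real.log_pow]
  exact Real.log_le_log hx h

theorem log1 (w : ℝ) (hw : 0 ≤ w) :
    Real.log (2 * w ^ 2 + 1 + 2) ≤ 3 * Real.log (w + 3) := by
  have h := log_le w (2 * w ^ 2 + 1 + 2) 3 hw (by positivity) (by
    have h1 : 0 ≤ w ^ 3 := by positivity
    nlinarith [sq_nonneg w])
  exact_mod_cast h

theorem log2 (w : ℝ) (hw : 0 ≤ w) :
    Real.log (72 * (2 * w ^ 2 + 1)) ≤ 7 * Real.log (w + 3) := by
  have h := log_le w (72 * (2 * w ^ 2 + 1)) 7 hw (by positivity) (by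
    have h1 : (3 : ℝ) ^ 5 ≤ (w + 3) ^ 5 := pow_le_pow_left₀ (by norm_num) (by linarith) 5
    have h2 : (0 : ℝ) ≤ (w + 3) ^ 2 := by positivity
    have h3 := mul_le_mul_of_nonneg_right h1 h2
    have h4 : (w + 3) ^ 5 * (w + 3) ^ 2 = (w + 3) ^ 7 := by ring
    rw [h4] at h3
    refine le_trans ?_ h3
    nlinarith [sq_nonneg w])
  exact_mod_cast h

/-- the exponent `n` with `72 ρ ≤ 2 ^ n` -/
theorem exists_n (w : ℝ) (hw : 0 ≤ w) : ∃ n : ℕ, 72 * (2 * w ^ 2 + 1) ≤ 2 ^ n ∧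
    (n : ℝ) + 1 ≤ 16 * Real.log (w + 3) := by
  have h1 := one_le w hw
  have h2 := log2 w hw
  have hx : (1 : ℝ) ≤ 72 * (2 * w ^ 2 + 1) := by nlinarith [sq_nonneg w]
  have h3 : 0 ≤ Real.log (72 * (2 * w ^ 2 + 1)) := Real.log_nonneg hx
  refine ⟨⌈2 * Real.log (72 * (2 * w ^ 2 + 1))⌉₊, ?_, ?_⟩
  · have h4 := Nat.le_ceil (2 * Real.log (72 * (2 * w ^ 2 + 1)))
    have h5 : (1 : ℝ) / 2 ≤ Real.log 2 := by
      have := Real.log_two_gt_d9
      linarith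
    rw [← Real.log_le_log_iff (by positivity) (by positivity), Real.log_pow]
    have h6 : 0 ≤ 2 * Real.log (72 * (2 * w ^ 2 + 1)) := by linarith
    nlinarith
  · have h4 := Nat.ceil_lt_add_one (a := 2 * Real.log (72 * (2 * w ^ 2 + 1))) (by linarith)
    linarith

/-- the constant -/
theorem const (C1 C2 : ℕ) : ∃ C : ℕ, ∀ l : ℝ, 1 ≤ l →
    C2 * (16 * l) ^ C2 + C1 * (3 * l) ^ C1 + 3 ≤ C * l ^ C := by
  refine ⟨C2 * 16 ^ C2 + C1 * 3 ^ C1 + C1 + C2 + 3, fun l hl => ?_⟩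
  set C : ℕ := C2 * 16 ^ C2 + C1 * 3 ^ C1 + C1 + C2 + 3 with hC
  have h1 : l ^ C1 ≤ l ^ C := pow_le_pow_right₀ hl (by omega)
  have h2 : l ^ C2 ≤ l ^ C := pow_le_pow_right₀ hl (by omega)
  have h3 : 1 ≤ l ^ C := one_le_pow₀ hl
  have h4 : ((C2 * 16 ^ C2 + C1 * 3 ^ C1 + 3 : ℕ) : ℝ) ≤ (C : ℝ) := by
    exact_mod_cast (by omega : C2 * 16 ^ C2 + C1 * 3 ^ C1 + 3 ≤ C)
  push_cast at h4
  calc C2 * (16 * l) ^ C2 + C1 * (3 * l) ^ C1 + 3
      = (C2 * 16 ^ C2) * l ^ C2 + (C1 * 3 ^ C1) * l ^ C1 + 3 * 1 := by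
        rw [mul_pow, mul_pow]
        ring
    _ ≤ (C2 * 16 ^ C2) * l ^ C + (C1 * 3 ^ C1) * l ^ C + 3 * l ^ C := by gcongr
    _ = (C2 * 16 ^ C2 + C1 * 3 ^ C1 + 3) * l ^ C := by ring
    _ ≤ C * l ^ C := mul_le_mul_of_nonneg_right h4 (by positivity)

end POL

theorem POL_thm (h1 : t_TWO) (h2 : t_THD) (h3 : t_PR1) (h4 : t_GIP) (h5 : t_UNI) (h6 : t_SNG)
    (h7 : t_MRG) : t_POL := by
  classical
  obtain ⟨C1, hC1⟩ := h3
  obtain ⟨C2, hC2⟩ := h4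
  obtain ⟨C, hC⟩ := POL.const C1 C2
  refine ⟨C, fun S m' w hS hw hT k hk => ?_⟩
  have hl := POL.one_le w hw
  have hCl := hC _ hl
  obtain ⟨m, I, hPar, hbd⟩ := hC1 (2 * w ^ 2 + 1) (by nlinarith [sq_nonneg w])
  have hm' : (1 : ℝ) ≤ (m' : ℝ) := by
    obtain ⟨f, -⟩ := hT
    have : 0 < m' := (f 0).pos
    exact_mod_cast this
  have hb2 : ((nb m + mf m + mo m : ℕ) : ℝ) ≤ C1 * (3 * Real.log (w + 3)) ^ C1 := by
    refine hbd.trans (mul_le_mul_of_nonneg_left ?_ (Nat.cast_nonneg _))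
    refine pow_le_pow_left₀ ?_ (POL.log1 w hw) _
    exact Real.log_nonneg (by nlinarith [sq_nonneg w])
  push_cast at hb2
  have hnb : (0 : ℝ) ≤ (nb m : ℝ) := Nat.cast_nonneg _
  have hmf : (0 : ℝ) ≤ (mf m : ℝ) := Nat.cast_nonneg _
  have hmo : (0 : ℝ) ≤ (mo m : ℝ) := Nat.cast_nonneg _
  have hp2 : (0 : ℝ) ≤ C2 * (16 * Real.log (w + 3)) ^ C2 := by positivity
  rcases h1 m I (2 * w ^ 2 + 1) (12 * (2 * w ^ 2 + 1)) hPar S hS with hA | hB
  · obtain ⟨a, ha, E, hES, hEc, hd⟩ := hA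
    obtain ⟨n, hn1, hn2⟩ := POL.exists_n w hw
    have hX : Cp (C2 * (n + 1) ^ C2) (S \ E) := by
      refine hC2 n (S \ E) (hS.subset Finset.sdiff_subset) ?_
      intro x hx y hy
      rw [Finset.mem_sdiff] at hx hy
      have e1 := hd x hx.1 hx.2
      have e2 := hd y hy.1 hy.2
      have e3 := dist_triangle_left x y a
      linarith
    have hE : Cp (mf m + 1) E := h6 (mf m) E hEc
    have hU := h5 _ _ (S \ E) E S hX hE (by
      intro x hx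
      rw [Finset.mem_union, Finset.mem_sdiff]
      by_cases h : x ∈ E
      · exact Or.inr h
      · exact Or.inl ⟨hx, h⟩)
    refine h7.2 S _ k ?_ hU
    have h8 : ((C2 * (n + 1) ^ C2 + (mf m + 1) : ℕ) : ℝ) ≤ (k : ℝ) := by
      refine le_trans ?_ hk
      push_cast
      have e1 : (C2 : ℝ) * ((n : ℝ) + 1) ^ C2 ≤ C2 * (16 * Real.log (w + 3)) ^ C2 := by
        refine mul_le_mul_of_nonneg_left ?_ (Nat.cast_nonneg _)
        exact pow_le_pow_left₀ (by positivity) hn2 _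
      have e2 : C * Real.log (w + 3) ^ C ≤ (m' : ℝ) * (C * Real.log (w + 3) ^ C) := by
        have : 0 ≤ C * Real.log (w + 3) ^ C := by positivity
        nlinarith
      linarith
    exact_mod_cast h8
  · obtain ⟨c, r, E, hES, hEc, hx⟩ := hB
    have hU := h2 S m m' w (2 * w ^ 2 + 1) c r E hS hw (by linarith) hT hES hEc hx
    refine h7.2 S _ k ?_ hU
    have h8 : ((m' * (nb m + 1) + (mo m + 2) : ℕ) : ℝ) ≤ (k : ℝ) := by
      refine le_trans ?_ hk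
      push_cast
      have e1 : ((nb m : ℝ) + 1) + (mo m + 2) ≤ C * Real.log (w + 3) ^ C := by linarith
      have e2 : (mo m : ℝ) + 2 ≤ (m' : ℝ) * (mo m + 2) := by nlinarith
      have e3 := mul_le_mul_of_nonneg_left e1 (by linarith : (0 : ℝ) ≤ (m' : ℝ))
      nlinarith
    exact_mod_cast h8

end Pool.Agent.CLU
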