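import Pool.Agent.CLU.StP

set_option autoImplicit false

/-!
# PR1: parameters for the logarithmic bound
-/

namespace Pool.Agent.CLU

namespace PR1

theorem grow (k : ℕ) : 18432 * (k + 10) ^ 4 ≤ 2 ^ 40 * 4 ^ k := by
  induction k with
  | zero => norm_num
  | succ k ih =>
    have h1 : (k + 1 + 10) ^ 2 ≤ 2 * (k + 10) ^ 2 := by
      have e : 2 * (k + 10) ^ 2 = (k + 1 + 10) ^ 2 + (k ^ 2 + 18 * k + 79) := by ring
      rw [e]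
      exact Nat.le_add_right _ _
    have h2 : (k + 1 + 10) ^ 4 ≤ 4 * (k + 10) ^ 4 := by
      calc (k + 1 + 10) ^ 4 = ((k + 1 + 10) ^ 2) ^ 2 := by ring
        _ ≤ (2 * (k + 10) ^ 2) ^ 2 := Nat.pow_le_pow_left h1 2
        _ = 4 * (k + 10) ^ 4 := by ring
    calc 18432 * (k + 1 + 10) ^ 4 ≤ 18432 * (4 * (k + 10) ^ 4) := Nat.mul_le_mul_left _ h2
      _ = 4 * (18432 * (k + 10) ^ 4) := by ring
      _ ≤ 4 * (2 ^ 40 * 4 ^ k) := Nat.mul_le_mul_left _ ih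
      _ = 2 ^ 40 * 4 ^ (k + 1) := by ring

/-- the integral part: `l` with `14ρ ≤ 2^l` -/
theorem ints (l : ℕ) (hl : 2 ≤ l) : ∃ k : ℕ, 2 ^ k ≤ 2 * l ∧
    2 * ((4 * k + 40) * (2 * (4 * k + 40) * l + (4 * k + 40) + 2) + 1) ^ 2 ≤ 2 ^ (4 * k + 40) := by
  refine ⟨Nat.log 2 l + 1, ?_, ?_⟩
  · rw [pow_succ, mul_comm]
    exact Nat.mul_le_mul_left _ (Nat.pow_log_le_self 2 (by omega))
  · have h1 : l ≤ 2 ^ (Nat.log 2 l + 1) := (Nat.lt_pow_succ_log_self (by norm_num) l).le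
    obtain ⟨k, hk⟩ : ∃ k, k = Nat.log 2 l + 1 := ⟨_, rfl⟩
    rw [← hk] at h1 ⊢
    obtain ⟨m, hm⟩ : ∃ m, m = 4 * k + 40 := ⟨_, rfl⟩
    have hg := grow k
    have h2 : m * (2 * m * l + m + 2) + 1 ≤ 6 * m ^ 2 * l := by
      have h3 : 1 ≤ m := by omega
      have h4 : m ≤ m ^ 2 := by nlinarith
      have h5 : m ^ 2 * 2 ≤ m ^ 2 * l := Nat.mul_le_mul_left _ hl
      nlinarith
    have e : 2 ^ m = 2 ^ 40 * 4 ^ k * (2 ^ k) ^ 2 := by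
      rw [hm, show (4 : ℕ) = 2 ^ 2 from rfl, ← pow_mul, ← pow_mul, ← pow_add, ← pow_add]
      congr 1
      ring
    rw [← hm]
    calc 2 * (m * (2 * m * l + m + 2) + 1) ^ 2 ≤ 2 * (6 * m ^ 2 * l) ^ 2 :=
          Nat.mul_le_mul_left _ (Nat.pow_le_pow_left h2 2)
      _ = (72 * m ^ 4) * l ^ 2 := by ring
      _ = (18432 * (k + 10) ^ 4) * l ^ 2 := by rw [hm]; ring
      _ ≤ (2 ^ 40 * 4 ^ k) * (2 ^ k) ^ 2 := Nat.mul_le_mul hg (Nat.pow_le_pow_left h1 2)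
      _ = 2 ^ m := e.symm

/-- the size of the constants -/
theorem consts (m : ℕ) (hm : 1 ≤ m) : nb m + mf m + mo m ≤ 25 * (2 ^ m) ^ 6 := by
  have h1 : m ≤ 2 ^ m := Nat.lt_two_pow_self.le
  have h2 : gg m ≤ (2 ^ m) ^ 2 := by
    unfold gg
    calc m * 2 ^ m ≤ 2 ^ m * 2 ^ m := Nat.mul_le_mul_right _ h1
      _ = (2 ^ m) ^ 2 := by ring
  have h3 : m ≤ gg m := by
    unfold gg
    exact Nat.le_mul_of_pos_right m (by positivity)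
  unfold nb mf mo
  obtain ⟨g, hg⟩ : ∃ g, g = gg m := ⟨_, rfl⟩
  rw [← hg] at h2 h3 ⊢
  have h4 : 1 ≤ g := hm.trans h3
  have h5 : g ≤ g ^ 2 := by nlinarith
  have h6 : g ^ 2 ≤ g ^ 3 := by nlinarith [sq_nonneg g]
  calc 4 * g ^ 3 + (2 * (3 * m + 2 * g ^ 2 + g) + 3) + (3 * m + 2 * g ^ 2 + g) ≤ 25 * g ^ 3 := by
        nlinarith
    _ ≤ 25 * ((2 ^ m) ^ 2) ^ 3 := Nat.mul_le_mul_left _ (Nat.pow_le_pow_left h2 3)
    _ = 25 * (2 ^ m) ^ 6 := by ring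

theorem logs (ρ : ℝ) (hρ : 1 ≤ ρ) : 1 ≤ Real.log (ρ + 2) ∧
    14 * ρ ≤ 2 ^ ⌈5 * Real.log (ρ + 2)⌉₊ := by
  have h0 : (0 : ℝ) < ρ + 2 := by linarith
  have h1 : 1 ≤ Real.log (ρ + 2) := by
    rw [Real.le_log_iff_exp_le h0]
    have := Real.exp_one_lt_d9
    linarith
  refine ⟨h1, ?_⟩
  have h2 : Real.exp (3 * Real.log (ρ + 2)) = (ρ + 2) ^ 3 := by
    rw [show 3 * Real.log (ρ + 2) = ((3 : ℕ) : ℝ) * Real.log (ρ + 2) by norm_num, Real.exp_nat_mul,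
      Real.exp_log h0]
  have h3 : (2 : ℝ) ^ ⌈5 * Real.log (ρ + 2)⌉₊ =
      Real.exp ((⌈5 * Real.log (ρ + 2)⌉₊ : ℝ) * Real.log 2) := by
    rw [Real.exp_nat_mul, Real.exp_log (by norm_num)]
  have h4 := Nat.le_ceil (5 * Real.log (ρ + 2))
  have h5 := Real.log_two_gt_d9
  have h6 : 3 * Real.log (ρ + 2) ≤ (⌈5 * Real.log (ρ + 2)⌉₊ : ℝ) * Real.log 2 := by
    calc 3 * Real.log (ρ + 2) ≤ (5 * Real.log (ρ + 2)) * Real.log 2 := by nlinarith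
      _ ≤ _ := mul_le_mul_of_nonneg_right h4 (by linarith)
  calc 14 * ρ ≤ (ρ + 2) ^ 3 := by nlinarith [sq_nonneg ρ]
    _ = Real.exp (3 * Real.log (ρ + 2)) := h2.symm
    _ ≤ Real.exp ((⌈5 * Real.log (ρ + 2)⌉₊ : ℝ) * Real.log 2) := Real.exp_le_exp.2 h6
    _ = _ := h3.symm

theorem par (ρ : ℝ) (hρ : 1 ≤ ρ) (l m : ℕ) (hl : 14 * ρ ≤ 2 ^ l) (hm : 1 ≤ m)
    (h : 2 * (m * (2 * m * l + m + 2) + 1) ^ 2 ≤ 2 ^ m) :
    Par m (2 * m * l + m + 2) ρ (12 * ρ) := by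
  refine ⟨hρ, le_rfl, h, ?_⟩
  have h0 : (0 : ℝ) < ρ := by linarith
  have h1 : 6 * ρ / (12 * ρ) = 1 / 2 := by field_simp; norm_num
  rw [h1]
  have h2 : (14 * ρ) ^ (2 * m) ≤ ((2 : ℝ) ^ l) ^ (2 * m) :=
    pow_le_pow_left₀ (by linarith) hl _
  have h3 : (m : ℝ) < 2 ^ m := by exact_mod_cast (Nat.lt_two_pow_self (n := m))
  have h4 : ((2 : ℝ) ^ l) ^ (2 * m) = 2 ^ (2 * m * l) := by
    rw [← pow_mul]
    congr 1
    ring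
  rw [h4] at h2
  rw [one_div, inv_pow, ← div_eq_mul_inv, div_lt_one (by positivity)]
  calc 4 * (m : ℝ) * (14 * ρ) ^ (2 * m) ≤ 4 * (m : ℝ) * 2 ^ (2 * m * l) :=
        mul_le_mul_of_nonneg_left h2 (by positivity)
    _ < 4 * 2 ^ m * 2 ^ (2 * m * l) := by
        apply mul_lt_mul_of_pos_right _ (by positivity)
        linarith
    _ = 2 ^ (2 * m * l + m + 2) := by rw [pow_add, pow_add]; ring

end PR1

open PR1 in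
theorem PR1_thm : t_PR1 := by
  obtain ⟨C, hC⟩ : ∃ C : ℕ, C = 25 * ((2 ^ 40) ^ 6 * (2 ^ 24 * 6 ^ 24)) := ⟨_, rfl⟩
  have hC24 : 24 ≤ C := by rw [hC]; norm_num
  refine ⟨C, fun ρ hρ => ?_⟩
  obtain ⟨h1, h2⟩ := logs ρ hρ
  obtain ⟨L, hL⟩ : ∃ L, L = Real.log (ρ + 2) := ⟨_, rfl⟩
  rw [← hL] at h1 h2 ⊢
  obtain ⟨l, hl⟩ : ∃ l, l = ⌈5 * L⌉₊ := ⟨_, rfl⟩
  rw [← hl] at h2
  have h3 : (l : ℝ) ≤ 6 * L := by
    have := (Nat.ceil_lt_add_one (by linarith : 0 ≤ 5 * L)).le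
    rw [← hl] at this
    linarith
  have h4 : 2 ≤ l := by
    have h5 := Nat.le_ceil (5 * L)
    rw [← hl] at h5
    have h6 : (2 : ℝ) ≤ (l : ℝ) := by linarith
    exact_mod_cast h6
  obtain ⟨k, hk, h5⟩ := ints l h4
  refine ⟨4 * k + 40, 2 * (4 * k + 40) * l + (4 * k + 40) + 2,
    par ρ hρ l _ h2 (by omega) h5, ?_⟩
  have h6 := consts (4 * k + 40) (by omega)
  have h7 : (2 ^ (4 * k + 40)) ^ 6 = (2 ^ 40) ^ 6 * (2 ^ k) ^ 24 := by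
    rw [← pow_mul, ← pow_mul, ← pow_mul, ← pow_add]
    congr 1
    ring
  have h8 : ((2 ^ k : ℕ) : ℝ) ≤ 2 * (6 * L) := by
    calc ((2 ^ k : ℕ) : ℝ) ≤ ((2 * l : ℕ) : ℝ) := by exact_mod_cast hk
      _ = 2 * (l : ℝ) := by push_cast; ring
      _ ≤ 2 * (6 * L) := by linarith
  have h9 : (((2 ^ k) ^ 24 : ℕ) : ℝ) ≤ (2 ^ 24 * 6 ^ 24) * L ^ 24 := by
    calc (((2 ^ k) ^ 24 : ℕ) : ℝ) = ((2 ^ k : ℕ) : ℝ) ^ 24 := by push_cast; ring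
      _ ≤ (2 * (6 * L)) ^ 24 := pow_le_pow_left₀ (by positivity) h8 24
      _ = (2 ^ 24 * 6 ^ 24) * L ^ 24 := by rw [mul_pow, mul_pow]; ring
  calc ((nb (4 * k + 40) + mf (4 * k + 40) + mo (4 * k + 40) : ℕ) : ℝ)
      ≤ ((25 * ((2 ^ 40) ^ 6 * (2 ^ k) ^ 24) : ℕ) : ℝ) := by
        rw [← h7]
        exact_mod_cast h6
    _ = 25 * ((2 ^ 40) ^ 6 * (((2 ^ k) ^ 24 : ℕ) : ℝ)) := by push_cast; ring
    _ ≤ 25 * ((2 ^ 40) ^ 6 * ((2 ^ 24 * 6 ^ 24) * L ^ 24)) := by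
        apply mul_le_mul_of_nonneg_left _ (by norm_num)
        exact mul_le_mul_of_nonneg_left h9 (by positivity)
    _ = (C : ℝ) * L ^ 24 := by rw [hC]; push_cast; ring
    _ ≤ (C : ℝ) * L ^ C := by
        apply mul_le_mul_of_nonneg_left _ (by positivity)
        exact pow_le_pow_right₀ h1 hC24

end Pool.Agent.CLU
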