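import Pool.Agent.CLU.Defs
import Pool.Agent.RCX.St

/-!
# Clusters of integral point sets (MP_a57197_co): the plane part, statements with proofs

RESULT.  S is a finite set in the plane, no three points collinear, all distances integers.
(a) If S splits into m sets that are Thin w, it splits into C m (log (w+2))^C convex sets (POL).
(b) For every ε > 0: if S splits into m sets that are Thin w, it splits into C m convex sets, or
all but C points of S lie in a disc of radius C (w+1)^(2+ε) (ROB).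
(c) For every ε > 0: S is the union of at most C sets, each of which lies on a circle or has all
its distances at least (its diameter)^(1-ε) (WEL).
(d) For 0 < ε < 1: Q1 holds if and only if every good S with all distances at least diam^(1-ε)
splits into K sets that are Thin (diam^((1-ε)/2)/2), K independent of S (RED).
-/

set_option autoImplicit false

open Pool.Agent.RCX

open scoped InnerProductSpace

namespace Pool.Agent.CLU

/-- CLP (130 lines; from CLL and CQE).  The cluster lemma for good sets.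
Proof.  Let e : Pl -> C, e x = (x 0 - a 0) + (x 1 - a 1) i, an isometry with e a = 0, and take
N = image of the b in S with dist a b <= ρ, F = image of the p in S with D <= dist a p in CLL
(|e b - e p| - |e p| = dist b p - dist a p is an integer).  The first alternative is the first one
here.  In the second let (A, B, C) be the equation of Γ.  If A = 0, Γ is a line, three points of Γ
are collinear, so at most two points of S are mapped into Γ, and at least mf m - 2 > mo m
points of F are not in Γ, a contradiction.  If A /= 0: Γ is the set |z - z0|² = R, z0 = -conj B / A,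
R = |B|²/A² - C/A, R >= 0 as Γ contains a point (|F| > mo m); the centre is c = e^(-1) z0, r = √R. -/
def t_CLP : Prop := ∀ (m I : ℕ) (ρ D : ℝ), Par m I ρ D → ∀ S : Finset Pl, Good S → ∀ a ∈ S,
  (∃ F ⊆ S, (∀ p ∈ F, D ≤ dist a p) ∧ mf m ≤ F.card) →
  (∀ U ⊆ S, (∀ b ∈ U, dist a b ≤ ρ) → U.card ≤ nb m) ∨
  ∃ (c : Pl) (r : ℝ), (∀ U ⊆ S, (∀ b ∈ U, dist a b ≤ ρ ∧ dist c b ≠ r) → U.card ≤ nb m) ∧
    ∀ U ⊆ S, (∀ p ∈ U, D ≤ dist a p ∧ dist c p ≠ r) → U.card ≤ mo m

/-- C3P (60 lines).  Two circles with three common points that are not collinear are equal.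
Proof.  Subtract the squared equations: <x - y, c - c'> = 0 and <x - z, c - c'> = 0 for the points
x, y, z; as x - y and x - z are linearly independent (`cr`), c = c'; then r = dist c x = r'. -/
def t_C3P : Prop := ∀ (S : Finset Pl), Good S → ∀ (c c' : Pl) (r r' : ℝ), ∀ x ∈ S, ∀ y ∈ S, ∀ z ∈ S,
  x ≠ y → x ≠ z → y ≠ z → dist c x = r → dist c y = r → dist c z = r →
  dist c' x = r' → dist c' y = r' → dist c' z = r' → c = c' ∧ r = r'

/-- TWO (140 lines; from CLP, C3P).  Structure at two scales.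
Proof.  Suppose the first alternative fails: for every x in S the set of the p in S with
3D <= dist x p has more than mf m elements (take E = this set).  So CLP applies to every x.
If for every x in S its first alternative holds, take any c, r = -1, E empty.  Otherwise for some
a the second alternative holds: c, r; let E be the set of the p in S with D <= dist a p and
dist c p /= r, |E| <= mo m.  Let x in S, not on the circle, not in E; so dist a x < D.  If the first
alternative holds for x, done.  Otherwise c', r'.  The set P of the p in S with 3D <= dist a p has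
more than mf m = 2 mo m + 3 elements, all with D <= dist a p and D <= dist x p; at most mo m of
them are off the circle c, r, at most mo m off c', r'; so three of them are on both circles, and
the circles are equal by C3P.  So |U| <= nb m by CLP for x. -/
def t_TWO : Prop := ∀ (m I : ℕ) (ρ D : ℝ), Par m I ρ D → ∀ S : Finset Pl, Good S →
  (∃ a ∈ S, ∃ E ⊆ S, E.card ≤ mf m ∧ ∀ x ∈ S, x ∉ E → dist a x < 3 * D) ∨
  ∃ (c : Pl) (r : ℝ) (E : Finset Pl), E ⊆ S ∧ E.card ≤ mo m ∧
    ∀ x ∈ S, dist c x ≠ r → x ∉ E → ∀ U ⊆ S,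
      (∀ y ∈ U, y ≠ x ∧ dist x y ≤ ρ ∧ dist c y ≠ r ∧ y ∉ E) → U.card ≤ nb m

/-- CIR (60 lines).  Points on a circle are in convex position.
Proof.  `StrictConvexSpace`: every point of the sphere is an extreme point of the closed ball; or
directly: for x on the circle the functional <. - x, x - c> is < 0 on all other points of the
circle, hence on their convex hull. -/
def t_CIR : Prop := ∀ (S : Finset Pl) (c : Pl) (r : ℝ), (∀ x ∈ S, dist c x = r) → Cp 1 S

/-- UNI (60 lines).  Unions.  Colour the points of A by the colours of A, the others by the colours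
of B; the classes are subsets of classes.  (`ConvexIndependent` for a subset: see
`Pool.Agent.RCX.ASM.add_small`, `branch_ind` in Results/MP_a57197_co/ShortDistance.lean.) -/
def t_UNI : Prop := ∀ (k l : ℕ) (A B S : Finset Pl), Cp k A → Cp l B → S ⊆ A ∪ B → Cp (k + l) S

/-- SNG (40 lines).  Every point its own class. -/
def t_SNG : Prop := ∀ (n : ℕ) (S : Finset Pl), S.card ≤ n → Cp (n + 1) S

/-- THC (60 lines; from CLS, MRG).  Thin classes in which every point has few close neighbours.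
Proof.  For each class of the split use CLS with k, j = 0, d = ρ, h = √(ρ/2), w < h; glue by MRG
(see `partC`, `glue`, `thin_cls` in RCX/ASM.lean). -/
def t_THC : Prop := ∀ (k : ℕ) (S : Finset Pl) (m : ℕ) (w ρ : ℝ), Good S → 0 ≤ w →
  2 * w ^ 2 < ρ → ThinSplit m w S →
  (∀ x ∈ S, ∀ U ⊆ S, (∀ y ∈ U, y ≠ x ∧ dist x y ≤ ρ) → U.card ≤ k) → Cp (m * (k + 1)) S

/-- THD (80 lines; from THC, CIR, UNI, SNG).  The second alternative of TWO for a thin split.
Proof.  S is the union of the part on the circle (CIR), E (SNG) and the rest S2, for which THC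
applies with k = nb m (a subset of S has a thin split as well). -/
def t_THD : Prop := ∀ (S : Finset Pl) (m m' : ℕ) (w ρ : ℝ) (c : Pl) (r : ℝ) (E : Finset Pl),
  Good S → 0 ≤ w → 2 * w ^ 2 < ρ → ThinSplit m' w S → E ⊆ S → E.card ≤ mo m →
  (∀ x ∈ S, dist c x ≠ r → x ∉ E → ∀ U ⊆ S,
    (∀ y ∈ U, y ≠ x ∧ dist x y ≤ ρ ∧ dist c y ≠ r ∧ y ∉ E) → U.card ≤ nb m) →
  Cp (m' * (nb m + 1) + (mo m + 2)) S

/-- PR1 (150 lines).  Parameters for the logarithmic bound: D = 12ρ, so 6ρ/D = 1/2.
Proof.  Let L = log2 (14ρ) > 3, I = ceil (2 m L + log2 (4m)) + 1 (in particular 2^I > 4 m (14ρ)^(2m));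
I <= 2 m L + m + 4, so m I + 1 <= 8 m² L.  It remains 128 m^4 L² <= 2^m; take
m = ceil (4 log2 L) + 60: 2^m >= 2^60 L^4, m <= 4 log2 L + 61 and 128 m^4 <= 2^60 L^2 (calculus; any
other choice of m with 2^m a power of L will do).  nb, mf, mo are polynomials in m 2^m <= C L^5
and log (ρ+2) >= 1, L <= C log (ρ+2). -/
def t_PR1 : Prop := ∃ C : ℕ, ∀ ρ : ℝ, 1 ≤ ρ → ∃ m I : ℕ, Par m I ρ (12 * ρ) ∧
  ((nb m + mf m + mo m : ℕ) : ℝ) ≤ C * Real.log (ρ + 2) ^ C

/-- PR2 (100 lines).  Parameters for D = ρ^(1+ε).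
Proof.  6ρ/D = 6 ρ^(-ε).  Choose m so large that I := ceil ((2m+1)/ε) has 2 (mI+1)² <= 2^m (possible:
I <= (2m+1)/ε + 1).  Then 4 m (14ρ)^(2m) (6 ρ^(-ε))^I = const ρ^(2m - εI) <= const / ρ for ρ >= 1, so it
is < 1 for large ρ; and ρ^ε >= 12 for large ρ. -/
def t_PR2 : Prop := ∀ ε : ℝ, 0 < ε → ∃ (m I : ℕ) (ρ0 : ℝ), 1 ≤ ρ0 ∧
  ∀ ρ : ℝ, ρ0 ≤ ρ → Par m I ρ (ρ ^ (1 + ε))

/-- ROB (120 lines; from TWO, THD, PR2).  Part (b).
Proof.  PR2 with ε/2 gives m, I, ρ0; let ρ = 2w² + ρ0, D = ρ^(1+ε/2), and apply TWO.  First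
alternative: |E| <= mf m, dist a x < 3D <= C (w+1)^(2+ε), since ρ <= (2+ρ0)(w+1)².  Second
alternative: THD, m' (nb m + 1) + (mo m + 2) <= C m', as m' >= 1 (there is a function Pl -> Fin m');
enlarge by the second part of MRG. -/
def t_ROB : Prop := ∀ ε : ℝ, 0 < ε → ∃ C : ℕ, ∀ (S : Finset Pl) (m : ℕ) (w : ℝ), Good S → 0 ≤ w →
  ThinSplit m w S → Cp (C * m) S ∨
    ∃ a ∈ S, ∃ E ⊆ S, E.card ≤ C ∧ ∀ x ∈ S, x ∉ E → dist a x ≤ C * (w + 1) ^ (2 + ε)

/-- CVR (80 lines).  Counting by covering.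
Proof.  Put x into the square (floor (2 x0/ρ), floor (2 x1/ρ)).  Two points in the same square have
distance < ρ, so each square contains at most k + 1 points of X.  The coordinates of the points
of X vary by at most 144ρ, so there are at most 290² <= 10^5 squares that meet X. -/
def t_CVR : Prop := ∀ (X : Finset Pl) (ρ : ℝ) (k : ℕ), 0 < ρ →
  (∀ x ∈ X, ∀ y ∈ X, dist x y ≤ 144 * ρ) →
  (∀ x ∈ X, ∀ U ⊆ X, (∀ y ∈ U, y ≠ x ∧ dist x y ≤ ρ) → U.card ≤ k) →
  X.card ≤ 100000 * (k + 1)

/-- GIP (160 lines; from TWO, CVR, CIR, UNI, SNG, PR1, MRG).  Sets of given diameter.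
Proof.  Induction on n; K_n is the number of classes.  For n <= 7 (2^n <= 144): the set has at
most (2 2^n + 3)² points or so, e.g. by CVR with ρ = 1 - η < 1 ... (all distances are >= 1, use CVR
with ρ = 0.99 and k = 0, or any other way), SNG.  For n >= 8 let ρ = 2^n/144 > 1, D = 12ρ, m, I from
PR1.  TWO: first alternative: X minus E lies in a disc of radius 3D = 2^n/4, so its diameter is at
most 2^(n-1), K_n <= K_(n-1) + mf m + 1.  Second: X = (part on the circle) + E + X2, CVR gives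
|X2| <= 10^5 (nb m + 1), K_n <= 1 + (mo m + 1) + (10^5 (nb m + 1) + 1).  So K_n <= K_(n-1) + P with
P <= C' (n+1)^C', K_n <= (n+1) C' (n+1)^C' <= C (n+1)^C.  (`Cp` may be enlarged by MRG.) -/
def t_GIP : Prop := ∃ C : ℕ, ∀ (n : ℕ) (X : Finset Pl), Good X →
  (∀ x ∈ X, ∀ y ∈ X, dist x y ≤ 2 ^ n) → Cp (C * (n + 1) ^ C) X

/-- POL (130 lines; from TWO, THD, PR1, GIP, UNI, SNG).  Part (a).
Proof.  ρ = 2w² + 1, D = 12ρ, m, I from PR1.  TWO; second alternative: THD gives
m' (nb m + 1) + (mo m + 2) classes.  First: S = E + X, X in a disc of radius 3D = 36ρ, diameter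
<= 72ρ <= 2^n with n <= log2 (72ρ) + 1; GIP, UNI, SNG: C'(n+1)^C' + mf m + 1 classes.  All this
is <= C m' (log (w+2))^C for a suitable C, as log (w+2) >= log 2, m' >= 1; to have a base > 1 the
bound is stated with log (w+3) > 1. -/
def t_POL : Prop := ∃ C : ℕ, ∀ (S : Finset Pl) (m : ℕ) (w : ℝ), Good S → 0 ≤ w →
  ThinSplit m w S → ∀ k : ℕ, (m : ℝ) * (C * Real.log (w + 3) ^ C) ≤ k → Cp k S

/-- `X` is a union of `C` classes, each on a circle or with all distances at least
(its diameter)^(1-ε) -/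
def WS (ε : ℝ) (C : ℕ) (X : Finset Pl) : Prop := ∃ f : Pl → Fin C, ∀ i : Fin C,
  (∃ (c : Pl) (r : ℝ), ∀ x ∈ X, f x = i → dist c x = r) ∨
  ∀ x ∈ X, ∀ y ∈ X, f x = i → f y = i → x ≠ y →
    Metric.diam {z | z ∈ X ∧ f z = i} ^ (1 - ε) ≤ dist x y

/-- WSU (100 lines).  Rules for WS: unions, small sets, enlarging C, gluing, and sets in which all
points have few neighbours at distance <= (diameter)^(1-ε) (third part; by GRD with R x y :=
dist x y <= ρ; a class has distances > ρ >= (its diameter)^(1-ε), 1-ε >= 0). -/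
def t_WSU : Prop := ∀ ε : ℝ, 0 < ε → ε < 1 →
  (∀ (k l : ℕ) (A B S : Finset Pl), WS ε k A → WS ε l B → S ⊆ A ∪ B → WS ε (k + l) S) ∧
  (∀ (n : ℕ) (S : Finset Pl), S.card ≤ n → WS ε (n + 1) S) ∧
  (∀ (k : ℕ) (S : Finset Pl) (ρ : ℝ), Metric.diam (S : Set Pl) ^ (1 - ε) ≤ ρ →
    (∀ x ∈ S, ∀ U ⊆ S, (∀ y ∈ U, y ≠ x ∧ dist x y ≤ ρ) → U.card ≤ k) → WS ε (k + 1) S) ∧
  (∀ (S : Finset Pl) (c : Pl) (r : ℝ), (∀ x ∈ S, dist c x = r) → WS ε 1 S) ∧
  (∀ (k l : ℕ) (S : Finset Pl), 0 < k → k ≤ l → WS ε k S → WS ε l S) ∧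
  (∀ (k l : ℕ) (S : Finset Pl) (g : Pl → Fin k),
    (∀ (i : Fin k) (T : Finset Pl), (∀ x, x ∈ T ↔ x ∈ S ∧ g x = i) → WS ε l T) →
    WS ε (k * l) S)

/-- BDC (50 lines).  A good set of bounded diameter has boundedly many points.
Proof.  All distances of distinct points are >= 1.  Squares of side 1/2: at most (2Δ+2)² of them
meet X, each contains at most one point of X. -/
def t_BDC : Prop := ∀ Δ : ℝ, ∃ n : ℕ, ∀ X : Finset Pl, Good X →
  Metric.diam (X : Set Pl) ≤ Δ → X.card ≤ n

/-- ITR (170 lines; from TWO, WSU, BDC, PR2).  Iteration of TWO.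
Proof.  Induction on k; k = 0: X' = X, A = 1.  k -> k+1: let C, A be the constants for k, X' the
set obtained, δ = diam X' <= A Δ^θ, θ = (1-ε²)^k, Δ = diam X.  PR2 gives m, I, ρ0.  If
δ^(1-ε) < ρ0, then δ is bounded (by ρ0^(1/(1-ε))), |X'| is bounded by BDC, so WS for X' and for
X minus X' by WSU (second part), and for X by WSU (first part).  Otherwise ρ = δ^(1-ε),
D = ρ^(1+ε) = δ^(1-ε²), and TWO for X'.  First alternative: X'' = X' minus E has diameter
<= 6D <= 6 A^(1-ε²) Δ^(θ(1-ε²)), |X minus X''| <= C + mf m.  Second: X' = (part on a circle) + E +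
X2 and WSU, third part, for X2 (k = nb m, diam X2 <= δ). -/
def t_ITR : Prop := ∀ ε : ℝ, 0 < ε → ε < 1 → ∀ k : ℕ, ∃ (C : ℕ) (A : ℝ), 0 < A ∧
  ∀ X : Finset Pl, Good X → WS ε C X ∨ ∃ X' ⊆ X, (X \ X').card ≤ C ∧
    Metric.diam (X' : Set Pl) ≤ A * Metric.diam (X : Set Pl) ^ ((1 - ε ^ 2) ^ k)

/-- DEC (helper65).  Known from RCX: `Pool.Agent.RCX.ASM.dec`. -/
def t_DEC : Prop := ∀ S : Finset Pl, Good S →
  ∃ (S' : Finset Pl) (g : Pl → Fin 4), S' ⊆ S ∧ (S \ S').card ≤ 2 ∧
    ∀ x ∈ S', ∀ y ∈ S', x ≠ y → g x = g y → Metric.diam (S' : Set Pl) ≤ 6 * dist x y ^ 4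

/-- WEL (150 lines; from ITR, BDC, WSU, DEC).  Part (c).
Proof.  DEC splits S into at most two points and four classes X whose distances
d satisfy diam X <= 6 d^4 (diam X <= diam S').  Choose k with (1-ε²)^k <= 1/8 and apply ITR to X.
If X' has two points x /= y: (diam X/6)^(1/4) <= dist x y <= diam X' <= A (diam X)^θ,
θ = (1-ε²)^k <= 1/8, so diam X <= 1 or (diam X)^(1/8) <= 6^(1/4) A; hence diam X is bounded, |X| is
bounded by BDC, WSU (second part).  If |X'| <= 1, |X| <= C + 1.  Glue by WSU.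
(For ε >= 1 use the result for ε = 1/2 ... not needed.) -/
def t_WEL : Prop := ∀ ε : ℝ, 0 < ε → ε < 1 → ∃ C : ℕ, ∀ S : Finset Pl, Good S → WS ε C S

/-- RED (120 lines; from WEL, PEE, SEP, CIR, MRG).  Part (d).
Proof.  Left to right: SEP.  Right to left: let K be given, C from WEL.  Each class X of S is on
a circle (Cp 1 by CIR), or well spaced, with a split into K sets that are Thin w,
w = (diam X)^((1-ε)/2)/2.  If diam X = 0, X has at most one point.  Otherwise
h = √((diam X)^(1-ε)/2) > w, 2h² <= all distances, and PEE with j = 0 shows that each thin class is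
convex.  So S splits into C max(K, 1) convex sets (MRG). -/
def t_RED : Prop := ∀ ε : ℝ, 0 < ε → ε < 1 →
  ((∃ K : ℕ, ∀ S : Finset Pl, Good S → Cp K S) ↔
    ∃ K : ℕ, ∀ S : Finset Pl, Good S →
      (∀ x ∈ S, ∀ y ∈ S, x ≠ y → Metric.diam (S : Set Pl) ^ (1 - ε) ≤ dist x y) →
      ThinSplit K (Metric.diam (S : Set Pl) ^ ((1 - ε) / 2) / 2) S)

end Pool.Agent.CLU
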