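import Mathlib
import Pool.Agent.CLU.StP

set_option autoImplicit false

namespace Pool.Agent.CLU

open Filter Topology

namespace PR2

/-- the choice of `m` -/
theorem exists_m (c : ℕ) (hc : 1 ≤ c) : ∃ m : ℕ, 1 ≤ m ∧ 2 * (m * ((2 * m + 1) * c) + 1) ^ 2 ≤ 2 ^ m := by
  have h1 : Tendsto (fun n : ℕ => (n : ℝ) ^ 4 / (2 : ℝ) ^ n) atTop (𝓝 0) :=
    tendsto_pow_const_div_const_pow_of_one_lt 4 one_lt_two
  have hc0 : (0 : ℝ) < 32 * (c : ℝ) ^ 2 := by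
    have : (0 : ℝ) < c := by exact_mod_cast hc
    positivity
  have h2 := (h1.eventually_lt_const (div_pos one_pos hc0)).and (eventually_ge_atTop 1)
  obtain ⟨m, hm, hm1⟩ := h2.exists
  refine ⟨m, hm1, ?_⟩
  have h3 : 32 * (c : ℝ) ^ 2 * (m : ℝ) ^ 4 ≤ (2 : ℝ) ^ m := by
    rw [div_lt_div_iff₀ (by positivity) hc0] at hm
    linarith
  have h4 : 32 * c ^ 2 * m ^ 4 ≤ 2 ^ m := by exact_mod_cast h3
  have h5 : m * ((2 * m + 1) * c) + 1 ≤ 4 * c * m ^ 2 := by nlinarith [Nat.mul_le_mul hm1 hc, Nat.mul_le_mul (Nat.mul_le_mul hm1 hc) hm1, Nat.mul_le_mul hc (Nat.le_refl m), Nat.mul_le_mul hc (Nat.mul_le_mul hm1 hm1), Nat.mul_le_mul hm1 (Nat.le_refl (m * c))]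
  calc 2 * (m * ((2 * m + 1) * c) + 1) ^ 2 ≤ 2 * (4 * c * m ^ 2) ^ 2 :=
        Nat.mul_le_mul_left 2 (Nat.pow_le_pow_left h5 2)
    _ = 32 * c ^ 2 * m ^ 4 := by ring
    _ ≤ 2 ^ m := h4

end PR2

theorem PR2_thm : t_PR2 := by
  intro ε hε
  obtain ⟨c, hc⟩ := exists_nat_gt (1 / ε)
  have hc1 : 1 ≤ c := by
    have h1 : (0 : ℝ) < c := (div_pos one_pos hε).trans hc
    exact_mod_cast h1
  have hεc : 1 ≤ ε * c := by
    rw [div_lt_iff₀ hε] at hc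
    linarith
  obtain ⟨m, hm1, hm⟩ := PR2.exists_m c hc1
  set I : ℕ := (2 * m + 1) * c with hI
  set K : ℝ := 4 * (m : ℝ) * 14 ^ (2 * m) * 6 ^ I with hK
  have hK0 : 0 ≤ K := by positivity
  refine ⟨m, I, max (K + 1) (max 1 ((12 : ℝ) ^ (1 / ε))), (le_max_left _ _).trans (le_max_right _ _),
    fun ρ hρ => ?_⟩
  have hρK : K + 1 ≤ ρ := (le_max_left _ _).trans hρ
  have hρ1 : 1 ≤ ρ := ((le_max_left _ _).trans (le_max_right _ _)).trans hρ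
  have hρ12 : (12 : ℝ) ^ (1 / ε) ≤ ρ := ((le_max_right _ _).trans (le_max_right _ _)).trans hρ
  have hρ0 : 0 < ρ := one_pos.trans_le hρ1
  have hD : ρ ^ (1 + ε) = ρ * ρ ^ ε := by rw [Real.rpow_add hρ0, Real.rpow_one]
  have h12 : 12 ≤ ρ ^ ε := by
    have h1 := Real.rpow_le_rpow (by positivity) hρ12 hε.le
    rwa [← Real.rpow_mul (by norm_num), one_div, inv_mul_cancel₀ hε.ne', Real.rpow_one] at h1
  refine ⟨hρ1, ?_, hm, ?_⟩
  · rw [hD]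
    nlinarith
  · have hρε : 0 < ρ ^ ε := by linarith
    have h1 : 6 * ρ / ρ ^ (1 + ε) = 6 / ρ ^ ε := by
      rw [hD, mul_comm 6 ρ, mul_div_mul_left _ _ hρ0.ne']
    have h2 : ρ ^ (2 * m + 1) ≤ (ρ ^ ε) ^ I := by
      rw [← Real.rpow_natCast (ρ ^ ε) I, ← Real.rpow_mul hρ0.le, ← Real.rpow_natCast ρ (2 * m + 1)]
      refine Real.rpow_le_rpow_of_exponent_le hρ1 ?_
      rw [hI]
      push_cast
      have h3 : (0 : ℝ) ≤ 2 * m + 1 := by positivity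
      nlinarith
    rw [h1, div_pow, mul_pow]
    have h4 : 4 * (m : ℝ) * (14 ^ (2 * m) * ρ ^ (2 * m)) * (6 ^ I / (ρ ^ ε) ^ I) =
        K * ρ ^ (2 * m) / (ρ ^ ε) ^ I := by
      rw [hK]
      ring
    rw [h4, div_lt_one (by positivity)]
    refine lt_of_lt_of_le ?_ h2
    rw [pow_succ, mul_comm]
    exact mul_lt_mul_of_pos_left (by linarith) (by positivity)

end Pool.Agent.CLU
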