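import Pool.Agent.CLU.St

/-!
# CLU_QLA: few near points on `Q` if there are enough good far points
-/

set_option autoImplicit false

open Polynomial Polynomial.Bivariate ComplexConjugate

namespace Pool.Agent.CLU

theorem QLA_thm (h1 : t_GPT) (h2 : t_SEL) (h3 : t_NSQ) (h4 : t_BEZ) : t_QLA := by
  classical
  intro m Q N A hm hQ hBD hpos hA hgood hG U hU hUz
  obtain ⟨X0, hX0, hX⟩ := h1 (gg m) Q hQ hBD hpos
  -- good second coordinates
  have hw : ∀ z : ℂ, ∃ w : ℂ, z ∈ A \ X0 →
      Q.evalEval z w = 0 ∧ (derivative Q).evalEval z w ≠ 0 ∧ w ≠ conj z := by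
    intro z
    by_cases hz : z ∈ A \ X0
    · rw [Finset.mem_sdiff] at hz
      obtain ⟨W, hWc, hW⟩ := hX z hz.2
      have hex : ∃ w ∈ W, w ≠ conj z := by
        rcases hgood z hz.1 with h | h
        · have hne : W.Nonempty := by
            rw [← Finset.card_pos, hWc]
            exact hpos
          obtain ⟨w, hw⟩ := hne
          refine ⟨w, hw, fun he => h ?_⟩
          rw [← he]
          exact (hW w hw).1
        · exact Finset.exists_mem_ne (by omega) _
      obtain ⟨w, hw, hne⟩ := hex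
      exact ⟨w, fun _ => ⟨(hW w hw).1, (hW w hw).2, hne⟩⟩
    · exact ⟨0, fun h => absurd h hz⟩
  choose w hw using hw
  obtain ⟨t, htA, htc, ht⟩ := h2 (A \ X0) (fun z => conj (w z)) (by
    intro z hz he
    apply (hw z hz).2.2
    have := congrArg conj he
    simpa using this)
  have hcard : m ≤ t.card := by
    have e1 := Finset.le_card_sdiff X0 A
    have e2 : mo m = 3 * m + 2 * gg m ^ 2 + gg m := rfl
    omega
  obtain ⟨s, hst, hsc⟩ := Finset.exists_subset_card_eq hcard
  let e := s.equivFinOfCardEq hsc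
  let p : Fin m → ℂ := fun j => (e.symm j : ℂ)
  have hps : ∀ j, p j ∈ s := fun j => (e.symm j).2
  have hpinj : Function.Injective p := fun i j hij => e.symm.injective (Subtype.ext hij)
  have hsA : ∀ z ∈ s, z ∈ A \ X0 := fun z hz => htA (hst hz)
  obtain ⟨G, hGBD, hGN, hGK⟩ := hG p hpinj
    (fun j => (Finset.mem_sdiff.mp (hsA _ (hps j))).1)
  obtain ⟨K, iK, iC, ψ, hψ, hsq⟩ := h3 Q s w hQ hpos (by
    intro z hz
    refine ⟨(hw z (hsA z hz)).1, (hw z (hsA z hz)).2.1, fun r hr he => ?_⟩
    have : conj (w z) = r := by rw [he]; simp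
    apply ht z (hst hz)
    show conj (w z) ∈ t
    rw [this]
    exact hst hr)
  have hψG : ψ G ≠ 0 := by
    refine hGK K ψ fun J hJ => ?_
    have := hsq (J.image p) (by
      intro x hx
      obtain ⟨j, _, rfl⟩ := Finset.mem_image.mp hx
      exact hps j) (hJ.image p)
    rwa [Finset.prod_image (fun a _ b _ h => hpinj h)] at this
  have hndvd : ¬ Q ∣ G := fun h => hψG ((hψ G).mpr h)
  have hB := h4 Q G (gg m) (gg m) (gg m) (gg m) hQ hndvd hBD hGBD
    (U.image fun b => (b, conj b)) (by
      intro q hq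
      obtain ⟨b, hb, rfl⟩ := Finset.mem_image.mp hq
      exact ⟨hUz b hb, hGN b (hU hb)⟩)
  rw [Finset.card_image_of_injective _ (fun a b h => (Prod.mk.inj h).1)] at hB
  nlinarith

end Pool.Agent.CLU
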