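import Pool.Agent.CLU.St

/-!
# Equations of bidegree (1, 1) are circles or lines (module QLB of project CLU)
-/

set_option autoImplicit false

open Polynomial Polynomial.Bivariate ComplexConjugate

namespace Pool.Agent.CLU

namespace QLB

theorem coeff_swap (Q : ℂ[X][Y]) (i j : ℕ) :
    ((Bivariate.swap Q).coeff i).coeff j = (Q.coeff j).coeff i := by
  induction Q using Polynomial.induction_on' with
  | add p q hp hq => simp only [map_add, coeff_add, hp, hq]
  | monomial n a =>
    induction a using Polynomial.induction_on' with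
    | add p q hp hq => simp only [map_add, coeff_add, hp, hq]
    | monomial m r =>
      rw [Bivariate.swap_monomial_monomial]
      simp only [coeff_monomial]
      split_ifs <;> simp_all [coeff_monomial]

theorem eval_one {p : ℂ[X]} (h : p.natDegree ≤ 1) (z : ℂ) :
    p.eval z = p.coeff 0 + p.coeff 1 * z := by
  conv_lhs => rw [eq_X_add_C_of_natDegree_le_one h]
  rw [eval_add, eval_mul, eval_C, eval_X, eval_C]
  ring

theorem eval_form {Q : ℂ[X][Y]} (h1 : Q.natDegree = 1) (h2 : (Bivariate.swap Q).natDegree = 1)
    (z w : ℂ) : Q.evalEval z w = (Q.coeff 0).coeff 0 + (Q.coeff 0).coeff 1 * z +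
      ((Q.coeff 1).coeff 0 + (Q.coeff 1).coeff 1 * z) * w := by
  have hd : ∀ j, (Q.coeff j).natDegree ≤ 1 := by
    intro j
    rw [natDegree_le_iff_coeff_eq_zero]
    intro i hi
    rw [← coeff_swap, coeff_eq_zero_of_natDegree_lt (h2.trans_lt hi), coeff_zero]
  rw [← eval_one (hd 0), ← eval_one (hd 1)]
  conv_lhs => rw [eq_X_add_C_of_natDegree_le_one h1.le]
  rw [evalEval_add, evalEval_mul, evalEval_C, evalEval_X, evalEval_C]
  ring

end QLB

open QLB in
theorem QLB_thm : t_QLB := by
  intro Q h1 h2
  set a := (Q.coeff 0).coeff 0 with ha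
  set b := (Q.coeff 0).coeff 1 with hb
  set c := (Q.coeff 1).coeff 0 with hc
  set d := (Q.coeff 1).coeff 1 with hd
  have hev : ∀ z, Q.evalEval z (conj z) = 0 → a + b * z + (c + d * z) * conj z = 0 := by
    intro z hz
    rw [← hz, eval_form h1 h2]
  have hre : ∀ u v z : ℂ, (u * z + v * conj z).re = ((u + conj v) * z).re := by
    intro u v z
    simp only [Complex.add_re, Complex.mul_re, Complex.conj_re, Complex.conj_im, Complex.add_im]
    ring
  by_cases hd0 : d = 0
  · have hc0 : c ≠ 0 := by
      intro hc0
      have : Q.coeff 1 = 0 := by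
        have hdeg : (Q.coeff 1).natDegree ≤ 1 := by
          rw [natDegree_le_iff_coeff_eq_zero]
          intro i hi
          rw [← coeff_swap, coeff_eq_zero_of_natDegree_lt (h2.trans_lt hi), coeff_zero]
        rw [eq_X_add_C_of_natDegree_le_one hdeg, ← hd, ← hc, hd0, hc0]
        simp
      have h3 : Q.coeff Q.natDegree ≠ 0 := by
        rw [coeff_natDegree, ne_eq, leadingCoeff_eq_zero]
        rintro rfl
        simp at h1
      rw [h1] at h3
      exact h3 this
    have hb0 : b ≠ 0 := by
      intro hb0
      have h3 : (Bivariate.swap Q).coeff (Bivariate.swap Q).natDegree ≠ 0 := by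
        rw [coeff_natDegree, ne_eq, leadingCoeff_eq_zero]
        intro h0
        rw [h0] at h2
        simp at h2
      rw [h2] at h3
      refine h3 ?_
      ext j
      rw [coeff_swap, coeff_zero]
      rcases Nat.lt_or_ge 1 j with hj | hj
      · rw [coeff_eq_zero_of_natDegree_lt (h1.trans_lt hj), coeff_zero]
      · interval_cases j
        · exact hb0
        · exact hd0
    have key : ∀ l : ℂ, l * b + conj (l * c) ≠ 0 →
        ∃ Γ, Circ Γ ∧ ∀ z, Q.evalEval z (conj z) = 0 → z ∈ Γ := by
      intro l hl
      refine ⟨{z | (0 : ℝ) * ‖z‖ ^ 2 + 2 * (((l * b + conj (l * c)) / 2) * z).re + (l * a).re = 0},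
        ⟨0, (l * a).re, (l * b + conj (l * c)) / 2, Or.inr (div_ne_zero hl two_ne_zero), rfl⟩,
        fun z hz => ?_⟩
      have h3 := hev z hz
      rw [hd0, zero_mul, add_zero] at h3
      have h4 : (l * b * z + l * c * conj z).re + (l * a).re = 0 := by
        rw [← Complex.add_re]
        have : l * b * z + l * c * conj z + l * a = l * (a + b * z + c * conj z) := by ring
        rw [this, h3, mul_zero, Complex.zero_re]
      rw [hre] at h4
      show (0 : ℝ) * ‖z‖ ^ 2 + 2 * (((l * b + conj (l * c)) / 2) * z).re + (l * a).re = 0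
      have h5 : 2 * (((l * b + conj (l * c)) / 2) * z).re = ((l * b + conj (l * c)) * z).re := by
        have : ((l * b + conj (l * c)) * z) = ((2 : ℝ) : ℂ) * (((l * b + conj (l * c)) / 2) * z) := by
          push_cast; ring
        rw [this, Complex.re_ofReal_mul]
      rw [h5]
      linarith
    by_cases h3 : b + conj c = 0
    · refine key Complex.I ?_
      have : Complex.I * b + conj (Complex.I * c) = 2 * Complex.I * b := by
        rw [map_mul, Complex.conj_I, eq_neg_of_add_eq_zero_right h3]
        ring
      rw [this]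
      exact mul_ne_zero (mul_ne_zero two_ne_zero Complex.I_ne_zero) hb0
    · refine key 1 ?_
      rwa [one_mul, one_mul]
  · refine ⟨{z | (1 : ℝ) * ‖z‖ ^ 2 + 2 * (((b / d + conj (c / d)) / 2) * z).re + (a / d).re = 0},
      ⟨1, (a / d).re, (b / d + conj (c / d)) / 2, Or.inl one_ne_zero, rfl⟩, fun z hz => ?_⟩
    have h3 := hev z hz
    have h4 : (b / d) * z + (c / d) * conj z + a / d + ((‖z‖ ^ 2 : ℝ) : ℂ) = 0 := by
      have h5 : ((‖z‖ ^ 2 : ℝ) : ℂ) = z * conj z := by
        rw [Complex.mul_conj, Complex.normSq_eq_norm_sq]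
      rw [h5]
      field_simp
      linear_combination h3
    have h6 := congrArg Complex.re h4
    rw [Complex.add_re, Complex.add_re, hre, Complex.ofReal_re, Complex.zero_re] at h6
    show (1 : ℝ) * ‖z‖ ^ 2 + 2 * (((b / d + conj (c / d)) / 2) * z).re + (a / d).re = 0
    have h5 : 2 * (((b / d + conj (c / d)) / 2) * z).re = ((b / d + conj (c / d)) * z).re := by
      have : ((b / d + conj (c / d)) * z) = ((2 : ℝ) : ℂ) * (((b / d + conj (c / d)) / 2) * z) := by
        push_cast; ring
      rw [this, Complex.re_ofReal_mul]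
    rw [h5]
    linarith

end Pool.Agent.CLU
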