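import Pool.Agent.CLU.St

/-!
# CLU_QLC: few near points on `Q`, or `Q` is a circle or line
-/

set_option autoImplicit false

open Polynomial Polynomial.Bivariate ComplexConjugate

namespace Pool.Agent.CLU

namespace QLC

theorem evalEval_swap (x y : ℂ) (p : ℂ[X][Y]) :
    (Bivariate.swap p).evalEval x y = p.evalEval y x := by
  induction p using Polynomial.induction_on' with
  | add p q hp hq => rw [map_add, evalEval_add, evalEval_add, hp, hq]
  | monomial n a =>
    induction a using Polynomial.induction_on' with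
    | add p q hp hq => rw [map_add, map_add, evalEval_add, evalEval_add, hp, hq]
    | monomial m r =>
      rw [Bivariate.swap_monomial_monomial]
      simp only [evalEval, eval_monomial, eval_mul, eval_pow, eval_C]
      ring

theorem swap_qp (p : ℂ) : Bivariate.swap (qp (conj p)) = qp p := by
  unfold qp
  simp only [map_mul, map_sub, Bivariate.swap_Y, Bivariate.swap_C_C, Bivariate.swap_X,
    Complex.conj_conj]
  ring

theorem biDeg_swap {k l : ℕ} {Q : ℂ[X][Y]} (h : BiDeg k l Q) : BiDeg l k (Bivariate.swap Q) := by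
  refine ⟨?_, h.1⟩
  rw [Bivariate.swap_swap_apply]
  exact h.2

theorem irreducible_swap {Q : ℂ[X][Y]} (h : Irreducible Q) : Irreducible (Bivariate.swap Q) :=
  (MulEquiv.irreducible_iff (Bivariate.swap (R := ℂ))).mpr h

theorem hasG_swap {m : ℕ} {N : Finset ℂ} {p : Fin m → ℂ}
    (h : HasG m N (fun j => conj (p j))) : HasG m (N.image (fun z => conj z)) p := by
  obtain ⟨G, hB, hN, hK⟩ := h
  refine ⟨Bivariate.swap G, biDeg_swap hB, ?_, ?_⟩
  · intro b hb
    obtain ⟨c, hc, rfl⟩ := Finset.mem_image.mp hb
    rw [evalEval_swap, Complex.conj_conj]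
    exact hN c hc
  · intro K _ _ ψ hJ
    have := hK K (ψ.comp (Bivariate.swap (R := ℂ) : ℂ[X][Y] →+* ℂ[X][Y])) (by
      intro J hJne
      have h1 := hJ J hJne
      have e : ∀ j, (ψ.comp (Bivariate.swap (R := ℂ) : ℂ[X][Y] →+* ℂ[X][Y])) (qp (conj (p j))) =
          ψ (qp (p j)) := by
        intro j
        show ψ (Bivariate.swap (qp (conj (p j)))) = _
        rw [swap_qp]
      simp only [e]
      exact h1)
    exact this

theorem gg_pos {m : ℕ} (hm : 1 ≤ m) : 1 ≤ gg m :=
  Nat.mul_pos hm (pow_pos (by norm_num) m)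

/-- polynomials in `X` only -/
theorem few_C (g : ℕ) (q : ℂ[X]) (hq : q ≠ 0) (hd : q.natDegree ≤ g) (U : Finset ℂ)
    (hU : ∀ b ∈ U, q.eval b = 0) : U.card ≤ g := by
  classical
  calc U.card ≤ q.roots.toFinset.card := Finset.card_le_card (by
        intro b hb
        rw [Multiset.mem_toFinset, mem_roots hq]
        exact hU b hb)
    _ ≤ Multiset.card q.roots := Multiset.toFinset_card_le _
    _ ≤ q.natDegree := card_roots' q
    _ ≤ g := hd

end QLC

open QLC

theorem QLC_thm (h1 : t_QLA) (h2 : t_QLB) : t_QLC := by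
  classical
  intro m Q N F hm hQ hBD hF hG
  have hg := gg_pos hm
  have hgg : gg m ≤ 2 * gg m ^ 2 := by nlinarith
  have hQ0 : Q ≠ 0 := hQ.ne_zero
  -- degree 0 in Y
  rcases Nat.eq_zero_or_pos Q.natDegree with h0 | hpos
  · left
    intro U _ hUz
    obtain ⟨q, hq⟩ : ∃ q : ℂ[X], Q = C q := ⟨_, eq_C_of_natDegree_eq_zero h0⟩
    subst hq
    have hq0 : q ≠ 0 := fun h => hQ0 (by rw [h, C_0])
    have hd : q.natDegree ≤ gg m := by
      have := hBD.1
      rwa [Bivariate.swap_C, natDegree_map_eq_of_injective C_injective] at this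
    refine (few_C (gg m) q hq0 hd U fun b hb => ?_).trans hgg
    have := hUz b hb
    rwa [evalEval_C] at this
  rcases Nat.eq_zero_or_pos (Bivariate.swap Q).natDegree with h0' | hpos'
  · left
    intro U _ hUz
    obtain ⟨q, hq⟩ : ∃ q : ℂ[X], Bivariate.swap Q = C q := ⟨_, eq_C_of_natDegree_eq_zero h0'⟩
    have hq0 : q ≠ 0 := by
      intro h
      rw [h, C_0] at hq
      exact hQ0 ((map_eq_zero_iff _ (Bivariate.swap (R := ℂ)).injective).mp hq)
    have hQq : Q = Bivariate.swap (C q) := by rw [← hq, Bivariate.swap_swap_apply]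
    have hd : q.natDegree ≤ gg m := by
      have := hBD.2
      rwa [hQq, Bivariate.swap_C, natDegree_map_eq_of_injective C_injective] at this
    have := few_C (gg m) q hq0 hd (U.image fun z => conj z) fun b hb => by
      obtain ⟨c, hc, rfl⟩ := Finset.mem_image.mp hb
      have := hUz c hc
      rwa [hQq, evalEval_swap, evalEval_C] at this
    rw [Finset.card_image_of_injective _ (starRingEnd ℂ).injective] at this
    exact this.trans hgg
  -- positive degrees
  set Foff := F.filter (fun z => Q.evalEval z (conj z) ≠ 0) with hFoff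
  by_cases hoff : mo m ≤ Foff.card
  · left
    refine h1 m Q N Foff hm hQ hBD hpos hoff (fun z hz => Or.inl (Finset.mem_filter.mp hz).2) ?_
    exact fun p hp hpA => hG p hp fun j => (Finset.mem_filter.mp (hpA j)).1
  push Not at hoff
  have hon : mo m ≤ (F \ Foff).card := by
    have := Finset.le_card_sdiff Foff F
    omega
  by_cases h2d : 2 ≤ Q.natDegree
  · left
    refine h1 m Q N (F \ Foff) hm hQ hBD hpos hon (fun z _ => Or.inr h2d) ?_
    exact fun p hp hpA => hG p hp fun j => (Finset.mem_sdiff.mp (hpA j)).1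
  by_cases h2d' : 2 ≤ (Bivariate.swap Q).natDegree
  · left
    intro U hU hUz
    have hcard : mo m ≤ ((F \ Foff).image fun z => conj z).card := by
      rwa [Finset.card_image_of_injective _ (starRingEnd ℂ).injective]
    have key := h1 m (Bivariate.swap Q) (N.image fun z => conj z)
      ((F \ Foff).image fun z => conj z) hm (irreducible_swap hQ) (biDeg_swap hBD) hpos' hcard
      (fun z _ => Or.inr h2d') (by
        intro p hp hpA
        apply hasG_swap
        refine hG _ ((starRingEnd ℂ).injective.comp hp) fun j => ?_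
        obtain ⟨c, hc, hcp⟩ := Finset.mem_image.mp (hpA j)
        rw [← hcp, Complex.conj_conj]
        exact (Finset.mem_sdiff.mp hc).1) (U.image fun z => conj z)
      (Finset.image_subset_image hU) (by
        intro b hb
        obtain ⟨c, hc, rfl⟩ := Finset.mem_image.mp hb
        rw [evalEval_swap, Complex.conj_conj]
        exact hUz c hc)
    rwa [Finset.card_image_of_injective _ (starRingEnd ℂ).injective] at key
  · right
    obtain ⟨Γ, hΓ, hz⟩ := h2 Q (by omega) (by omega)
    refine ⟨Γ, hΓ, hz, fun U hU hUΓ => ?_⟩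
    refine (Finset.card_le_card ?_).trans hoff.le
    intro p hp
    exact Finset.mem_filter.mpr ⟨hU hp, fun h => hUΓ p hp (hz p h)⟩

end Pool.Agent.CLU
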