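import Pool.Agent.CLU.StX
import Pool.Agent.RCX.ASM

/-!
# CLU: RDX
-/

set_option autoImplicit false

open Pool.Agent.RCX

namespace Pool.Agent.CLU

namespace RDX

open Pool.Agent.RCX.ASM

/-- a well spaced set with a thin split -/
theorem spaced (hp : t_PEE) (hm : t_MRG) {ε : ℝ} {K : ℕ} {X : Finset Pl} (hX : Good X)
    (h1 : ∀ x ∈ X, ∀ y ∈ X, x ≠ y → Metric.diam (X : Set Pl) ^ (1 - ε) ≤ dist x y)
    (h2 : ThinSplit K (Metric.diam (X : Set Pl) ^ ((1 - ε) / 2) / 2) X) : Cp (K + 1) X := by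
  classical
  by_cases hd : Metric.diam (X : Set Pl) = 0
  · have hc : X.card ≤ 1 := by
      rw [Finset.card_le_one]
      intro a ha b hb
      by_contra hab
      have a1 := Metric.dist_le_diam_of_mem X.finite_toSet.isBounded (Finset.mem_coe.2 ha)
        (Finset.mem_coe.2 hb)
      rw [hd] at a1
      have a2 := dist_pos.2 hab
      linarith
    exact hm.2 X 1 (K + 1) (by omega) (cp_small (by omega))
  · have hd0 : 0 < Metric.diam (X : Set Pl) :=
      lt_of_le_of_ne Metric.diam_nonneg (Ne.symm hd)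
    set D := Metric.diam (X : Set Pl) with hD
    obtain ⟨f, hf⟩ := h2
    have hpos : 0 < D ^ ((1 - ε) / 2) := Real.rpow_pos_of_pos hd0 _
    have hsq : (D ^ ((1 - ε) / 2)) ^ 2 = D ^ (1 - ε) := by
      rw [← Real.rpow_natCast (D ^ ((1 - ε) / 2)) 2, ← Real.rpow_mul hd0.le]
      congr 1
      push_cast
      ring
    have key : ∀ i : Fin K, Cp 1 (cls X f i) := by
      intro i
      have := hp 0 (cls X f i) (√(D ^ (1 - ε) / 2)) (D ^ ((1 - ε) / 2) / 2)
        (hX.subset (cls_subset X f i)) (Real.sqrt_nonneg _) (by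
          intro x hx y hy hxy
          rw [Real.sq_sqrt (by rw [← hsq]; positivity)]
          have := h1 x (cls_subset X f i hx) y (cls_subset X f i hy) hxy
          linarith) (thin_cls (hf i)) (by
          rw [Nat.cast_zero, zero_add, one_mul]
          refine Real.lt_sqrt_of_sq_lt ?_
          rw [div_pow, hsq]
          have : 0 < D ^ (1 - ε) := Real.rpow_pos_of_pos hd0 _
          linarith)
      simpa using this
    have h3 := glue hm f key
    exact hm.2 X (K * 1) (K + 1) (by omega) h3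

end RDX

open Pool.Agent.RCX.ASM in
theorem RDX_thm (h1 : t_WEX) (hp : t_PEE) (hs : t_SEP) (hc : t_CIR) (hm : t_MRG) : t_RDX := by
  classical
  intro ε he0 he1
  obtain ⟨C, hC⟩ := h1 ε he0 he1
  refine ⟨C, ⟨?_, ?_⟩⟩
  · rintro ⟨K, hK⟩
    refine ⟨K, fun S hS _ _ => ?_⟩
    obtain ⟨f, hf⟩ := hK S hS
    refine ⟨f, fun i => hs S K f i _ ?_ (hf i)⟩
    have := Real.rpow_nonneg (Metric.diam_nonneg (s := (S : Set Pl))) ((1 - ε) / 2)
    linarith
  · rintro ⟨K, hK⟩
    refine ⟨C * (K + 1), fun S hS => ?_⟩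
    obtain ⟨f, hf⟩ := hC S hS
    refine glue hm f (fun i => ?_)
    have hX : Good (cls S f i) := hS.subset (cls_subset S f i)
    have hset : ((cls S f i : Finset Pl) : Set Pl) = {z | z ∈ S ∧ f z = i} := by
      ext z
      simp [mem_cls]
    rcases hf i with ⟨c, r, h⟩ | ⟨h, h'⟩
    · exact hm.2 _ 1 (K + 1) (by omega)
        (hc _ c r (fun x hx => h x (mem_cls.1 hx).1 (mem_cls.1 hx).2))
    · have a1 : ∀ x ∈ cls S f i, ∀ y ∈ cls S f i, x ≠ y →
          Metric.diam ((cls S f i : Finset Pl) : Set Pl) ^ (1 - ε) ≤ dist x y := by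
        intro x hx y hy hxy
        rw [hset]
        exact h x (mem_cls.1 hx).1 y (mem_cls.1 hy).1 (mem_cls.1 hx).2 (mem_cls.1 hy).2 hxy
      refine RDX.spaced hp hm hX a1 (hK _ hX a1 ?_)
      rw [hset]
      exact h' _ (cls_subset S f i) (fun x hx => (mem_cls.1 hx).2)

end Pool.Agent.CLU
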