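import Pool.Agent.CLU.St

set_option autoImplicit false

open Polynomial Polynomial.Bivariate ComplexConjugate

namespace Pool.Agent.CLU

namespace REL

theorem one_mem : (1 : ℂ → ℂ) ∈ Bi 0 :=
  Submodule.subset_span ⟨0, 0, le_rfl, le_rfl, by funext z; simp⟩

theorem prod_mem (hB : t_BIM) {m : ℕ} (I : ℕ) (G : Fin m → ℂ → ℂ) (hG : ∀ j, G j ∈ Bi I)
    (J : Finset (Fin m)) : (∏ j ∈ J, G j) ∈ Bi (J.card * I) := by
  induction J using Finset.induction_on with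
  | empty => simpa using one_mem
  | insert a J ha ih =>
    rw [Finset.prod_insert ha, Finset.card_insert_of_notMem ha]
    have h1 := hB.1 I (J.card * I) _ _ (hG a) ih
    have e : (J.card + 1) * I = I + J.card * I := by ring
    rw [e]
    exact h1

theorem prod_le {m : ℕ} (g : Fin m → ℂ) (M : ℝ) (hg : ∀ j, ‖g j‖ ≤ M) (J : Finset (Fin m)) :
    ‖∏ j ∈ J, g j‖ ≤ M ^ J.card := by
  rw [norm_prod]
  calc ∏ j ∈ J, ‖g j‖ ≤ ∏ _j ∈ J, M :=
        Finset.prod_le_prod (fun j _ => norm_nonneg _) (fun j _ => hg j)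
    _ = M ^ J.card := by rw [Finset.prod_const]

theorem prod_diff {m : ℕ} (h g : Fin m → ℂ) (M ε : ℝ) (hM : 0 ≤ M) (hε : 0 ≤ ε)
    (hh : ∀ j, ‖h j‖ ≤ M) (hg : ∀ j, ‖g j‖ ≤ M) (hd : ∀ j, ‖h j - g j‖ ≤ M * ε)
    (J : Finset (Fin m)) :
    ‖∏ j ∈ J, h j - ∏ j ∈ J, g j‖ ≤ J.card * M ^ J.card * ε := by
  induction J using Finset.induction_on with
  | empty => simp
  | insert a J ha ih =>
    rw [Finset.prod_insert ha, Finset.prod_insert ha, Finset.card_insert_of_notMem ha]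
    have e : h a * ∏ j ∈ J, h j - g a * ∏ j ∈ J, g j =
        h a * (∏ j ∈ J, h j - ∏ j ∈ J, g j) + (h a - g a) * ∏ j ∈ J, g j := by ring
    rw [e]
    refine (norm_add_le _ _).trans ?_
    rw [norm_mul, norm_mul]
    have h1 : ‖h a‖ * ‖∏ j ∈ J, h j - ∏ j ∈ J, g j‖ ≤ M * (J.card * M ^ J.card * ε) :=
      mul_le_mul (hh a) ih (norm_nonneg _) hM
    have h2 : ‖h a - g a‖ * ‖∏ j ∈ J, g j‖ ≤ (M * ε) * M ^ J.card :=
      mul_le_mul (hd a) (prod_le g M hg J) (norm_nonneg _) (by positivity)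
    push_cast
    calc _ ≤ M * (J.card * M ^ J.card * ε) + (M * ε) * M ^ J.card := add_le_add h1 h2
      _ = ((J.card : ℝ) + 1) * M ^ (J.card + 1) * ε := by ring

end REL

open REL in
theorem REL_thm (hAPX : t_APX) (hDET : t_DET) (hMIN : t_MIN) (hBIM : t_BIM) : t_REL := by
  intro m I ρ D hPar p hp N hN hint
  obtain ⟨hρ, hD, hdim, hsm⟩ := hPar
  by_contra hcon
  push Not at hcon
  have hρ0 : 0 < ρ := by linarith
  have hD0 : 0 < D := by linarith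
  -- numbering of the subsets
  have hcard : Fintype.card (Finset (Fin m)) = 2 ^ m := by simp
  let e : Finset (Fin m) ≃ Fin (2 ^ m) := Fintype.equivFinOfCardEq hcard
  obtain ⟨b, hbN, hdet⟩ := hMIN N (2 ^ m)
    (fun a z => ∏ j ∈ e.symm a, ((‖z - p j‖ - ‖p j‖ : ℝ) : ℂ)) (by
      intro c hc
      by_contra hc0
      have hc1 : (fun J => c (e J)) ≠ 0 := by
        intro h0
        refine hc0 (funext fun a => ?_)
        have := congrFun h0 (e.symm a)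
        simpa using this
      obtain ⟨z, hz, hz0⟩ := hcon _ hc1
      refine hz0 ?_
      rw [← hc z hz]
      refine Fintype.sum_equiv e _ _ fun J => ?_
      simp only [Equiv.symm_apply_apply])
  -- the determinant is an integer
  choose n hn using hint
  have hone : 1 ≤ ‖Matrix.det (Matrix.of fun (a i : Fin (2 ^ m)) =>
      ∏ j ∈ e.symm a, ((‖b i - p j‖ - ‖p j‖ : ℝ) : ℂ))‖ := by
    have h1 : (Matrix.of fun (a i : Fin (2 ^ m)) =>
        ∏ j ∈ e.symm a, ((‖b i - p j‖ - ‖p j‖ : ℝ) : ℂ)) =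
        (Int.castRingHom ℂ).mapMatrix
          (Matrix.of fun (a i : Fin (2 ^ m)) => ∏ j ∈ e.symm a, n (b i) (hbN i) j) := by
      ext a i
      rw [RingHom.mapMatrix_apply, Matrix.map_apply, Matrix.of_apply, Matrix.of_apply, map_prod]
      refine Finset.prod_congr rfl fun j _ => ?_
      rw [hn (b i) (hbN i) j]
      simp
    rw [h1, ← RingHom.map_det] at hdet ⊢
    rw [eq_intCast] at hdet ⊢
    rw [Complex.norm_intCast]
    have h2 : Matrix.det (Matrix.of fun (a i : Fin (2 ^ m)) =>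
        ∏ j ∈ e.symm a, n (b i) (hbN i) j) ≠ 0 := by
      intro h0
      rw [h0] at hdet
      exact hdet (by simp)
    exact_mod_cast Int.one_le_abs h2
  -- the approximations
  have hG : ∀ j, ∃ G ∈ Bi I, ∀ z : ℂ, ‖z‖ ≤ ρ →
      ‖((‖z - p j‖ - ‖p j‖ : ℝ) : ℂ) - G z‖ ≤ 6 * ρ * (6 * ρ / D) ^ I :=
    fun j => hAPX I ρ D (p j) hρ0 hD (hp j)
  choose G hGB hGa using hG
  have hτ0 : 0 ≤ 6 * ρ / D := by positivity
  have hτ1 : 6 * ρ / D ≤ 1 := by
    rw [div_le_one hD0]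
    linarith
  have hτI0 : 0 ≤ (6 * ρ / D) ^ I := pow_nonneg hτ0 _
  have hτI1 : (6 * ρ / D) ^ I ≤ 1 := pow_le_one₀ hτ0 hτ1
  have hh : ∀ i j, ‖((‖b i - p j‖ - ‖p j‖ : ℝ) : ℂ)‖ ≤ ρ := by
    intro i j
    rw [Complex.norm_real, Real.norm_eq_abs]
    refine le_trans ?_ (hN (b i) (hbN i))
    have h1 := abs_norm_sub_norm_le (b i - p j) (-(p j))
    rw [norm_neg] at h1
    refine h1.trans ?_
    rw [show b i - p j - -(p j) = b i by ring]
  have hg : ∀ i j, ‖G j (b i)‖ ≤ 7 * ρ := by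
    intro i j
    have h1 := hGa j (b i) (hN (b i) (hbN i))
    have h2 : ‖G j (b i)‖ ≤ ‖((‖b i - p j‖ - ‖p j‖ : ℝ) : ℂ)‖ +
        ‖((‖b i - p j‖ - ‖p j‖ : ℝ) : ℂ) - G j (b i)‖ := by
      have h3 := norm_sub_le ((‖b i - p j‖ - ‖p j‖ : ℝ) : ℂ)
        (((‖b i - p j‖ - ‖p j‖ : ℝ) : ℂ) - G j (b i))
      rwa [sub_sub_cancel] at h3
    have h4 : 6 * ρ * (6 * ρ / D) ^ I ≤ 6 * ρ * 1 := by gcongr
    have h5 := hh i j
    linarith
  have hcardle : ∀ J : Finset (Fin m), J.card ≤ m := fun J => by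
    simpa using Finset.card_le_univ J
  set s : ℝ := (7 * ρ) ^ m with hs
  set η : ℝ := m * (6 * ρ / D) ^ I with hη
  have hη0 : 0 ≤ η := by positivity
  have h14 : (1 : ℝ) ≤ (14 * ρ) ^ (2 * m) := one_le_pow₀ (by linarith)
  have hη1 : η ≤ 1 := by
    have h1 : η ≤ (14 * ρ) ^ (2 * m) * η := by nlinarith
    have h2 : 4 * (m : ℝ) * (14 * ρ) ^ (2 * m) * (6 * ρ / D) ^ I =
        4 * ((14 * ρ) ^ (2 * m) * η) := by
      rw [hη]
      ring
    rw [h2] at hsm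
    linarith
  have key := hDET (2 ^ m) ((Bi (m * I)).map (LinearMap.funLeft ℂ ℂ b))
    (fun a i => ∏ j ∈ e.symm a, G j (b i))
    (fun a i => ∏ j ∈ e.symm a, ((‖b i - p j‖ - ‖p j‖ : ℝ) : ℂ) - ∏ j ∈ e.symm a, G j (b i))
    s η ?_ ?_ ?_ ?_ hη0 hη1
  · have h1 : (Matrix.of fun (a c : Fin (2 ^ m)) => ∏ j ∈ e.symm a, G j (b c) +
        (∏ j ∈ e.symm a, ((‖b c - p j‖ - ‖p j‖ : ℝ) : ℂ) - ∏ j ∈ e.symm a, G j (b c))) =
        Matrix.of fun (a c : Fin (2 ^ m)) => ∏ j ∈ e.symm a, ((‖b c - p j‖ - ‖p j‖ : ℝ) : ℂ) := by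
      ext a c
      simp only [Matrix.of_apply]
      ring
    rw [h1] at key
    have h2 : (1 : ℝ) ≤ (((2 ^ m).factorial : ℝ) * (2 * s) ^ (2 ^ m)) ^ 2 * η ^ (2 ^ m) := by
      refine le_trans ?_ key
      nlinarith
    have hR : (((2 ^ m).factorial : ℕ) : ℝ) ≤ ((2 : ℝ) ^ m) ^ (2 ^ m) := by
      have := Nat.factorial_le_pow (2 ^ m)
      exact_mod_cast this
    have h3 : (((2 ^ m).factorial : ℝ) * (2 * s) ^ (2 ^ m)) ^ 2 * η ^ (2 ^ m) ≤
        (((2 : ℝ) ^ m) ^ (2 ^ m) * (2 * s) ^ (2 ^ m)) ^ 2 * η ^ (2 ^ m) := by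
      have hs0 : 0 ≤ s := by positivity
      gcongr
    have h4 : (((2 : ℝ) ^ m) ^ (2 ^ m) * (2 * s) ^ (2 ^ m)) ^ 2 * η ^ (2 ^ m) =
        (4 * (m : ℝ) * (14 * ρ) ^ (2 * m) * (6 * ρ / D) ^ I) ^ (2 ^ m) := by
      have h5 : (4 * (m : ℝ) * (14 * ρ) ^ (2 * m) * (6 * ρ / D) ^ I) =
          ((2 : ℝ) ^ m * (2 * s)) ^ 2 * η := by
        rw [hs, hη]
        have h6 : (14 * ρ) ^ (2 * m) = ((2 : ℝ) ^ m * (7 * ρ) ^ m) ^ 2 := by
          rw [← mul_pow, ← pow_mul, mul_comm m 2]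
          congr 1
          ring
        rw [h6]
        ring
      rw [h5]
      generalize (2 : ℕ) ^ m = r
      generalize (2 : ℝ) ^ m = u
      generalize 2 * s = v
      rw [mul_pow ((u * v) ^ 2) η r, ← mul_pow u v r, ← pow_mul, ← pow_mul, mul_comm r 2]
    rw [h4] at h3
    have h7 : (4 * (m : ℝ) * (14 * ρ) ^ (2 * m) * (6 * ρ / D) ^ I) ^ (2 ^ m) < 1 :=
      pow_lt_one₀ (by positivity) hsm (by positivity)
    linarith
  · have h1 := hBIM.2.2 (m * I) (2 ^ m) b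
    calc _ ≤ 2 * (m * I + 1) ^ 2 := by gcongr
      _ ≤ 2 ^ m := hdim
  · intro a
    refine ⟨∏ j ∈ e.symm a, G j, ?_, ?_⟩
    · refine hBIM.2.1 _ _ ?_ (prod_mem hBIM I G hGB (e.symm a))
      exact Nat.mul_le_mul_right I (hcardle _)
    · funext i
      rw [LinearMap.funLeft_apply, Finset.prod_apply]
  · intro a i
    refine (prod_le _ (7 * ρ) (fun j => hg i j) _).trans ?_
    exact pow_le_pow_right₀ (by linarith) (hcardle _)
  · intro a i
    have h1 := prod_diff (fun j => ((‖b i - p j‖ - ‖p j‖ : ℝ) : ℂ)) (fun j => G j (b i))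
      (7 * ρ) ((6 * ρ / D) ^ I) (by positivity) hτI0
      (fun j => (hh i j).trans (by linarith)) (fun j => hg i j)
      (fun j => (hGa j (b i) (hN (b i) (hbN i))).trans (by gcongr; norm_num)) (e.symm a)
    refine h1.trans ?_
    have h2 : ((e.symm a).card : ℝ) ≤ m := by exact_mod_cast hcardle _
    have h3 : (7 * ρ) ^ (e.symm a).card ≤ s := pow_le_pow_right₀ (by linarith) (hcardle _)
    calc ((e.symm a).card : ℝ) * (7 * ρ) ^ (e.symm a).card * (6 * ρ / D) ^ I ≤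
        m * s * (6 * ρ / D) ^ I := by gcongr
      _ = s * η := by rw [hη]; ring

end Pool.Agent.CLU
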