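import Pool.Agent.CLU.StP

/-!
# Robust convexity: the dichotomy at a power scale
-/

set_option autoImplicit false
set_option maxHeartbeats 4000000

namespace Pool.Agent.CLU

open Pool.Agent.RCX

namespace ROB

lemma scale (ε ρ0 w : ℝ) (hε : 0 < ε) (hρ : 1 ≤ ρ0) (hw : 0 ≤ w) :
    (2 * w ^ 2 + ρ0) ^ (1 + ε / 2) ≤ (2 + ρ0) ^ (1 + ε / 2) * (w + 1) ^ (2 + ε) := by
  have h1 : 2 * w ^ 2 + ρ0 ≤ (2 + ρ0) * (w + 1) ^ 2 := by nlinarith [mul_nonneg hw hw]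
  have h2 : (2 * w ^ 2 + ρ0) ^ (1 + ε / 2) ≤ ((2 + ρ0) * (w + 1) ^ 2) ^ (1 + ε / 2) :=
    Real.rpow_le_rpow (by positivity) h1 (by positivity)
  rw [Real.mul_rpow (by positivity) (by positivity), ← Real.rpow_natCast (w + 1) 2,
    ← Real.rpow_mul (by positivity)] at h2
  have h3 : ((2 : ℕ) : ℝ) * (1 + ε / 2) = 2 + ε := by push_cast; ring
  rw [h3] at h2
  exact h2

end ROB

theorem ROB_thm (h1 : t_TWO) (h2 : t_THD) (h3 : t_PR2) (h4 : t_MRG) : t_ROB := by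
  intro ε hε
  obtain ⟨m, I, ρ0, hρ0, hpar⟩ := h3 (ε / 2) (by positivity)
  refine ⟨max (mf m) (max (nb m + 1 + (mo m + 2)) ⌈3 * (2 + ρ0) ^ (1 + ε / 2)⌉₊), ?_⟩
  set C := max (mf m) (max (nb m + 1 + (mo m + 2)) ⌈3 * (2 + ρ0) ^ (1 + ε / 2)⌉₊) with hC
  have hC1 : mf m ≤ C := le_max_left _ _
  have hC2 : nb m + 1 + (mo m + 2) ≤ C := (le_max_left _ _).trans (le_max_right _ _)
  have hC3 : 3 * (2 + ρ0) ^ (1 + ε / 2) ≤ (C : ℝ) :=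
    (Nat.le_ceil _).trans (by exact_mod_cast (le_max_right _ _).trans (le_max_right _ _))
  intro S m' w hS hw hthin
  have hρ : ρ0 ≤ 2 * w ^ 2 + ρ0 := by nlinarith [sq_nonneg w]
  rcases h1 m I (2 * w ^ 2 + ρ0) _ (hpar _ hρ) S hS with ⟨a, ha, E, hE, hEc, hd⟩ |
    ⟨c, r, E, hE, hEc, hd⟩
  · refine Or.inr ⟨a, ha, E, hE, hEc.trans hC1, ?_⟩
    intro x hx hxE
    have h5 := (hd x hx hxE).le
    have h6 := ROB.scale ε ρ0 w hε hρ0 hw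
    have h7 : 0 ≤ (w + 1) ^ (2 + ε) := by positivity
    calc dist a x ≤ 3 * (2 * w ^ 2 + ρ0) ^ (1 + ε / 2) := h5
      _ ≤ 3 * ((2 + ρ0) ^ (1 + ε / 2) * (w + 1) ^ (2 + ε)) := by linarith
      _ = (3 * (2 + ρ0) ^ (1 + ε / 2)) * (w + 1) ^ (2 + ε) := by ring
      _ ≤ C * (w + 1) ^ (2 + ε) := mul_le_mul_of_nonneg_right hC3 h7
  · refine Or.inl ?_
    have h5 := h2 S m m' w (2 * w ^ 2 + ρ0) c r E hS hw (by linarith) hthin hE hEc hd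
    have hm : 1 ≤ m' := by
      obtain ⟨f, _⟩ := hthin
      have := (f 0).2
      omega
    refine h4.2 S _ _ ?_ h5
    calc m' * (nb m + 1) + (mo m + 2) ≤ (nb m + 1 + (mo m + 2)) * m' := by nlinarith
      _ ≤ C * m' := Nat.mul_le_mul_right _ hC2

end Pool.Agent.CLU
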