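import Pool.Agent.CLU.St

/-!
# SEL: a map without fixed points has a large independent set
-/

set_option autoImplicit false

namespace Pool.Agent.CLU.SEL

open Finset

/-- some element has at most one preimage -/
lemma exists_few (s : Finset ℂ) (hs : s.Nonempty) (f : ℂ → ℂ) :
    ∃ a ∈ s, (s.filter (fun b => f b = a)).card ≤ 1 := by
  classical
  by_contra hcon
  push Not at hcon
  have h1 : ∑ a ∈ s, (s.filter (fun b => f b = a)).card ≤ s.card := by
    have h2 : ∑ a ∈ s, (s.filter (fun b => f b = a)).card
        = (s.filter (fun b => f b ∈ s)).card := by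
      rw [Finset.card_eq_sum_card_fiberwise (f := f) (t := s)]
      · refine Finset.sum_congr rfl fun a ha => ?_
        congr 1
        ext b
        simp only [Finset.mem_filter]
        constructor
        · rintro ⟨h3, h4⟩
          exact ⟨⟨h3, h4 ▸ ha⟩, h4⟩
        · rintro ⟨⟨h3, _⟩, h4⟩
          exact ⟨h3, h4⟩
      · intro b hb
        exact (Finset.mem_filter.1 hb).2
    rw [h2]
    exact Finset.card_filter_le _ _
  have h3 : ∑ a ∈ s, 2 ≤ ∑ a ∈ s, (s.filter (fun b => f b = a)).card :=
    Finset.sum_le_sum fun a ha => hcon a ha
  rw [Finset.sum_const, smul_eq_mul] at h3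
  have h4 := hs.card_pos
  omega

lemma main_aux (f : ℂ → ℂ) : ∀ (n : ℕ) (s : Finset ℂ), s.card = n → (∀ a ∈ s, f a ≠ a) →
    ∃ t ⊆ s, s.card ≤ 3 * t.card ∧ ∀ a ∈ t, f a ∉ t := by
  classical
  intro n
  induction n using Nat.strong_induction_on with
  | _ n ih =>
    intro s hn hs
    rcases s.eq_empty_or_nonempty with rfl | hne
    · exact ⟨∅, Finset.Subset.refl _, by simp, by simp⟩
    · obtain ⟨a, ha, hfew⟩ := exists_few s hne f
      let P := s.filter (fun b => f b = a)
      let s' := ((s.erase a).erase (f a)) \ P
      have hsub : s' ⊆ s := fun x hx =>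
        Finset.mem_of_mem_erase (Finset.mem_of_mem_erase (Finset.mem_sdiff.1 hx).1)
      have has : a ∉ s' := by
        intro h
        exact Finset.notMem_erase a s (Finset.mem_of_mem_erase (Finset.mem_sdiff.1 h).1)
      have hlt : s'.card < n := by
        rw [← hn]
        exact Finset.card_lt_card (Finset.ssubset_iff_of_subset hsub |>.2 ⟨a, ha, has⟩)
      have hcard : s.card ≤ s'.card + 3 := by
        have h1 : ((s.erase a).erase (f a)).card ≤ s'.card + P.card := by
          have := Finset.card_le_card_sdiff_add_card (s := (s.erase a).erase (f a)) (t := P)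
          exact this
        have h2 : (s.erase a).card ≤ ((s.erase a).erase (f a)).card + 1 := by
          have := Finset.pred_card_le_card_erase (s := s.erase a) (a := f a)
          omega
        have h3 : s.card ≤ (s.erase a).card + 1 := by
          have := Finset.pred_card_le_card_erase (s := s) (a := a)
          omega
        have h4 : P.card ≤ 1 := hfew
        omega
      obtain ⟨t, ht, htc, hti⟩ := ih _ hlt s' rfl (fun b hb => hs b (hsub hb))
      have hat : a ∉ t := fun h => has (ht h)
      refine ⟨insert a t, ?_, ?_, ?_⟩
      · exact Finset.insert_subset ha (ht.trans hsub)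
      · rw [Finset.card_insert_of_notMem hat]
        omega
      · intro b hb
        rw [Finset.mem_insert] at hb ⊢
        rcases hb with rfl | hb
        · rintro (h | h)
          · exact hs _ ha h
          · exact Finset.notMem_erase (f b) (s.erase b) (Finset.mem_sdiff.1 (ht h)).1
        · rintro (h | h)
          · have h5 := (Finset.mem_sdiff.1 (ht hb)).2
            exact h5 (Finset.mem_filter.2 ⟨hsub (ht hb), h⟩)
          · exact hti b hb h

end Pool.Agent.CLU.SEL

namespace Pool.Agent.CLU

theorem SEL_thm : t_SEL := fun s f h => SEL.main_aux f _ s rfl h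

end Pool.Agent.CLU
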