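import Pool.Agent.CLU.StP

set_option autoImplicit false

open Pool.Agent.RCX

namespace Pool.Agent.CLU

theorem SNG_thm : t_SNG := by
  classical
  intro n S hS
  let e := S.equivFin
  refine ⟨fun x => if h : x ∈ S then ⟨(e ⟨x, h⟩).1, by have := (e ⟨x, h⟩).2; omega⟩ else 0, ?_⟩
  intro i
  have hsub : Subsingleton {x : Pl // x ∈ S ∧ (if h : x ∈ S then
      (⟨(e ⟨x, h⟩).1, by have := (e ⟨x, h⟩).2; omega⟩ : Fin (n + 1)) else 0) = i} := by
    constructor
    rintro ⟨x, hx, hx'⟩ ⟨y, hy, hy'⟩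
    rw [dif_pos hx] at hx'
    rw [dif_pos hy] at hy'
    have h1 : (e ⟨x, hx⟩).1 = (e ⟨y, hy⟩).1 := by
      have := hx'.trans hy'.symm
      simpa using this
    have h2 : e ⟨x, hx⟩ = e ⟨y, hy⟩ := Fin.ext h1
    have h3 := e.injective h2
    have h4 : x = y := by simpa using h3
    exact Subtype.ext h4
  exact Subsingleton.convexIndependent _

end Pool.Agent.CLU
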