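import Pool.Agent.CLU.St

/-!
# SQR: Taylor polynomials of the square root
-/

set_option autoImplicit false

namespace Pool.Agent.CLU.SQR

open Polynomial

lemma choose_succ (a : ℝ) (n : ℕ) :
    Ring.choose a (n + 1) = Ring.choose a n * ((a - n) / (n + 1)) := by
  rw [Ring.choose_eq_smul, Ring.choose_eq_smul, descPochhammer_succ_right, Polynomial.smeval_mul,
    Polynomial.smeval_sub, Polynomial.smeval_X, Polynomial.smeval_natCast, Nat.factorial_succ]
  have h1 : ((n.factorial : ℕ) : ℝ) ≠ 0 := by exact_mod_cast Nat.factorial_ne_zero n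
  have h2 : ((n : ℝ) + 1) ≠ 0 := by positivity
  simp only [pow_one, pow_zero, nsmul_eq_mul, mul_one, smul_eq_mul]
  push_cast
  field_simp

lemma choose_le (n : ℕ) : |Ring.choose (1 / 2 : ℝ) n| ≤ 1 := by
  induction n with
  | zero => simp
  | succ n ih =>
    rw [choose_succ, abs_mul]
    have h2 : (0 : ℝ) < (n : ℝ) + 1 := by positivity
    have h0 : (0 : ℝ) ≤ (n : ℝ) := Nat.cast_nonneg n
    have h3 : |((1 / 2 : ℝ) - n) / (n + 1)| ≤ 1 := by
      rw [abs_div, abs_of_pos h2, div_le_one h2, abs_le]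
      constructor <;> linarith
    calc |Ring.choose (1 / 2 : ℝ) n| * |((1 / 2 : ℝ) - n) / (n + 1)| ≤ 1 * 1 := by gcongr
      _ = 1 := one_mul 1

lemma hasSum {x : ℝ} (hx : |x| < 1) :
    HasSum (fun n => Ring.choose (1 / 2 : ℝ) n * x ^ n) (√(1 + x)) := by
  have h := (Real.one_add_rpow_hasFPowerSeriesOnBall_zero (a := 1 / 2)).hasSum (y := x) (by
    rw [Metric.mem_eball, edist_zero_right]
    rw [← ofReal_norm, Real.norm_eq_abs]
    exact_mod_cast ENNReal.ofReal_lt_one.2 hx)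
  rw [zero_add, ← Real.sqrt_eq_rpow] at h
  have he : (fun n => Ring.choose (1 / 2 : ℝ) n * x ^ n)
      = fun n => (binomialSeries ℝ (1 / 2 : ℝ) n) fun _ => x := by
    funext n
    rw [binomialSeries_apply]
    simp
  rw [he]
  exact h

theorem main : t_SQR := by
  intro I
  refine ⟨fun i => Ring.choose (1 / 2 : ℝ) i, fun x hx => ?_⟩
  have hx1 : |x| < 1 := by linarith
  have h := hasSum hx1
  have hx0 : 0 ≤ |x| := abs_nonneg x
  have h1 : HasSum (fun n => Ring.choose (1 / 2 : ℝ) (n + (I + 1)) * x ^ (n + (I + 1)))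
      (√(1 + x) - ∑ i ∈ Finset.range (I + 1), Ring.choose (1 / 2 : ℝ) i * x ^ i) :=
    (hasSum_nat_add_iff' (f := fun n => Ring.choose (1 / 2 : ℝ) n * x ^ n) (I + 1)).2 h
  have h2 : ∑ i ∈ Finset.range (I + 1), Ring.choose (1 / 2 : ℝ) i * x ^ i
      = 1 + ∑ i ∈ Finset.Icc 1 I, Ring.choose (1 / 2 : ℝ) i * x ^ i := by
    rw [Finset.sum_range_succ', Finset.range_eq_Ico, Finset.sum_Ico_add' (fun i =>
      Ring.choose (1 / 2 : ℝ) i * x ^ i) 0 I 1]
    rw [show Finset.Ico (0 + 1) (I + 1) = Finset.Icc 1 I by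
      ext k
      rw [Finset.mem_Ico, Finset.mem_Icc]
      omega]
    simp [add_comm]
  rw [h2] at h1
  have hg : HasSum (fun n : ℕ => |x| ^ (n + (I + 1))) (|x| ^ (I + 1) * (1 - |x|)⁻¹) := by
    have := (hasSum_geometric_of_lt_one hx0 hx1).mul_left (|x| ^ (I + 1))
    have he : (fun n : ℕ => |x| ^ (n + (I + 1))) = fun n => |x| ^ (I + 1) * |x| ^ n := by
      funext n
      rw [pow_add, mul_comm]
    rw [he]
    exact this
  have h3 : ‖√(1 + x) - (1 + ∑ i ∈ Finset.Icc 1 I, Ring.choose (1 / 2 : ℝ) i * x ^ i)‖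
      ≤ |x| ^ (I + 1) * (1 - |x|)⁻¹ := by
    rw [← h1.tsum_eq]
    refine tsum_of_norm_bounded hg fun n => ?_
    rw [norm_mul, norm_pow, Real.norm_eq_abs, Real.norm_eq_abs]
    calc _ ≤ 1 * |x| ^ (n + (I + 1)) := by
          gcongr
          exact choose_le _
      _ = _ := one_mul _
  rw [Real.norm_eq_abs] at h3
  rw [sub_sub]
  refine h3.trans ?_
  have h4 : (1 - |x|)⁻¹ ≤ 2 ^ (I + 1) := by
    have h5 : (1 - |x|)⁻¹ ≤ 2 := by
      rw [inv_le_comm₀ (by linarith) (by norm_num)]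
      norm_num
      linarith
    refine h5.trans ?_
    calc (2 : ℝ) = 2 ^ 1 := by norm_num
      _ ≤ 2 ^ (I + 1) := pow_le_pow_right₀ (by norm_num) (by omega)
  rw [mul_pow, mul_comm]
  gcongr

end Pool.Agent.CLU.SQR

namespace Pool.Agent.CLU

theorem SQR_thm : t_SQR := SQR.main

end Pool.Agent.CLU
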