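import Pool.Agent.CLU.StP

/-!
# Clusters of integral point sets (MP_a57197_co): additions to the plane part (helper65)
-/

set_option autoImplicit false

open Pool.Agent.RCX

namespace Pool.Agent.CLU

/-- GPC.  A good set of diameter at most 2^n has at most C (n+1)^C points off one circle.
Proof.  As GIP: induction on n. -/
def t_GPC : Prop := ∃ C : ℕ, ∀ (n : ℕ) (X : Finset Pl), Good X →
  (∀ x ∈ X, ∀ y ∈ X, dist x y ≤ 2 ^ n) →
  ∃ (c : Pl) (r : ℝ), ∀ U ⊆ X, (∀ y ∈ U, dist c y ≠ r) → U.card ≤ C * (n + 1) ^ C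

/-- `S` is a union of `C` classes, each on a circle or with all distances at least
(its diameter)^(1-ε) and at most C (log (diam + 3))^C points -/
def WX (ε : ℝ) (C : ℕ) (S : Finset Pl) : Prop := ∃ f : Pl → Fin C, ∀ i : Fin C,
  (∃ (c : Pl) (r : ℝ), ∀ x ∈ S, f x = i → dist c x = r) ∨
  ((∀ x ∈ S, ∀ y ∈ S, f x = i → f y = i → x ≠ y →
    Metric.diam {z | z ∈ S ∧ f z = i} ^ (1 - ε) ≤ dist x y) ∧
   ∀ U ⊆ S, (∀ x ∈ U, f x = i) →
    (U.card : ℝ) ≤ C * Real.log (Metric.diam {z | z ∈ S ∧ f z = i} + 3) ^ C)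

/-- WEX (from WEL, GPC).  Every class of WEL that is not on a circle is divided into its part on
the circle of GPC and the rest. -/
def t_WEX : Prop := ∀ ε : ℝ, 0 < ε → ε < 1 → ∃ C : ℕ, ∀ S : Finset Pl, Good S → WX ε C S

/-- RDX (from WEX, PEE, SEP, CIR, MRG).  The reduction of Q1. -/
def t_RDX : Prop := ∀ ε : ℝ, 0 < ε → ε < 1 → ∃ C : ℕ,
  ((∃ K : ℕ, ∀ S : Finset Pl, Good S → Cp K S) ↔
    ∃ K : ℕ, ∀ S : Finset Pl, Good S →
      (∀ x ∈ S, ∀ y ∈ S, x ≠ y → Metric.diam (S : Set Pl) ^ (1 - ε) ≤ dist x y) →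
      (S.card : ℝ) ≤ C * Real.log (Metric.diam (S : Set Pl) + 3) ^ C →
      ThinSplit K (Metric.diam (S : Set Pl) ^ ((1 - ε) / 2) / 2) S)

end Pool.Agent.CLU
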