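import Pool.Agent.CLU.StP
import Pool.Agent.RCX.ASM

/-!
# CLU: THC
-/

set_option autoImplicit false

open Pool.Agent.RCX

namespace Pool.Agent.CLU

open Pool.Agent.RCX.ASM in
theorem THC_thm (h1 : t_CLS) (h2 : t_MRG) : t_THC := by
  classical
  intro k S m w ρ hS hw hwρ hT hk
  obtain ⟨f, hf⟩ := hT
  have key : ∀ i : Fin m, Cp ((k + 1) * (0 + 1)) (cls S f i) := by
    intro i
    refine h1 k 0 (cls S f i) ρ (√(ρ / 2)) w (hS.subset (cls_subset S f i))
      (Real.sqrt_nonneg _) ?_ ?_ (thin_cls (hf i)) ?_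
    · intro x hx U hU hUx
      exact hk x (cls_subset S f i hx) U (hU.trans (cls_subset S f i)) hUx
    · intro x _ y _ hxy
      rw [Real.sq_sqrt (by nlinarith [sq_nonneg w])]
      linarith
    · rw [Nat.cast_zero, zero_add, one_mul]
      refine Real.lt_sqrt_of_sq_lt ?_
      linarith
  have h3 := glue h2 f key
  have e : m * ((k + 1) * (0 + 1)) = m * (k + 1) := by ring
  rwa [e] at h3

end Pool.Agent.CLU
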