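import Pool.Agent.CLU.StP

/-!
# CLU: THD
-/

set_option autoImplicit false

open Pool.Agent.RCX

namespace Pool.Agent.CLU

theorem THD_thm (h1 : t_THC) (h2 : t_CIR) (h3 : t_UNI) (h4 : t_SNG) : t_THD := by
  classical
  intro S m m' w ρ c r E hS hw hwρ hT hES hEc hx
  set S1 : Finset Pl := S.filter (fun x => dist c x = r) with hS1
  set S2 : Finset Pl := S.filter (fun x => dist c x ≠ r ∧ x ∉ E) with hS2
  have a1 : Cp 1 S1 := h2 S1 c r (fun x hx => (Finset.mem_filter.1 hx).2)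
  have a2 : Cp (mo m + 1) E := h4 (mo m) E hEc
  have hT2 : ThinSplit m' w S2 := by
    obtain ⟨f, hf⟩ := hT
    refine ⟨f, fun i => ?_⟩
    rintro q ⟨hq, hqi⟩
    obtain ⟨n, hn, hn2⟩ := hf i q ⟨(Finset.mem_filter.1 hq).1, hqi⟩
    refine ⟨n, hn, ?_⟩
    rintro x ⟨hx, hxi⟩
    exact hn2 x ⟨(Finset.mem_filter.1 hx).1, hxi⟩
  have a3 : Cp (m' * (nb m + 1)) S2 := by
    refine h1 (nb m) S2 m' w ρ (hS.subset (Finset.filter_subset _ _)) hw hwρ hT2 ?_
    intro x hx' U hU hUx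
    rw [hS2, Finset.mem_filter] at hx'
    refine hx x hx'.1 hx'.2.1 hx'.2.2 U (hU.trans (Finset.filter_subset _ _)) ?_
    intro y hy
    have h5 := Finset.mem_filter.1 (hU hy)
    exact ⟨(hUx y hy).1, (hUx y hy).2, h5.2.1, h5.2.2⟩
  have a4 := h3 1 (mo m + 1) S1 E (S1 ∪ E) a1 a2 (Finset.Subset.refl _)
  have a5 := h3 (m' * (nb m + 1)) (1 + (mo m + 1)) S2 (S1 ∪ E) S a3 a4 (by
    intro x hx'
    rw [Finset.mem_union, Finset.mem_union]
    by_cases hc : dist c x = r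
    · exact Or.inr (Or.inl (Finset.mem_filter.2 ⟨hx', hc⟩))
    · by_cases hE : x ∈ E
      · exact Or.inr (Or.inr hE)
      · exact Or.inl (Finset.mem_filter.2 ⟨hx', hc, hE⟩))
  have e : m' * (nb m + 1) + (1 + (mo m + 1)) = m' * (nb m + 1) + (mo m + 2) := by ring
  rwa [e] at a5

end Pool.Agent.CLU
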