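import Pool.Agent.CLU.St

/-!
# Clusters of integral point sets (MP_a57197_co), module TOW: square roots of independent elements
-/

set_option autoImplicit false

open Polynomial Polynomial.Bivariate ComplexConjugate

namespace Pool.Agent.CLU

namespace TOW

open scoped symmDiff

/-- products over two sets -/
lemma prod_mul_prod {K : Type} [Field K] {m : ℕ} (q : Fin m → K) (J L : Finset (Fin m)) :
    (∏ j ∈ J, q j) * ∏ j ∈ L, q j = (∏ j ∈ J ∆ L, q j) * (∏ j ∈ J ∩ L, q j) ^ 2 := by
  have h1 : (∏ j ∈ J ∪ L, q j) = (∏ j ∈ J ∆ L, q j) * ∏ j ∈ J ∩ L, q j := by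
    have hd : Disjoint (J ∆ L) (J ∩ L) := disjoint_symmDiff_inf J L
    have hu : J ∆ L ∪ (J ∩ L) = J ∪ L := symmDiff_sup_inf J L
    rw [← hu, Finset.prod_union hd]
  rw [← Finset.prod_union_inter, h1]
  ring

lemma prod_ne_zero {K : Type} [Field K] {m : ℕ} (q : Fin m → K)
    (hq : ∀ J : Finset (Fin m), J.Nonempty → ¬ IsSquare (∏ j ∈ J, q j)) (J : Finset (Fin m)) :
    ∏ j ∈ J, q j ≠ 0 := by
  rcases J.eq_empty_or_nonempty with h | h
  · simp [h]
  · intro h0
    exact hq J h (by rw [h0]; exact IsSquare.zero)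

/-- for different sets some automorphism changes the sign of the product of the square roots -/
lemma exists_aut {K : Type} [Field K] [CharZero K] {m : ℕ} (q : Fin m → K)
    (hq : ∀ J : Finset (Fin m), J.Nonempty → ¬ IsSquare (∏ j ∈ J, q j))
    (t : Fin m → AlgebraicClosure K)
    (ht : ∀ j, t j ^ 2 = algebraMap K (AlgebraicClosure K) (q j)) {J L : Finset (Fin m)}
    (hJL : J ≠ L) :
    ∃ σ : AlgebraicClosure K ≃ₐ[K] AlgebraicClosure K,
      σ ((∏ j ∈ J, t j) * ∏ j ∈ L, t j) ≠ (∏ j ∈ J, t j) * ∏ j ∈ L, t j := by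
  by_contra hcon
  push Not at hcon
  have hmem : (∏ j ∈ J, t j) * ∏ j ∈ L, t j ∈ (⊥ : IntermediateField K (AlgebraicClosure K)) :=
    (InfiniteGalois.mem_bot_iff_fixed _).2 hcon
  rw [IntermediateField.mem_bot] at hmem
  obtain ⟨a, ha⟩ := hmem
  have hsq : algebraMap K (AlgebraicClosure K) (a ^ 2) =
      algebraMap K (AlgebraicClosure K) ((∏ j ∈ J, q j) * ∏ j ∈ L, q j) := by
    rw [map_pow, ha, mul_pow, ← Finset.prod_pow, ← Finset.prod_pow, map_mul, map_prod, map_prod]
    simp only [ht]
  have h1 : a ^ 2 = (∏ j ∈ J, q j) * ∏ j ∈ L, q j :=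
    (algebraMap K (AlgebraicClosure K)).injective hsq
  rw [prod_mul_prod] at h1
  have hne := prod_ne_zero q hq (J ∩ L)
  apply hq (J ∆ L) (Finset.nonempty_iff_ne_empty.2 fun h => hJL (symmDiff_eq_bot.1 h))
  refine ⟨a / ∏ j ∈ J ∩ L, q j, ?_⟩
  field_simp
  rw [← h1]

end TOW

open TOW in
theorem TOW_thm : t_TOW := by
  classical
  intro m K _ _ q hq
  choose t ht using fun j => IsAlgClosed.exists_pow_nat_eq
    (algebraMap K (AlgebraicClosure K) (q j)) (n := 2) (by norm_num)
  refine ⟨AlgebraicClosure K, inferInstance, inferInstance, t, ht, ?_⟩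
  have hT2 : ∀ J : Finset (Fin m), (∏ j ∈ J, t j) ^ 2 =
      algebraMap K (AlgebraicClosure K) (∏ j ∈ J, q j) := by
    intro J
    rw [← Finset.prod_pow, map_prod]
    exact Finset.prod_congr rfl fun j _ => ht j
  have hT0 : ∀ J : Finset (Fin m), (∏ j ∈ J, t j) ≠ 0 := by
    intro J h
    have := hT2 J
    rw [h, zero_pow two_ne_zero] at this
    exact prod_ne_zero q hq J ((map_eq_zero _).1 this.symm)
  -- automorphisms act by signs
  have hsign : ∀ (σ : AlgebraicClosure K ≃ₐ[K] AlgebraicClosure K) (J : Finset (Fin m)),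
      σ (∏ j ∈ J, t j) = ∏ j ∈ J, t j ∨ σ (∏ j ∈ J, t j) = -∏ j ∈ J, t j := by
    intro σ J
    apply sq_eq_sq_iff_eq_or_eq_neg.1
    rw [← map_pow, hT2, AlgEquiv.commutes]
  rw [Fintype.linearIndependent_iff]
  -- induction on the size of the support
  have key : ∀ (n : ℕ) (c : Finset (Fin m) → K),
      (Finset.univ.filter (fun J => c J ≠ 0)).card = n →
      ∑ J, c J • (∏ j ∈ J, t j) = 0 → ∀ J, c J = 0 := by
    intro n
    induction n using Nat.strong_induction_on with
    | _ n ih =>
      intro c hcard hsum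
      by_contra hne
      push Not at hne
      obtain ⟨J₀, hJ₀⟩ := hne
      obtain ⟨J₁, hJ₁, hJ₁₀⟩ : ∃ J₁, c J₁ ≠ 0 ∧ J₀ ≠ J₁ := by
        by_contra hno
        push Not at hno
        rw [Finset.sum_eq_single J₀ (fun J _ hJ => by
          have : c J = 0 := by
            by_contra h
            exact hJ (hno J h).symm
          rw [this, zero_smul]) (fun h => absurd (Finset.mem_univ _) h)] at hsum
        rcases smul_eq_zero.1 hsum with h | h
        · exact hJ₀ h
        · exact hT0 J₀ h
      obtain ⟨σ, hσ⟩ := exists_aut q hq t ht hJ₁₀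
      -- the signs
      set s : Finset (Fin m) → K := fun J => if σ (∏ j ∈ J, t j) = ∏ j ∈ J, t j then 1 else -1
        with hs
      have hs1 : ∀ J, s J = 1 ∨ s J = -1 := by
        intro J
        simp only [hs]
        split_ifs <;> simp
      have hσs : ∀ J, σ (∏ j ∈ J, t j) = s J • ∏ j ∈ J, t j := by
        intro J
        by_cases h : σ (∏ j ∈ J, t j) = ∏ j ∈ J, t j
        · have : s J = 1 := by simp only [hs]; rw [if_pos h]
          rw [this, one_smul]; exact h
        · have h2 : s J = -1 := by simp only [hs]; rw [if_neg h]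
          rw [h2, neg_smul, one_smul]
          exact (hsign σ J).resolve_left h
      have hs01 : s J₀ * s J₁ ≠ 1 := by
        intro h
        apply hσ
        rw [map_mul, hσs, hσs, smul_mul_smul_comm, h, one_smul]
      have hs01' : s J₀ * s J₁ = -1 := by
        rcases hs1 J₀ with h | h <;> rcases hs1 J₁ with h' | h' <;> rw [h, h'] at hs01 ⊢ <;>
          simp at hs01 ⊢
      have hs00 : s J₀ * s J₀ = 1 := by
        rcases hs1 J₀ with h | h <;> rw [h] <;> ring
      -- the shorter relation
      set c' : Finset (Fin m) → K := fun J => c J * (1 - s J₀ * s J) with hc'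
      have hsum' : ∑ J, c' J • (∏ j ∈ J, t j) = 0 := by
        have h2 : ∑ J, c J • (s J • ∏ j ∈ J, t j) = 0 := by
          have := congrArg σ hsum
          rw [map_sum, map_zero] at this
          rw [← this]
          refine Finset.sum_congr rfl fun J _ => ?_
          rw [← hσs, Algebra.smul_def, Algebra.smul_def, map_mul, AlgEquiv.commutes]
        have h3 : ∀ J, c' J • (∏ j ∈ J, t j) =
            c J • (∏ j ∈ J, t j) - s J₀ • (c J • (s J • ∏ j ∈ J, t j)) := by
          intro J
          simp only [hc', smul_smul]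
          rw [← sub_smul]
          congr 1
          ring
        simp only [h3]
        rw [Finset.sum_sub_distrib, ← Finset.smul_sum, h2, hsum]
        simp
      have hlt : (Finset.univ.filter (fun J => c' J ≠ 0)).card < n := by
        rw [← hcard]
        apply Finset.card_lt_card
        refine ⟨?_, ?_⟩
        · intro J hJ
          rw [Finset.mem_filter] at hJ ⊢
          refine ⟨Finset.mem_univ _, fun h => hJ.2 ?_⟩
          simp only [hc', h, zero_mul]
        · intro h
          have := h (Finset.mem_filter.2 ⟨Finset.mem_univ J₀, hJ₀⟩)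
          rw [Finset.mem_filter] at this
          apply this.2
          simp only [hc', hs00, sub_self, mul_zero]
      have h0 := ih _ hlt c' rfl hsum' J₁
      simp only [hc', hs01'] at h0
      rcases mul_eq_zero.1 h0 with h | h
      · exact hJ₁ h
      · norm_num at h
  intro g hg
  exact key _ g rfl hg

end Pool.Agent.CLU
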