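import Pool.Agent.CLU.StP

/-!
# CLU: TWO
-/

set_option autoImplicit false

open Pool.Agent.RCX

namespace Pool.Agent.CLU

namespace TWO

/-- removing two small parts leaves three points -/
theorem three {P A B : Finset Pl} {k : ℕ} (hP : 2 * k + 3 ≤ P.card) (hA : A.card ≤ k)
    (hB : B.card ≤ k) : ∃ x ∈ P, ∃ y ∈ P, ∃ z ∈ P, x ≠ y ∧ x ≠ z ∧ y ≠ z ∧
      x ∉ A ∧ y ∉ A ∧ z ∉ A ∧ x ∉ B ∧ y ∉ B ∧ z ∉ B := by
  classical
  have h1 : 3 ≤ (P \ (A ∪ B)).card := by
    have h2 := Finset.card_le_card_sdiff_add_card (s := P) (t := A ∪ B)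
    have h3 := Finset.card_union_le A B
    omega
  obtain ⟨T, hT, hT3⟩ := Finset.exists_subset_card_eq h1
  obtain ⟨x, y, z, hxy, hxz, hyz, rfl⟩ := Finset.card_eq_three.1 hT3
  have key : ∀ u ∈ ({x, y, z} : Finset Pl), u ∈ P ∧ u ∉ A ∧ u ∉ B := by
    intro u hu
    have := hT hu
    rw [Finset.mem_sdiff, Finset.mem_union, not_or] at this
    exact this
  have kx := key x (by simp)
  have ky := key y (by simp)
  have kz := key z (by simp)
  exact ⟨x, kx.1, y, ky.1, z, kz.1, hxy, hxz, hyz, kx.2.1, ky.2.1, kz.2.1, kx.2.2, ky.2.2, kz.2.2⟩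

end TWO

theorem TWO_thm (h1 : t_CLP) (h2 : t_C3P) : t_TWO := by
  classical
  intro m I ρ D hP S hS
  by_cases hfar : ∃ a ∈ S, (S.filter (fun p => 3 * D ≤ dist a p)).card ≤ mf m
  · left
    obtain ⟨a, ha, hc⟩ := hfar
    refine ⟨a, ha, S.filter (fun p => 3 * D ≤ dist a p), Finset.filter_subset _ _, hc, ?_⟩
    intro x hx hxE
    rw [Finset.mem_filter, not_and, not_le] at hxE
    exact hxE hx
  right
  push Not at hfar
  have hD : 0 < D := by
    have h3 := hP.1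
    have h4 := hP.2.1
    linarith
  have hF : ∀ a ∈ S, ∃ F ⊆ S, (∀ p ∈ F, D ≤ dist a p) ∧ mf m ≤ F.card := by
    intro a ha
    refine ⟨S.filter (fun p => 3 * D ≤ dist a p), Finset.filter_subset _ _, ?_, (hfar a ha).le⟩
    intro p hp
    have := (Finset.mem_filter.1 hp).2
    linarith
  by_cases hall : ∀ x ∈ S, ∀ U ⊆ S, (∀ b ∈ U, dist x b ≤ ρ) → U.card ≤ nb m
  · refine ⟨0, -1, ∅, Finset.empty_subset _, by simp, ?_⟩
    intro x hx _ _ U hU hUx
    exact hall x hx U hU (fun y hy => (hUx y hy).2.1)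
  push Not at hall
  obtain ⟨a, ha, U0, hU0, hU0x, hU0c⟩ := hall
  rcases h1 m I ρ D hP S hS a ha (hF a ha) with h | ⟨c, r, hn, hf⟩
  · exact absurd (h U0 hU0 hU0x) (not_le.2 hU0c)
  refine ⟨c, r, S.filter (fun p => D ≤ dist a p ∧ dist c p ≠ r), Finset.filter_subset _ _,
    hf _ (Finset.filter_subset _ _) (fun p hp => (Finset.mem_filter.1 hp).2), ?_⟩
  intro x hx hxc hxE U hU hUx
  have hax : dist a x < D := by
    by_contra hcon
    rw [not_lt] at hcon
    exact hxE (Finset.mem_filter.2 ⟨hx, hcon, hxc⟩)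
  rcases h1 m I ρ D hP S hS x hx (hF x hx) with h | ⟨c', r', hn', hf'⟩
  · exact h U hU (fun y hy => (hUx y hy).2.1)
  -- the far points of a
  set P := S.filter (fun p => 3 * D ≤ dist a p) with hPdef
  have hPc : 2 * mo m + 3 ≤ P.card := by
    have := hfar a ha
    rw [mf] at this
    exact this.le
  have hPx : ∀ p ∈ P, D ≤ dist a p ∧ D ≤ dist x p := by
    intro p hp
    have h3 := (Finset.mem_filter.1 hp).2
    have h4 := dist_triangle a x p
    constructor <;> linarith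
  obtain ⟨p, hp, q, hq, s, hs, hpq, hps, hqs, k1, k2, k3, k4, k5, k6⟩ := TWO.three hPc
    (hf (P.filter (fun p => dist c p ≠ r)) ((Finset.filter_subset _ _).trans
      (Finset.filter_subset _ _)) (fun p hp => ⟨(hPx p (Finset.mem_filter.1 hp).1).1,
        (Finset.mem_filter.1 hp).2⟩))
    (hf' (P.filter (fun p => dist c' p ≠ r')) ((Finset.filter_subset _ _).trans
      (Finset.filter_subset _ _)) (fun p hp => ⟨(hPx p (Finset.mem_filter.1 hp).1).2,
        (Finset.mem_filter.1 hp).2⟩))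
  have on : ∀ {u : Pl}, u ∈ P → u ∉ P.filter (fun p => dist c p ≠ r) → dist c u = r := by
    intro u hu h3
    by_contra h4
    exact h3 (Finset.mem_filter.2 ⟨hu, h4⟩)
  have on' : ∀ {u : Pl}, u ∈ P → u ∉ P.filter (fun p => dist c' p ≠ r') → dist c' u = r' := by
    intro u hu h3
    by_contra h4
    exact h3 (Finset.mem_filter.2 ⟨hu, h4⟩)
  have hPS : ∀ {u : Pl}, u ∈ P → u ∈ S := fun hu => (Finset.mem_filter.1 hu).1
  obtain ⟨rfl, rfl⟩ := h2 S hS c c' r r' p (hPS hp) q (hPS hq) s (hPS hs) hpq hps hqs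
    (on hp k1) (on hq k2) (on hs k3) (on' hp k4) (on' hq k5) (on' hs k6)
  refine hn' U hU (fun y hy => ⟨(hUx y hy).2.1, (hUx y hy).2.2.1⟩)

end Pool.Agent.CLU
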