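import Pool.Agent.CLU.StP

/-!
# CLU: UNI
-/

set_option autoImplicit false

open Pool.Agent.RCX

namespace Pool.Agent.CLU

namespace UNI

/-- a subset of a convex independent class -/
theorem sub {P Q : Pl → Prop} (h : ∀ x, Q x → P x)
    (hP : ConvexIndependent ℝ (fun p : {x : Pl // P x} => (p : Pl))) :
    ConvexIndependent ℝ (fun p : {x : Pl // Q x} => (p : Pl)) := by
  have := hP.comp_embedding (⟨fun p : {x : Pl // Q x} => (⟨p.1, h _ p.2⟩ : {x : Pl // P x}), by
    rintro ⟨x, hx⟩ ⟨y, hy⟩ hxy
    simp only [Subtype.mk.injEq] at hxy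
    simp [hxy]⟩ : {x : Pl // Q x} ↪ {x : Pl // P x})
  exact this

end UNI

theorem UNI_thm : t_UNI := by
  classical
  rintro k l A B S ⟨f, hf⟩ ⟨g, hg⟩ hS
  refine ⟨fun x => if x ∈ A then Fin.castAdd l (f x) else Fin.natAdd k (g x), fun i => ?_⟩
  refine Fin.addCases (fun a => ?_) (fun b => ?_) i
  · refine UNI.sub ?_ (hf a)
    rintro x ⟨hx, hxi⟩
    simp only at hxi
    by_cases hxA : x ∈ A
    · rw [if_pos hxA] at hxi
      exact ⟨hxA, Fin.castAdd_injective _ _ hxi⟩
    · rw [if_neg hxA] at hxi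
      have := congrArg Fin.val hxi
      simp only [Fin.val_natAdd, Fin.val_castAdd] at this
      have := a.isLt
      omega
  · refine UNI.sub ?_ (hg b)
    rintro x ⟨hx, hxi⟩
    simp only at hxi
    by_cases hxA : x ∈ A
    · rw [if_pos hxA] at hxi
      have := congrArg Fin.val hxi
      simp only [Fin.val_natAdd, Fin.val_castAdd] at this
      have := (f x).isLt
      omega
    · rw [if_neg hxA] at hxi
      refine ⟨?_, Fin.natAdd_injective _ _ hxi⟩
      rcases Finset.mem_union.1 (hS hx) with h | h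
      · exact absurd h hxA
      · exact h

end Pool.Agent.CLU
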