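import Pool.Agent.CLU.StP

/-!
# CLU: WEL
-/

set_option autoImplicit false

open Pool.Agent.RCX

namespace Pool.Agent.CLU

namespace WEL

/-- the diameter is bounded if a small part contains two points -/
theorem bound {δ A d θ : ℝ} (hA : 0 < A) (hθ : θ ≤ 1 / 8) (hδ : 0 ≤ δ)
    (h1 : δ ≤ 6 * d ^ 4) (hd : 0 ≤ d) (h2 : d ≤ A * δ ^ θ) : δ ≤ max 1 (36 * A ^ 8) := by
  by_cases h3 : δ ≤ 1
  · exact h3.trans (le_max_left _ _)
  rw [not_le] at h3
  refine le_trans ?_ (le_max_right _ _)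
  have h4 : δ ^ θ ≤ δ ^ (1 / 8 : ℝ) := Real.rpow_le_rpow_of_exponent_le h3.le hθ
  have h5 : d ≤ A * δ ^ (1 / 8 : ℝ) := h2.trans (mul_le_mul_of_nonneg_left h4 hA.le)
  have h6 : d ^ 4 ≤ (A * δ ^ (1 / 8 : ℝ)) ^ 4 := pow_le_pow_left₀ hd h5 4
  have h7 : (δ ^ (1 / 8 : ℝ)) ^ 8 = δ := by
    rw [← Real.rpow_natCast (δ ^ (1 / 8 : ℝ)) 8, ← Real.rpow_mul hδ]
    norm_num
  set u := δ ^ (1 / 8 : ℝ) with hu
  have hu0 : 0 < u := Real.rpow_pos_of_pos (by linarith) _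
  have h8 : u ^ 8 ≤ 6 * (A * u) ^ 4 := by
    rw [h7]
    linarith
  have h9 : u ^ 4 ≤ 6 * A ^ 4 := by
    have e1 : u ^ 8 = u ^ 4 * u ^ 4 := by ring
    have e2 : 6 * (A * u) ^ 4 = (6 * A ^ 4) * u ^ 4 := by ring
    rw [e1, e2] at h8
    exact le_of_mul_le_mul_right h8 (by positivity)
  calc δ = u ^ 4 * u ^ 4 := by rw [← h7]; ring
    _ ≤ (6 * A ^ 4) * (6 * A ^ 4) := mul_le_mul h9 h9 (by positivity) (by positivity)
    _ = 36 * A ^ 8 := by ring

end WEL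

theorem WEL_thm (h1 : t_ITR) (h2 : t_BDC) (h3 : t_WSU) (h4 : t_DEC) : t_WEL := by
  classical
  intro ε he0 he1
  obtain ⟨hU, hS1, -, -, hM, hG⟩ := h3 ε he0 he1
  have hb : (1 - ε ^ 2) < 1 := by
    have : 0 < ε ^ 2 := by positivity
    linarith
  have hb0 : 0 ≤ 1 - ε ^ 2 := by nlinarith
  obtain ⟨k, hk⟩ := exists_pow_lt_of_lt_one (show (0 : ℝ) < 1 / 8 by norm_num) hb
  obtain ⟨C1, A, hA, hI⟩ := h1 ε he0 he1 k
  obtain ⟨n, hn⟩ := h2 (max 1 (36 * A ^ 8))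
  -- one class
  have key : ∀ X : Finset Pl, Good X →
      (∀ x ∈ X, ∀ y ∈ X, x ≠ y → Metric.diam (X : Set Pl) ≤ 6 * dist x y ^ 4) →
      WS ε (C1 + n + 2) X := by
    intro X hX hXd
    rcases hI X hX with h | ⟨X', hX', hc, hd⟩
    · rcases Nat.eq_zero_or_pos C1 with h0 | h0
      · obtain ⟨f, -⟩ := h
        rw [h0] at f
        exact (f 0).elim0
      · exact hM C1 _ X h0 (by omega) h
    · by_cases hc1 : X'.card ≤ 1
      · have h5 : X.card ≤ C1 + 1 := by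
          have := Finset.card_le_card_sdiff_add_card (s := X) (t := X')
          omega
        exact hM (C1 + 1 + 1) _ X (by omega) (by omega) (hS1 (C1 + 1) X h5)
      · rw [not_le, Finset.one_lt_card] at hc1
        obtain ⟨x, hx, y, hy, hxy⟩ := hc1
        have b1 : dist x y ≤ Metric.diam (X' : Set Pl) :=
          Metric.dist_le_diam_of_mem X'.finite_toSet.isBounded (Finset.mem_coe.2 hx)
            (Finset.mem_coe.2 hy)
        have b2 := WEL.bound hA hk.le Metric.diam_nonneg (hXd x (hX' hx) y (hX' hy) hxy)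
          dist_nonneg (b1.trans hd)
        exact hM (n + 1) _ X (by omega) (by omega) (hS1 n X (hn X hX b2))
  refine ⟨4 * (C1 + n + 2) + 3, fun S hS => ?_⟩
  obtain ⟨S', g, hS', hc, hd⟩ := h4 S hS
  have h5 : WS ε (4 * (C1 + n + 2)) S' := by
    refine hG 4 (C1 + n + 2) S' g ?_
    intro i T hT
    have hTS : T ⊆ S' := fun x hx => ((hT x).1 hx).1
    refine key T (hS.subset (hTS.trans hS')) ?_
    intro x hx y hy hxy
    refine (Metric.diam_mono (Finset.coe_subset.2 hTS) S'.finite_toSet.isBounded).trans ?_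
    exact hd x (hTS hx) y (hTS hy) hxy (((hT x).1 hx).2.trans ((hT y).1 hy).2.symm)
  refine hU _ 3 S' (S \ S') S h5 (hS1 2 (S \ S') hc) ?_
  intro x hx
  rw [Finset.mem_union, Finset.mem_sdiff]
  by_cases h : x ∈ S'
  · exact Or.inl h
  · exact Or.inr ⟨hx, h⟩

end Pool.Agent.CLU
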