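import Pool.Agent.CLU.StX

/-!
# CLU: WEX
-/

set_option autoImplicit false

open Pool.Agent.RCX

namespace Pool.Agent.CLU

namespace WEX

/-- number of points in terms of the diameter -/
theorem num {Cg : ℕ} {ε : ℝ} (he1 : ε < 1) {D d : ℝ} (hD : 1 ≤ D) (hd : D ^ (1 - ε) ≤ d)
    {n k : ℕ} (hn : (n : ℝ) ≤ Real.log D / Real.log 2 + 1) (hk : k ≤ Cg * (n + 1) ^ Cg) :
    (k : ℝ) ≤ Cg * ((2 / (1 - ε) + 2) * Real.log (d + 3)) ^ Cg := by
  have h1 : 0 < 1 - ε := by linarith
  have hlog2 : (1 : ℝ) / 2 < Real.log 2 := by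
    have := Real.log_two_gt_d9
    linarith
  have hl2 : 0 < Real.log 2 := by linarith
  have hlD : 0 ≤ Real.log D := Real.log_nonneg hD
  have hd1 : 1 ≤ d := (Real.one_le_rpow hD h1.le).trans hd
  have hl3 : 1 ≤ Real.log (d + 3) := by
    have h3 : Real.exp 1 ≤ d + 3 := by
      have := Real.exp_one_lt_d9
      linarith
    calc (1 : ℝ) = Real.log (Real.exp 1) := (Real.log_exp 1).symm
      _ ≤ Real.log (d + 3) := Real.log_le_log (Real.exp_pos 1) h3
  have hld : (1 - ε) * Real.log D ≤ Real.log (d + 3) := by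
    rw [← Real.log_rpow (by linarith)]
    exact Real.log_le_log (Real.rpow_pos_of_pos (by linarith) _) (by linarith)
  have hlD2 : Real.log D ≤ Real.log (d + 3) / (1 - ε) := by
    rw [le_div_iff₀ h1]
    linarith
  have hq : Real.log D / Real.log 2 ≤ 2 * Real.log D := by
    rw [div_le_iff₀ hl2]
    nlinarith
  have hn1 : ((n : ℝ) + 1) ≤ (2 / (1 - ε) + 2) * Real.log (d + 3) := by
    have e : (2 / (1 - ε) + 2) * Real.log (d + 3) =
        2 * (Real.log (d + 3) / (1 - ε)) + 2 * Real.log (d + 3) := by ring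
    rw [e]
    linarith
  have hk' : (k : ℝ) ≤ Cg * ((n : ℝ) + 1) ^ Cg := by exact_mod_cast hk
  refine hk'.trans (mul_le_mul_of_nonneg_left ?_ (Nat.cast_nonneg _))
  exact pow_le_pow_left₀ (by positivity) hn1 _

end WEX

open Classical in
theorem WEX_thm (h1 : t_WEL) (h2 : t_GPC) : t_WEX := by
  intro ε he0 he1
  obtain ⟨C0, hC0⟩ := h1 ε he0 he1
  obtain ⟨Cg, hCg⟩ := h2
  obtain ⟨K, hK⟩ := exists_nat_ge (2 / (1 - ε) + 2)
  have h1e : 0 < 1 - ε := by linarith
  have hK1 : (2 : ℝ) ≤ K := by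
    have : 0 < 2 / (1 - ε) := by positivity
    linarith
  set C : ℕ := 2 * C0 + Cg * K ^ Cg + Cg + 1 with hC
  refine ⟨C, fun S hS => ?_⟩
  obtain ⟨f, hf⟩ := hC0 S hS
  -- the class j as a finite set
  set X : Fin C0 → Finset Pl := fun j => S.filter (fun x => f x = j) with hX
  have hXset : ∀ j, (X j : Set Pl) = {z | z ∈ S ∧ f z = j} := by
    intro j
    ext z
    simp [hX]
  have hXgood : ∀ j, Good (X j) := fun j => hS.subset (Finset.filter_subset _ _)
  have hbdd : ∀ j, Bornology.IsBounded {z | z ∈ S ∧ f z = j} := fun j =>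
    (S.finite_toSet.subset (fun z hz => hz.1)).isBounded
  -- the circle of the class j
  have hcirc : ∀ j : Fin C0, ∃ (c : Pl) (r : ℝ),
      (∀ x ∈ S, f x = j → dist c x = r) ∨
      ((∀ x ∈ S, ∀ y ∈ S, f x = j → f y = j → x ≠ y →
        Metric.diam {z | z ∈ S ∧ f z = j} ^ (1 - ε) ≤ dist x y) ∧
        ∀ U ⊆ X j, (∀ y ∈ U, dist c y ≠ r) →
          U.card ≤ Cg * (⌈Real.log (Metric.diam {z | z ∈ S ∧ f z = j}) / Real.log 2⌉₊ + 1) ^ Cg)
      := by
    intro j
    rcases hf j with ⟨c, r, h⟩ | h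
    · exact ⟨c, r, Or.inl h⟩
    · obtain ⟨c, r, h3⟩ := hCg ⌈Real.log (Metric.diam {z | z ∈ S ∧ f z = j}) / Real.log 2⌉₊ (X j)
        (hXgood j) (by
          intro x hx y hy
          have hx' : x ∈ {z | z ∈ S ∧ f z = j} := by rw [← hXset]; exact hx
          have hy' : y ∈ {z | z ∈ S ∧ f z = j} := by rw [← hXset]; exact hy
          have a1 : dist x y ≤ Metric.diam {z | z ∈ S ∧ f z = j} :=
            Metric.dist_le_diam_of_mem (hbdd j) hx' hy'
          set D := Metric.diam {z | z ∈ S ∧ f z = j} with hD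
          by_cases hD1 : D ≤ 1
          · exact (a1.trans hD1).trans (one_le_pow₀ (by norm_num))
          · rw [not_le] at hD1
            have a2 : Real.log D / Real.log 2 ≤ ⌈Real.log D / Real.log 2⌉₊ := Nat.le_ceil _
            rw [div_le_iff₀ (Real.log_pos (by norm_num))] at a2
            have a3 : D ≤ 2 ^ ⌈Real.log D / Real.log 2⌉₊ := by
              rw [← Real.log_le_log_iff (by linarith) (by positivity), Real.log_pow]
              exact a2
            exact a1.trans a3)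
      exact ⟨c, r, Or.inr ⟨h, h3⟩⟩
  choose c r hcr using hcirc
  -- the new colouring
  have hlt : ∀ x : Pl, 2 * (f x : ℕ) + (if dist (c (f x)) x = r (f x) then 0 else 1) < C := by
    intro x
    have := (f x).isLt
    split_ifs <;> omega
  refine ⟨fun x => ⟨2 * (f x : ℕ) + (if dist (c (f x)) x = r (f x) then 0 else 1), hlt x⟩, ?_⟩
  intro i
  by_cases hi : (i : ℕ) < 2 * C0
  swap
  · left
    refine ⟨0, 0, ?_⟩
    intro x hx hxi
    exfalso
    have h3 := congrArg Fin.val hxi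
    simp only at h3
    have := (f x).isLt
    split_ifs at h3 <;> omega
  have hj : (i : ℕ) / 2 < C0 := by omega
  set j : Fin C0 := ⟨(i : ℕ) / 2, hj⟩ with hjdef
  -- members of the class i
  have hmem : ∀ x : Pl, (⟨2 * (f x : ℕ) + (if dist (c (f x)) x = r (f x) then 0 else 1),
      hlt x⟩ : Fin C) = i → f x = j ∧ (dist (c j) x = r j ↔ (i : ℕ) % 2 = 0) := by
    intro x hxi
    have h3 := congrArg Fin.val hxi
    simp only at h3
    have hfx : f x = j := by
      apply Fin.ext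
      rw [hjdef]
      simp only
      split_ifs at h3 <;> omega
    refine ⟨hfx, ?_⟩
    rw [hfx] at h3
    split_ifs at h3 with h4
    · exact ⟨fun _ => by omega, fun _ => h4⟩
    · refine ⟨fun h5 => absurd h5 h4, fun h5 => ?_⟩
      omega
  by_cases hi2 : (i : ℕ) % 2 = 0
  · left
    refine ⟨c j, r j, ?_⟩
    intro x hx hxi
    exact ((hmem x hxi).2).2 hi2
  rcases hcr j with h | ⟨h, h'⟩
  · left
    refine ⟨c j, r j, ?_⟩
    intro x hx hxi
    exact h x hx (hmem x hxi).1
  right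
  set Y : Set Pl := {z | z ∈ S ∧ (⟨2 * (f z : ℕ) + (if dist (c (f z)) z = r (f z) then 0 else 1),
      hlt z⟩ : Fin C) = i} with hY
  set D := Metric.diam {z | z ∈ S ∧ f z = j} with hD
  have hsub : Y ⊆ {z | z ∈ S ∧ f z = j} := fun z hz => ⟨hz.1, (hmem z hz.2).1⟩
  have hYD : Metric.diam Y ≤ D := Metric.diam_mono hsub (hbdd j)
  refine ⟨?_, ?_⟩
  · intro x hx y hy hxi hyi hxy
    refine le_trans ?_ (h x hx y hy (hmem x hxi).1 (hmem y hyi).1 hxy)
    exact Real.rpow_le_rpow Metric.diam_nonneg hYD h1e.le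
  · intro U hU hUx
    have hl3 : 1 ≤ Real.log (Metric.diam Y + 3) := by
      have h3 : Real.exp 1 ≤ Metric.diam Y + 3 := by
        have h4 := Real.exp_one_lt_d9
        have h5 : 0 ≤ Metric.diam Y := Metric.diam_nonneg
        linarith
      calc (1 : ℝ) = Real.log (Real.exp 1) := (Real.log_exp 1).symm
        _ ≤ Real.log (Metric.diam Y + 3) := Real.log_le_log (Real.exp_pos 1) h3
    have hpow : ∀ a b : ℕ, a ≤ b → Real.log (Metric.diam Y + 3) ^ a ≤
        Real.log (Metric.diam Y + 3) ^ b := fun a b hab => pow_le_pow_right₀ hl3 hab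
    by_cases hc1 : U.card ≤ 1
    · calc (U.card : ℝ) ≤ 1 := by exact_mod_cast hc1
        _ ≤ C * 1 := by
          have : (1 : ℝ) ≤ C := by
            have : 1 ≤ C := by omega
            exact_mod_cast this
          linarith
        _ ≤ C * Real.log (Metric.diam Y + 3) ^ C :=
          mul_le_mul_of_nonneg_left (one_le_pow₀ hl3) (Nat.cast_nonneg _)
    · rw [not_le, Finset.one_lt_card] at hc1
      obtain ⟨x, hx, y, hy, hxy⟩ := hc1
      have hxY : x ∈ Y := ⟨hU hx, hUx x hx⟩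
      have hyY : y ∈ Y := ⟨hU hy, hUx y hy⟩
      have hYb : Bornology.IsBounded Y := (hbdd j).subset hsub
      have b1 : dist x y ≤ Metric.diam Y := Metric.dist_le_diam_of_mem hYb hxY hyY
      have b2 : 1 ≤ dist x y := hS.one_le (hU hx) (hU hy) hxy
      have b3 : D ^ (1 - ε) ≤ dist x y := h x (hU hx) y (hU hy) (hmem x (hUx x hx)).1
        (hmem y (hUx y hy)).1 hxy
      have b4 : U.card ≤ Cg * (⌈Real.log D / Real.log 2⌉₊ + 1) ^ Cg := by
        refine h' U ?_ ?_
        · intro z hz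
          rw [hX, Finset.mem_filter]
          exact ⟨hU hz, (hmem z (hUx z hz)).1⟩
        · intro z hz hzc
          exact hi2 (((hmem z (hUx z hz)).2).1 hzc)
      have hD1 : 1 ≤ D := (b2.trans b1).trans hYD
      have b5 := WEX.num he1 hD1 (b3.trans b1)
        (n := ⌈Real.log D / Real.log 2⌉₊) ((Nat.ceil_lt_add_one
          (div_nonneg (Real.log_nonneg hD1) (Real.log_nonneg (by norm_num)))).le) b4
      refine b5.trans ?_
      rw [mul_pow, ← mul_assoc]
      have c1 : (2 / (1 - ε) + 2) ^ Cg ≤ (K : ℝ) ^ Cg := pow_le_pow_left₀ (by positivity) hK _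
      have c2 : (Cg : ℝ) * (2 / (1 - ε) + 2) ^ Cg ≤ C := by
        have c3 : (Cg : ℝ) * (2 / (1 - ε) + 2) ^ Cg ≤ Cg * (K : ℝ) ^ Cg :=
          mul_le_mul_of_nonneg_left c1 (Nat.cast_nonneg _)
        have c4 : Cg * K ^ Cg ≤ C := by omega
        have c5 : (Cg : ℝ) * (K : ℝ) ^ Cg ≤ C := by exact_mod_cast c4
        linarith
      refine mul_le_mul c2 (hpow Cg C (by omega)) (by positivity) (Nat.cast_nonneg _)

end Pool.Agent.CLU
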