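import Pool.Agent.CLU.StP

/-!
# Rules for WS (project CLU, module WSU)
-/

set_option autoImplicit false

open Pool.Agent.RCX

open scoped InnerProductSpace

namespace Pool.Agent.CLU

namespace WSU

/-- the property of a class -/
def CL (ε : ℝ) (X : Set Pl) : Prop :=
  (∃ (c : Pl) (r : ℝ), ∀ x ∈ X, dist c x = r) ∨
  ∀ x ∈ X, ∀ y ∈ X, x ≠ y → Metric.diam X ^ (1 - ε) ≤ dist x y

lemma CL.mono {ε : ℝ} (h1 : ε < 1) {X Y : Set Pl} (hX : Bornology.IsBounded X) (h : CL ε X)
    (hY : Y ⊆ X) : CL ε Y := by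
  rcases h with ⟨c, r, h⟩ | h
  · exact Or.inl ⟨c, r, fun x hx => h x (hY hx)⟩
  · refine Or.inr fun x hx y hy hxy => le_trans ?_ (h x (hY hx) y (hY hy) hxy)
    exact Real.rpow_le_rpow Metric.diam_nonneg (Metric.diam_mono hY hX) (by linarith)

lemma bd (X : Finset Pl) {k : ℕ} (f : Pl → Fin k) (i : Fin k) :
    Bornology.IsBounded {z | z ∈ X ∧ f z = i} :=
  (X.finite_toSet.subset fun _ hz => hz.1).isBounded

lemma ws_iff (ε : ℝ) (C : ℕ) (X : Finset Pl) :
    WS ε C X ↔ ∃ f : Pl → Fin C, ∀ i : Fin C, CL ε {z | z ∈ X ∧ f z = i} := by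
  unfold WS CL
  refine exists_congr fun f => forall_congr' fun i => or_congr ?_ ?_
  · refine exists_congr fun c => exists_congr fun r => ?_
    exact ⟨fun h x hx => h x hx.1 hx.2, fun h x h1 h2 => h x ⟨h1, h2⟩⟩
  · exact ⟨fun h x hx y hy hxy => h x hx.1 y hy.1 hx.2 hy.2 hxy,
      fun h x hx y hy h1 h2 hxy => h x ⟨hx, h1⟩ y ⟨hy, h2⟩ hxy⟩

lemma CL.of_inj {ε : ℝ} {X : Set Pl} (h : ∀ x ∈ X, ∀ y ∈ X, x = y) : CL ε X :=
  Or.inr fun x hx y hy hxy => absurd (h x hx y hy) hxy

end WSU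

open WSU in
open Classical in
theorem WSU_thm (h1 : Pool.Agent.RCX.t_GRD) : t_WSU := by
  intro ε hε hε1
  refine ⟨?_, ?_, ?_, ?_, ?_, ?_⟩
  · intro k l A B S hA hB hS
    rw [ws_iff] at hA hB ⊢
    obtain ⟨f, hf⟩ := hA
    obtain ⟨g, hg⟩ := hB
    refine ⟨fun x => if x ∈ A then Fin.castAdd l (f x) else Fin.natAdd k (g x), fun i => ?_⟩
    refine Fin.addCases (fun i => ?_) (fun i => ?_) i
    · refine (hf i).mono hε1 (bd A f i) ?_
      rintro x ⟨hx, hxi⟩
      beta_reduce at hxi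
      by_cases hxA : x ∈ A
      · rw [if_pos hxA] at hxi
        exact ⟨hxA, Fin.castAdd_injective k l hxi⟩
      · rw [if_neg hxA] at hxi
        exfalso
        have := congrArg Fin.val hxi
        simp only [Fin.val_natAdd, Fin.val_castAdd] at this
        have := i.isLt
        omega
    · refine (hg i).mono hε1 (bd B g i) ?_
      rintro x ⟨hx, hxi⟩
      beta_reduce at hxi
      by_cases hxA : x ∈ A
      · rw [if_pos hxA] at hxi
        exfalso
        have := congrArg Fin.val hxi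
        simp only [Fin.val_natAdd, Fin.val_castAdd] at this
        have := (f x).isLt
        omega
      · rw [if_neg hxA] at hxi
        refine ⟨?_, Fin.natAdd_injective l k hxi⟩
        have := hS hx
        rw [Finset.mem_union] at this
        exact this.resolve_left hxA
  · intro n S hS
    rw [ws_iff]
    refine ⟨fun x => if h : x ∈ S then Fin.castLE (by omega) (S.equivFin ⟨x, h⟩) else 0,
      fun i => CL.of_inj ?_⟩
    rintro x ⟨hx, hxi⟩ y ⟨hy, hyi⟩
    rw [← hxi] at hyi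
    simp only [dif_pos hx, dif_pos hy] at hyi
    have h2 := S.equivFin.injective (Fin.castLE_injective _ hyi)
    exact (congrArg Subtype.val h2).symm
  · intro k S ρ hρ hk
    rw [ws_iff]
    obtain ⟨g, hg⟩ := h1 k S (fun x y => dist x y ≤ ρ) (fun x y h => by rw [dist_comm]; exact h)
      (fun x hx U hU h => hk x hx U hU h)
    refine ⟨g, fun i => Or.inr ?_⟩
    rintro x ⟨hx, hxi⟩ y ⟨hy, hyi⟩ hxy
    have h2 : ρ < dist x y := by
      by_contra h
      exact hg x hx y hy hxy (not_lt.1 h) (hxi.trans hyi.symm)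
    refine le_trans ?_ (le_trans hρ h2.le)
    exact Real.rpow_le_rpow Metric.diam_nonneg (Metric.diam_mono (fun z hz => hz.1)
      S.finite_toSet.isBounded) (by linarith)
  · intro S c r h
    rw [ws_iff]
    exact ⟨fun _ => 0, fun i => Or.inl ⟨c, r, fun x hx => h x hx.1⟩⟩
  · intro k l S hk hkl h
    rw [ws_iff] at h ⊢
    obtain ⟨f, hf⟩ := h
    refine ⟨fun x => Fin.castLE hkl (f x), fun i => ?_⟩
    by_cases hi : i.val < k
    · refine (hf ⟨i.val, hi⟩).mono hε1 (bd S f _) ?_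
      rintro x ⟨hx, hxi⟩
      have h3 : (f x).val = i.val := congrArg Fin.val hxi
      exact ⟨hx, Fin.ext h3⟩
    · refine CL.of_inj ?_
      rintro x ⟨hx, hxi⟩
      exfalso
      apply hi
      rw [← hxi]
      exact (f x).isLt
  · intro k l S g h
    rw [ws_iff]
    have h' : ∀ i : Fin k, ∃ f : Pl → Fin l, ∀ j, CL ε {z | z ∈ S.filter (fun x => g x = i) ∧ f z = j} :=
      fun i => (ws_iff ε l _).1 (h i _ (fun x => by simp))
    choose F hF using h'
    refine ⟨fun x => finProdFinEquiv (g x, F (g x) x), fun i => ?_⟩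
    refine (hF (finProdFinEquiv.symm i).1 (finProdFinEquiv.symm i).2).mono hε1 (bd _ _ _) ?_
    rintro x ⟨hx, hxi⟩
    rw [← hxi]
    simp [hx]

end Pool.Agent.CLU
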